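import Pool.Agent.H46.Cheb.Path

/-!
# Existence of extremal nonagons
-/

namespace Pool.Agent.H46.Cheb

open Finset Complex Metric

/-- the compact set of competitors -/
def Comp : Set (Fin 9 → ℂ) :=
  {v | v 0 = 0 ∧ (∀ i j k : Fin 9, i < j → j < k → 0 ≤ cross (v j - v i) (v k - v i)) ∧
    Cond v ∧ perimeter v ≤ 3.2}

lemma continuous_perimeter : Continuous (perimeter (n := 9)) := by
  unfold perimeter
  fun_prop

lemma continuous_ip {X : Type*} [TopologicalSpace X] {f g : X → ℂ} (hf : Continuous f)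
    (hg : Continuous g) : Continuous fun x => ip (f x) (g x) := by
  unfold ip
  fun_prop

lemma continuous_cross {X : Type*} [TopologicalSpace X] {f g : X → ℂ} (hf : Continuous f)
    (hg : Continuous g) : Continuous fun x => cross (f x) (g x) := by
  unfold cross
  fun_prop

lemma isClosed_cond : IsClosed {v : Fin 9 → ℂ | Cond v} := by
  have h : {v : Fin 9 → ℂ | Cond v} = ⋂ x : ℂ, ⋂ w : ℂ,
      ((⋃ i, {v : Fin 9 → ℂ | 1 ≤ ‖x - v i‖}) ∪ (⋃ i, {v : Fin 9 → ℂ | ip x w ≤ ip (v i) w})) := by
    ext v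
    simp only [Cond, Set.mem_iInter, Set.mem_union, Set.mem_iUnion]
    rfl
  rw [h]
  refine isClosed_iInter fun x => isClosed_iInter fun w => ?_
  refine IsClosed.union (isClosed_iUnion_of_finite fun i => ?_)
    (isClosed_iUnion_of_finite fun i => ?_)
  · exact isClosed_le continuous_const (by fun_prop)
  · exact isClosed_le continuous_const (continuous_ip (continuous_apply i) continuous_const)

lemma isClosed_comp : IsClosed Comp := by
  have h1 : IsClosed {v : Fin 9 → ℂ | v 0 = 0} := isClosed_eq (continuous_apply 0) continuous_const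
  have h2 : IsClosed {v : Fin 9 → ℂ | ∀ i j k : Fin 9, i < j → j < k →
      0 ≤ cross (v j - v i) (v k - v i)} := by
    have : {v : Fin 9 → ℂ | ∀ i j k : Fin 9, i < j → j < k → 0 ≤ cross (v j - v i) (v k - v i)}
        = ⋂ i, ⋂ j, ⋂ k, ⋂ (_ : i < j), ⋂ (_ : j < k),
          {v : Fin 9 → ℂ | 0 ≤ cross (v j - v i) (v k - v i)} := by
      ext v
      simp only [Set.mem_iInter]
      rfl
    rw [this]
    refine isClosed_iInter fun i => isClosed_iInter fun j => isClosed_iInter fun k =>
      isClosed_iInter fun _ => isClosed_iInter fun _ => ?_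
    exact isClosed_le continuous_const (continuous_cross (by fun_prop) (by fun_prop))
  have h3 : IsClosed {v : Fin 9 → ℂ | perimeter v ≤ 3.2} :=
    isClosed_le continuous_perimeter continuous_const
  exact h1.inter (h2.inter (isClosed_cond.inter h3))

lemma isCompact_comp : IsCompact Comp := by
  refine Metric.isCompact_of_isClosed_isBounded isClosed_comp ?_
  refine (Metric.isBounded_closedBall (x := (0 : Fin 9 → ℂ)) (r := 2)).subset ?_
  rintro v ⟨h0, _, _, hp⟩
  rw [mem_closedBall, dist_zero_right, pi_norm_le_iff_of_nonneg (by norm_num)]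
  intro i
  have := path_dist v i 0
  rw [h0, sub_zero] at this
  norm_num at hp
  linarith

/-- rescaled polygon -/
noncomputable def nrm (w : Fin 9 → ℂ) (δ : ℝ) (i : Fin 9) : ℂ := (w i - w 0) / δ

lemma nrm_sub (w : Fin 9 → ℂ) (δ : ℝ) (i j : Fin 9) :
    nrm w δ i - nrm w δ j = ((δ⁻¹ : ℝ) : ℂ) * (w i - w j) := by
  unfold nrm
  rw [← sub_div, div_eq_mul_inv]
  push_cast
  ring

lemma perimeter_nrm (w : Fin 9 → ℂ) {δ : ℝ} (hδ : 0 < δ) :
    perimeter (nrm w δ) = perimeter w / δ := by
  unfold perimeter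
  rw [Finset.sum_div]
  refine Finset.sum_congr rfl fun i _ => ?_
  rw [dist_eq_norm, nrm_sub, norm_mul, Complex.norm_real, Real.norm_eq_abs,
    abs_of_pos (inv_pos.2 hδ), dist_eq_norm]
  field_simp

lemma cross_smul (t : ℝ) (x y : ℂ) : cross ((t : ℂ) * x) ((t : ℂ) * y) = t ^ 2 * cross x y := by
  unfold cross
  rw [Complex.re_ofReal_mul, Complex.re_ofReal_mul, Complex.im_ofReal_mul, Complex.im_ofReal_mul]
  ring

lemma nrm_mem {w : Fin 9 → ℂ} (hw : IsConvexNGon w) (hδ : 0 < selfRadius (boundary w))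
    (hL : perimeter w / selfRadius (boundary w) ≤ 3.2) :
    nrm w (selfRadius (boundary w)) ∈ Comp := by
  set δ := selfRadius (boundary w) with hδdef
  have hper : perimeter (nrm w δ) ≤ 3.2 := by rw [perimeter_nrm w hδ]; exact hL
  refine ⟨by simp [nrm], ?_, ?_, hper⟩
  · intro i j k hij hjk
    rw [nrm_sub, nrm_sub, cross_smul]
    have := hw.2 i j k hij hjk
    positivity
  · intro x u
    by_contra hcon
    push Not at hcon
    obtain ⟨h1, h2⟩ := hcon
    obtain ⟨a, b, hab⟩ := exists_center (nrm w δ) hper (path_tri (nrm w δ))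
    have hw' : ∀ i, w i = δ * nrm w δ i + w 0 := by
      intro i
      have : (δ : ℂ) ≠ 0 := by exact_mod_cast hδ.ne'
      unfold nrm
      field_simp
      ring
    have hm : (w a + w b) / 2 ∈ convexHull ℝ (Set.range w) := by
      have h3 := (convex_convexHull ℝ (Set.range w)) (subset_convexHull ℝ _ ⟨a, rfl⟩)
        (subset_convexHull ℝ _ ⟨b, rfl⟩) (a := 1 / 2) (b := 1 / 2) (by norm_num) (by norm_num)
        (by norm_num)
      have e : (w a + w b) / 2 = (1 / 2 : ℝ) • w a + (1 / 2 : ℝ) • w b := by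
        rw [Complex.real_smul, Complex.real_smul]; push_cast; ring
      rw [e]; exact h3
    have hm' : ∀ i, ‖(w a + w b) / 2 - w i‖ < δ := by
      intro i
      have e : (w a + w b) / 2 - w i = -(δ * (nrm w δ i - (nrm w δ a + nrm w δ b) / 2)) := by
        rw [hw' i, hw' a, hw' b]
        have : nrm w δ 0 = 0 := by simp [nrm]
        ring
      rw [e, norm_neg, norm_mul, Complex.norm_real, Real.norm_eq_abs, abs_of_pos hδ]
      have := hab i
      norm_num at this
      nlinarith
    have hx' : ∀ i, ‖(δ * x + w 0) - w i‖ < δ := by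
      intro i
      have e : (δ * x + w 0) - w i = δ * (x - nrm w δ i) := by rw [hw' i]; ring
      rw [e, norm_mul, Complex.norm_real, Real.norm_eq_abs, abs_of_pos hδ]
      have := h1 i
      nlinarith
    obtain ⟨i, hi⟩ := hull_exists (mem_hull_of_lt hm hm' hx') u
    rw [hw' i, ip_add, ip_add, ip_smul_left, ip_smul_left] at hi
    have h3 := h2 i
    have h4 : δ * ip (nrm w δ i) u < δ * ip x u := mul_lt_mul_of_pos_left h3 hδ
    linarith

lemma vertex_ne {v : Fin 9 → ℂ} (h : IsConvexNGon v) : v 0 ≠ v 1 := by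
  intro he
  have := h.2 0 1 2 (by decide) (by decide)
  rw [he, sub_self] at this
  simp [cross] at this

/-- existence of an extremal nonagon, given one nonagon with a small ratio -/
theorem exists_extremal {ρ : Fin 9 → ℂ} (hρ : IsConvexNGon ρ)
    (hρL : perimeter ρ / selfRadius (boundary ρ) < 3.1739) : ∃ v : Fin 9 → ℂ, IsExtremalNGon v := by
  have hρδ := selfRadius_pos (vertex_ne hρ)
  have hmem : nrm ρ (selfRadius (boundary ρ)) ∈ Comp := nrm_mem hρ hρδ (by
    norm_num at hρL ⊢; linarith)
  obtain ⟨v, hv, hmin⟩ := isCompact_comp.exists_isMinOn ⟨_, hmem⟩ continuous_perimeter.continuousOn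
  have hvL : perimeter v < 3.1739 := by
    have := hmin hmem
    simp only [Set.mem_ofPred_eq] at this
    rw [perimeter_nrm _ hρδ] at this
    exact lt_of_le_of_lt this hρL
  have hstrict : IsConvexNGon v := by
    refine ⟨by norm_num, fun i j k hij hjk => ?_⟩
    refine lt_of_le_of_ne (hv.2.1 i j k hij hjk) fun h => ?_
    exact absurd hvL (not_lt.2 (degenerate hv.2.2.1 hij hjk h.symm))
  have hδ1 : 1 ≤ selfRadius (boundary v) := hv.2.2.1.one_le (vertex_ne hstrict)
  have hper0 : 0 ≤ perimeter v := by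
    unfold perimeter
    exact Finset.sum_nonneg fun _ _ => dist_nonneg
  have hratio : perimeter v / selfRadius (boundary v) ≤ perimeter v := div_le_self hper0 hδ1
  refine ⟨v, hstrict, fun w hw => hratio.trans ?_⟩
  have hwδ := selfRadius_pos (vertex_ne hw)
  by_cases hwL : perimeter w / selfRadius (boundary w) ≤ 3.2
  · have := hmin (nrm_mem hw hwδ hwL)
    simp only [Set.mem_ofPred_eq] at this
    rw [perimeter_nrm _ hwδ] at this
    exact this
  · push Not at hwL
    norm_num at hvL hwL
    linarith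

end Pool.Agent.H46.Cheb
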