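import Mathlib

/-!
# Decomposition of a cyclic sum into gaps
-/

namespace Pool.Agent.H46.Cheb

open Finset

variable {N : ℕ} [NeZero N]

lemma exists_next {C : Finset (ZMod N)} (hC : C.Nonempty) (k : ZMod N) :
    ∃ j : ℕ, 1 ≤ j ∧ k + (j : ZMod N) ∈ C := by
  obtain ⟨c, hc⟩ := hC
  refine ⟨(c - k).val + N, ?_, ?_⟩
  · have := NeZero.pos N; omega
  · simp [hc]

lemma exists_prev {C : Finset (ZMod N)} (hC : C.Nonempty) (k : ZMod N) :
    ∃ j : ℕ, k - (j : ZMod N) ∈ C := by
  obtain ⟨c, hc⟩ := hC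
  exact ⟨(k - c).val, by simp [hc]⟩

open scoped Classical in
/-- length of the gap starting at `k` -/
noncomputable def gap (C : Finset (ZMod N)) (k : ZMod N) : ℕ :=
  if h : ∃ j : ℕ, 1 ≤ j ∧ k + (j : ZMod N) ∈ C then Nat.find h else 0

open scoped Classical in
/-- distance to the previous element of `C` -/
noncomputable def prv (C : Finset (ZMod N)) (k : ZMod N) : ℕ :=
  if h : ∃ j : ℕ, k - (j : ZMod N) ∈ C then Nat.find h else 0

variable {C : Finset (ZMod N)}

lemma gap_spec (hC : C.Nonempty) (k : ZMod N) :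
    1 ≤ gap C k ∧ k + (gap C k : ZMod N) ∈ C ∧
      ∀ j, 1 ≤ j → j < gap C k → k + (j : ZMod N) ∉ C := by
  classical
  unfold gap
  rw [dif_pos (exists_next hC k)]
  refine ⟨(Nat.find_spec (exists_next hC k)).1, (Nat.find_spec (exists_next hC k)).2, ?_⟩
  intro j h1 h2 h3
  exact Nat.find_min (exists_next hC k) h2 ⟨h1, h3⟩

lemma gap_le (k : ZMod N) {j : ℕ} (h1 : 1 ≤ j) (h2 : k + (j : ZMod N) ∈ C) :
    gap C k ≤ j := by
  classical
  have hex : ∃ j : ℕ, 1 ≤ j ∧ k + (j : ZMod N) ∈ C := ⟨j, h1, h2⟩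
  unfold gap
  rw [dif_pos hex]
  exact Nat.find_min' hex ⟨h1, h2⟩

lemma prv_spec (hC : C.Nonempty) (k : ZMod N) :
    k - (prv C k : ZMod N) ∈ C ∧ ∀ j < prv C k, k - (j : ZMod N) ∉ C := by
  classical
  unfold prv
  rw [dif_pos (exists_prev hC k)]
  exact ⟨Nat.find_spec (exists_prev hC k), fun j hj => Nat.find_min (exists_prev hC k) hj⟩

lemma prv_eq {k : ZMod N} {j : ℕ} (h1 : k - (j : ZMod N) ∈ C)
    (h2 : ∀ i < j, k - (i : ZMod N) ∉ C) : prv C k = j := by
  classical
  have hex : ∃ j : ℕ, k - (j : ZMod N) ∈ C := ⟨j, h1⟩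
  unfold prv
  rw [dif_pos hex, Nat.find_eq_iff]
  exact ⟨h1, fun i hi => h2 i hi⟩

/-- a cyclic sum is the sum over the gaps -/
theorem sum_gaps (hC : C.Nonempty) (g : ZMod N → ℝ) :
    ∑ k, g k = ∑ c ∈ C, ∑ j ∈ range (gap C c), g (c + (j : ZMod N)) := by
  rw [Finset.sum_sigma']
  symm
  refine Finset.sum_bij' (fun p _ => p.1 + (p.2 : ZMod N))
    (fun k _ => ⟨k - (prv C k : ZMod N), prv C k⟩) ?_ ?_ ?_ ?_ ?_
  · intro p _; exact Finset.mem_univ _
  · intro k _
    obtain ⟨h1, h2⟩ := prv_spec hC k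
    rw [Finset.mem_sigma]
    refine ⟨h1, ?_⟩
    rw [Finset.mem_range]
    by_contra hcon
    push Not at hcon
    obtain ⟨g1, g2, _⟩ := gap_spec hC (k - (prv C k : ZMod N))
    simp only at hcon
    set G := gap C (k - (prv C k : ZMod N)) with hG
    have := h2 (prv C k - G) (by omega)
    apply this
    rw [Nat.cast_sub hcon]
    convert g2 using 1
    ring
  · rintro ⟨c, j⟩ hp
    rw [Finset.mem_sigma, Finset.mem_range] at hp
    obtain ⟨hc, hj⟩ := hp
    simp only at hc hj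
    obtain ⟨g1, g2, g3⟩ := gap_spec hC c
    have hpr : prv C (c + (j : ZMod N)) = j := by
      apply prv_eq
      · simpa using hc
      · intro i hi
        have := g3 (j - i) (by omega) (by omega)
        rw [Nat.cast_sub hi.le] at this
        convert this using 1
        abel_nf
    simp only [hpr]
    ext
    · simp
    · rfl
  · intro k _; simp
  · rintro ⟨c, j⟩ _; rfl

lemma sum_gap_length (hC : C.Nonempty) : ∑ c ∈ C, (gap C c : ℝ) = N := by
  have := sum_gaps hC (fun _ => (1 : ℝ))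
  simp only [Finset.sum_const, Finset.card_range, nsmul_eq_mul, mul_one, Finset.card_univ,
    ZMod.card] at this
  exact this.symm

end Pool.Agent.H46.Cheb
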