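import Mathlib

/-!
# Inequalities for real sequences (one cell / one gap)
-/

namespace Pool.Agent.H46.Cheb

open Finset

/-- cubes of slopes: if the slopes `d` increase by at most `η` at each step then the energy is large -/
lemma cubes_le {η : ℝ} (hη : 0 ≤ η) (d : ℕ → ℝ) (n : ℕ) (h : ∀ j < n, d (j + 1) - d j ≤ η) :
    (d n ^ 3 - d 0 ^ 3) / 3 ≤ η * ∑ j ∈ range (n + 1), d j ^ 2 - η * (d 0 ^ 2 + d n ^ 2) / 2 := by
  induction n with
  | zero => simp; nlinarith
  | succ n ih =>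
    have ih' := ih (fun j hj => h j (by omega))
    have hn := h n (by omega)
    rw [Finset.sum_range_succ]
    have key : (d (n + 1) ^ 3 - d n ^ 3) / 3 ≤ η * (d (n + 1) ^ 2 + d n ^ 2) / 2 := by
      have h1 : 0 ≤ d (n + 1) ^ 2 + d (n + 1) * d n + d n ^ 2 := by
        nlinarith [sq_nonneg (d (n + 1) + d n), sq_nonneg (d (n + 1)), sq_nonneg (d n)]
      have h2 : (d (n + 1) - d n) * (d (n + 1) ^ 2 + d (n + 1) * d n + d n ^ 2)
          ≤ η * (d (n + 1) ^ 2 + d (n + 1) * d n + d n ^ 2) := mul_le_mul_of_nonneg_right hn h1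
      have h3 : η * (d (n + 1) * d n) ≤ η * ((d (n + 1) ^ 2 + d n ^ 2) / 2) :=
        mul_le_mul_of_nonneg_left (by nlinarith [sq_nonneg (d (n + 1) - d n)]) hη
      nlinarith
    linarith

lemma cube_sub_ge {x y : ℝ} (h : y ≤ x) : (x - y) ^ 3 / 4 ≤ x ^ 3 - y ^ 3 := by
  have h1 : 0 ≤ (x - y) := by linarith
  have h2 : x ^ 3 - y ^ 3 - (x - y) ^ 3 / 4 = (x - y) * (3 / 4 * (x + y) ^ 2) := by ring
  nlinarith [mul_nonneg h1 (sq_nonneg (x + y))]

/-- energy of one cell -/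
lemma cell_energy {η : ℝ} (hη : 0 < η) (d : ℕ → ℝ) (n : ℕ) (h : ∀ j < n, d (j + 1) - d j ≤ η) :
    (max (d n - d 0) 0) ^ 3 / (12 * η) ≤ ∑ j ∈ range (n + 1), d j ^ 2 := by
  have hs : 0 ≤ ∑ j ∈ range (n + 1), d j ^ 2 := Finset.sum_nonneg fun j _ => sq_nonneg _
  rcases le_total (d n) (d 0) with h1 | h1
  · rw [max_eq_right (by linarith)]
    simpa using hs
  · rw [max_eq_left (by linarith), div_le_iff₀ (by positivity)]
    have h2 := cubes_le hη.le d n h
    have h3 := cube_sub_ge h1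
    have h4 : 0 ≤ η * (d 0 ^ 2 + d n ^ 2) / 2 := by positivity
    nlinarith

/-- concave sequence, left part -/
lemma concave_left {η : ℝ} (hη : 0 < η) (m : ℕ) : ∀ (ψ κ : ℕ → ℝ),
    (∀ j < m, 0 ≤ κ (j + 1) ∧ κ (j + 1) ≤ η) →
    (∀ j < m, ψ (j + 2) - ψ (j + 1) + κ (j + 1) ≤ ψ (j + 1) - ψ j) →
    0 ≤ ψ (m + 1) - ψ m →
    (∑ j ∈ range m, κ (j + 1) ≤ ψ 1 - ψ 0) ∧
    ψ 0 * (∑ j ∈ range m, κ (j + 1)) + (∑ j ∈ range m, κ (j + 1)) ^ 3 / (3 * η)
      ≤ ∑ j ∈ range m, ψ (j + 1) * κ (j + 1) := by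
  induction m with
  | zero => intro ψ κ _ _ h; simpa using h
  | succ m ih =>
    intro ψ κ hκ hs hl
    obtain ⟨i1, i2⟩ := ih (fun j => ψ (j + 1)) (fun j => κ (j + 1))
      (fun j hj => hκ (j + 1) (by omega)) (fun j hj => hs (j + 1) (by omega)) hl
    simp only [zero_add] at i1 i2
    set μ' := ∑ j ∈ range m, κ (j + 1 + 1) with hμ'
    have hμ'0 : 0 ≤ μ' := Finset.sum_nonneg fun j hj =>
      (hκ (j + 1) (by have := Finset.mem_range.1 hj; omega)).1
    have e1 : ∑ j ∈ range (m + 1), κ (j + 1) = κ 1 + μ' := by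
      rw [Finset.sum_range_succ']; simp [hμ', add_comm]
    have e2 : ∑ j ∈ range (m + 1), ψ (j + 1) * κ (j + 1)
        = ψ 1 * κ 1 + ∑ j ∈ range m, ψ (j + 1 + 1) * κ (j + 1 + 1) := by
      rw [Finset.sum_range_succ']; simp [add_comm]
    have hk1 := hκ 0 (by omega)
    have hs0 := hs 0 (by omega)
    simp only [zero_add] at hk1 hs0
    have i1' : μ' ≤ ψ 2 - ψ 1 := i1
    have hA : κ 1 + μ' ≤ ψ 1 - ψ 0 := by linarith
    rw [e1, e2]
    refine ⟨hA, ?_⟩
    have h3 : (κ 1 + μ') ^ 3 / (3 * η) ≤ (κ 1 + μ') ^ 2 + μ' ^ 3 / (3 * η) := by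
      rw [← sub_le_iff_le_add, ← sub_div, div_le_iff₀ (by positivity)]
      have : (κ 1 + μ') ^ 3 - μ' ^ 3 = κ 1 * ((κ 1 + μ') ^ 2 + (κ 1 + μ') * μ' + μ' ^ 2) := by ring
      rw [this]
      have h4 : (κ 1 + μ') ^ 2 + (κ 1 + μ') * μ' + μ' ^ 2 ≤ 3 * (κ 1 + μ') ^ 2 := by
        nlinarith [hk1.1, mul_nonneg hk1.1 hμ'0, sq_nonneg (κ 1)]
      have h5 : 0 ≤ (κ 1 + μ') ^ 2 := sq_nonneg _
      calc κ 1 * ((κ 1 + μ') ^ 2 + (κ 1 + μ') * μ' + μ' ^ 2)
          ≤ κ 1 * (3 * (κ 1 + μ') ^ 2) := mul_le_mul_of_nonneg_left h4 hk1.1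
        _ ≤ η * (3 * (κ 1 + μ') ^ 2) := mul_le_mul_of_nonneg_right hk1.2 (by positivity)
        _ = (κ 1 + μ') ^ 2 * (3 * η) := by ring
    have h6 : ψ 0 * (κ 1 + μ') + (κ 1 + μ') ^ 2 ≤ ψ 1 * (κ 1 + μ') := by
      have : 0 ≤ (ψ 1 - ψ 0 - (κ 1 + μ')) * (κ 1 + μ') :=
        mul_nonneg (by linarith) (by linarith [hk1.1])
      nlinarith
    nlinarith

/-- concave nonnegative sequence on `0..n` -/
lemma cell_concave {η : ℝ} (hη : 0 < η) (n : ℕ) (ψ κ : ℕ → ℝ)
    (hψ : ∀ j ≤ n, 0 ≤ ψ j)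
    (hκ : ∀ j, 1 ≤ j → j < n → 0 ≤ κ j ∧ κ j ≤ η)
    (hs : ∀ j, 1 ≤ j → j < n → ψ (j + 1) - ψ j + κ j ≤ ψ j - ψ (j - 1)) :
    (max (∑ j ∈ range (n - 1), κ (j + 1) - η) 0) ^ 3 / (12 * η)
      ≤ ∑ j ∈ range (n - 1), ψ (j + 1) * κ (j + 1) := by
  classical
  have hnn : 0 ≤ ∑ j ∈ range (n - 1), ψ (j + 1) * κ (j + 1) :=
    Finset.sum_nonneg fun j hj => by
      have := Finset.mem_range.1 hj
      exact mul_nonneg (hψ _ (by omega)) (hκ _ (by omega) (by omega)).1
  rcases Nat.lt_or_ge n 2 with hn | hn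
  · have : n - 1 = 0 := by omega
    rw [this]; simp
    rw [max_eq_right (by linarith)]; simp
  by_cases hex : ∃ j, j < n ∧ ψ (j + 1) - ψ j < 0
  · obtain ⟨hj1, hj2⟩ := Nat.find_spec hex
    have hmin : ∀ i < Nat.find hex, 0 ≤ ψ (i + 1) - ψ i := by
      intro i hi
      have := Nat.find_min hex hi
      push Not at this
      exact this (by omega)
    set k := Nat.find hex with hk
    -- left part: interior indices 1..k-1
    have left : (∑ j ∈ range (k - 1), κ (j + 1)) ^ 3 / (3 * η)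
        ≤ ∑ j ∈ range (k - 1), ψ (j + 1) * κ (j + 1) := by
      rcases Nat.eq_zero_or_pos k with h0 | h0
      · simp [h0]
      · obtain ⟨_, h2⟩ := concave_left hη (k - 1) ψ κ
          (fun j hj => hκ _ (by omega) (by omega))
          (fun j hj => by
            have := hs (j + 1) (by omega) (by omega)
            simpa using this)
          (by
            have := hmin (k - 1) (by omega)
            exact this)
        have h3 : 0 ≤ ψ 0 * ∑ j ∈ range (k - 1), κ (j + 1) :=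
          mul_nonneg (hψ 0 (by omega)) (Finset.sum_nonneg fun j hj => by
            have := Finset.mem_range.1 hj
            exact (hκ _ (by omega) (by omega)).1)
        linarith
    -- right part: interior indices k+1..n-1, reversed
    have right : (∑ j ∈ range (n - 1 - k), κ (n - (j + 1))) ^ 3 / (3 * η)
        ≤ ∑ j ∈ range (n - 1 - k), ψ (n - (j + 1)) * κ (n - (j + 1)) := by
      obtain ⟨_, h2⟩ := concave_left hη (n - 1 - k) (fun j => ψ (n - j)) (fun j => κ (n - j))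
          (fun j hj => hκ _ (by omega) (by omega))
          (fun j hj => by
            have := hs (n - (j + 1)) (by omega) (by omega)
            have e1 : n - (j + 1) + 1 = n - j := by omega
            have e2 : n - (j + 1) - 1 = n - (j + 2) := by omega
            rw [e1, e2] at this
            show ψ (n - (j + 2)) - ψ (n - (j + 1)) + κ (n - (j + 1)) ≤ ψ (n - (j + 1)) - ψ (n - j)
            linarith)
          (by
            have e1 : n - (n - 1 - k + 1) = k := by omega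
            have e2 : n - (n - 1 - k) = k + 1 := by omega
            show 0 ≤ ψ (n - (n - 1 - k + 1)) - ψ (n - (n - 1 - k))
            rw [e1, e2]; linarith)
      have h3 : 0 ≤ ψ (n - 0) * ∑ j ∈ range (n - 1 - k), κ (n - (j + 1)) :=
        mul_nonneg (hψ _ (by omega)) (Finset.sum_nonneg fun j hj => by
          have := Finset.mem_range.1 hj
          exact (hκ _ (by omega) (by omega)).1)
      linarith
    -- reindex the right sums
    have reidx : ∀ g : ℕ → ℝ, ∑ j ∈ range (n - 1 - k), g (n - (j + 1))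
        = ∑ j ∈ Finset.Ico k (n - 1), g (j + 1) := by
      intro g
      refine Finset.sum_bij' (fun j _ => n - 1 - (j + 1)) (fun j _ => n - 1 - (j + 1))
        ?_ ?_ ?_ ?_ ?_
      · intro j hj; simp only [Finset.mem_range, Finset.mem_Ico] at *; omega
      · intro j hj; simp only [Finset.mem_range, Finset.mem_Ico] at *; omega
      · intro j hj; simp only [Finset.mem_range] at *; omega
      · intro j hj; simp only [Finset.mem_Ico] at *; omega
      · intro j hj; simp only [Finset.mem_range] at *; congr 1; omega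
    rw [reidx κ, reidx (fun j => ψ j * κ j)] at right
    set μl := ∑ j ∈ range (k - 1), κ (j + 1) with hμl
    set μr := ∑ j ∈ Finset.Ico k (n - 1), κ (j + 1) with hμr
    have hl0 : 0 ≤ μl := Finset.sum_nonneg fun j hj => by
      have := Finset.mem_range.1 hj
      exact (hκ _ (by omega) (by omega)).1
    have hr0 : 0 ≤ μr := Finset.sum_nonneg fun j hj => by
      have := Finset.mem_Ico.1 hj
      exact (hκ _ (by omega) (by omega)).1
    have split : ∀ g : ℕ → ℝ, ∑ j ∈ range (n - 1), g (j + 1)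
        = ∑ j ∈ range (k - 1), g (j + 1) + (∑ j ∈ Finset.Ico (k - 1) k, g (j + 1))
          + ∑ j ∈ Finset.Ico k (n - 1), g (j + 1) := by
      intro g
      rw [Finset.range_eq_Ico, Finset.range_eq_Ico,
        Finset.sum_Ico_consecutive _ (by omega) (by omega),
        Finset.sum_Ico_consecutive _ (by omega) (by omega)]
    have hmidκ : ∑ j ∈ Finset.Ico (k - 1) k, κ (j + 1) ≤ η := by
      rcases Nat.eq_zero_or_pos k with h0 | h0
      · simp [h0, hη.le]
      · have : k = (k - 1) + 1 := by omega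
        have e : Finset.Ico (k - 1) k = {k - 1} := by
          conv_lhs => rw [this]
          simp
        rw [e, Finset.sum_singleton]
        exact (hκ _ (by omega) (by omega)).2
    have hmidψ : 0 ≤ ∑ j ∈ Finset.Ico (k - 1) k, ψ (j + 1) * κ (j + 1) :=
      Finset.sum_nonneg fun j hj => by
        have := Finset.mem_Ico.1 hj
        exact mul_nonneg (hψ _ (by omega)) (hκ _ (by omega) (by omega)).1
    have h1 := split κ
    have h2 := split (fun j => ψ j * κ j)
    rw [← hμl, ← hμr] at h1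
    have hle : max (∑ j ∈ range (n - 1), κ (j + 1) - η) 0 ≤ μl + μr :=
      max_le (by rw [h1]; linarith) (by linarith)
    have h0 : 0 ≤ max (∑ j ∈ range (n - 1), κ (j + 1) - η) 0 := le_max_right _ _
    have h3 : (max (∑ j ∈ range (n - 1), κ (j + 1) - η) 0) ^ 3 / (12 * η)
        ≤ (μl + μr) ^ 3 / (12 * η) := by
      gcongr
    have h4 : (μl + μr) ^ 3 / (12 * η) ≤ μl ^ 3 / (3 * η) + μr ^ 3 / (3 * η) := by
      rw [← add_div, div_le_div_iff₀ (by positivity) (by positivity)]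
      have : (μl + μr) ^ 3 ≤ 4 * (μl ^ 3 + μr ^ 3) := by
        nlinarith [mul_nonneg (add_nonneg hl0 hr0) (sq_nonneg (μl - μr))]
      nlinarith
    rw [h2]
    linarith
  · push Not at hex
    obtain ⟨_, h2⟩ := concave_left hη (n - 1) ψ κ
      (fun j hj => hκ _ (by omega) (by omega))
      (fun j hj => by
        have := hs (j + 1) (by omega) (by omega)
        simpa using this)
      (by
        have := hex (n - 1) (by omega)
        exact this)
    set μ := ∑ j ∈ range (n - 1), κ (j + 1) with hμ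
    have hμ0 : 0 ≤ μ := Finset.sum_nonneg fun j hj => by
      have := Finset.mem_range.1 hj
      exact (hκ _ (by omega) (by omega)).1
    have h3 : 0 ≤ ψ 0 * μ := mul_nonneg (hψ 0 (by omega)) hμ0
    have hle : max (μ - η) 0 ≤ μ := max_le (by linarith) hμ0
    have h0 : 0 ≤ max (μ - η) 0 := le_max_right _ _
    have h4 : (max (μ - η) 0) ^ 3 / (12 * η) ≤ μ ^ 3 / (3 * η) := by
      rw [div_le_div_iff₀ (by positivity) (by positivity)]
      have h5 : (max (μ - η) 0) ^ 3 ≤ μ ^ 3 := by gcongr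
      have h6 : 0 ≤ μ ^ 3 := by positivity
      nlinarith
    linarith

/-- discrete Poincaré inequality with the sharp constant (Picone) -/
lemma gap_poincare {θ : ℝ} (G : ℕ) (hθ : 0 ≤ θ) (hG : G * θ < Real.pi) (φ : ℕ → ℝ)
    (h0 : φ 0 = 0) (hGz : φ G = 0) :
    (2 - 2 * Real.cos θ) * ∑ j ∈ range G, φ j ^ 2 ≤ ∑ j ∈ range G, (φ (j + 1) - φ j) ^ 2 := by
  set w : ℕ → ℝ := fun j => Real.cos (θ * (j - G / 2)) with hw
  have hwpos : ∀ j ≤ G, 0 < w j := by
    intro j hj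
    have hjG : (j : ℝ) ≤ G := by exact_mod_cast hj
    have hj0 : (0 : ℝ) ≤ j := Nat.cast_nonneg j
    refine Real.cos_pos_of_mem_Ioo ⟨?_, ?_⟩
    · have : -(θ * (G / 2)) ≤ θ * (j - G / 2) := by nlinarith
      nlinarith
    · have : θ * (j - G / 2) ≤ θ * (G / 2) := by nlinarith
      nlinarith
  -- pointwise Picone
  have pic : ∀ j ∈ range G, φ (j + 1) ^ 2 * (1 - w j / w (j + 1)) + φ j ^ 2 * (1 - w (j + 1) / w j)
      ≤ (φ (j + 1) - φ j) ^ 2 := by
    intro j hj
    have hj := Finset.mem_range.1 hj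
    have p1 := hwpos j (by omega)
    have p2 := hwpos (j + 1) (by omega)
    have : (φ (j + 1) - φ j) ^ 2
        - (φ (j + 1) ^ 2 * (1 - w j / w (j + 1)) + φ j ^ 2 * (1 - w (j + 1) / w j))
        = w j * w (j + 1) * (φ (j + 1) / w (j + 1) - φ j / w j) ^ 2 := by
      field_simp
      ring
    have h2 : 0 ≤ w j * w (j + 1) * (φ (j + 1) / w (j + 1) - φ j / w j) ^ 2 := by positivity
    linarith
  have hsum := Finset.sum_le_sum pic
  rw [Finset.sum_add_distrib] at hsum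
  -- shift the first sum
  set A : ℕ → ℝ := fun j => φ j ^ 2 * (1 - w (j - 1) / w j) with hA
  have sh : ∑ j ∈ range G, φ (j + 1) ^ 2 * (1 - w j / w (j + 1)) = ∑ j ∈ range G, A j := by
    have e1 := Finset.sum_range_succ A G
    have e2 := Finset.sum_range_succ' A G
    have z1 : A G = 0 := by simp [hA, hGz]
    have z2 : A 0 = 0 := by simp [hA, h0]
    rw [z1] at e1; rw [z2] at e2
    have e3 : ∑ j ∈ range G, A (j + 1) = ∑ j ∈ range G, φ (j + 1) ^ 2 * (1 - w j / w (j + 1)) := by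
      refine Finset.sum_congr rfl fun j _ => ?_
      simp [hA]
    linarith
  rw [sh, ← Finset.sum_add_distrib] at hsum
  refine le_trans ?_ hsum
  rw [Finset.mul_sum]
  refine Finset.sum_le_sum fun j hj => ?_
  have hj := Finset.mem_range.1 hj
  rcases Nat.eq_zero_or_pos j with hj0 | hj0
  · subst hj0; simp [hA, h0]
  · have p1 := hwpos j (by omega)
    have e : w (j - 1) + w (j + 1) = 2 * Real.cos θ * w j := by
      obtain ⟨i, rfl⟩ : ∃ i, j = i + 1 := ⟨j - 1, by omega⟩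
      simp only [hw, Nat.add_sub_cancel]
      push_cast
      have e1 : θ * ((i : ℝ) - G / 2) = θ * ((i : ℝ) + 1 - G / 2) - θ := by ring
      have e2 : θ * ((i : ℝ) + 1 + 1 - G / 2) = θ * ((i : ℝ) + 1 - G / 2) + θ := by ring
      rw [e1, e2, Real.cos_sub, Real.cos_add]; ring
    have e3 : A j + φ j ^ 2 * (1 - w (j + 1) / w j) = (2 - 2 * Real.cos θ) * φ j ^ 2 := by
      simp only [hA]
      have : φ j ^ 2 * (1 - w (j - 1) / w j) + φ j ^ 2 * (1 - w (j + 1) / w j)
          = φ j ^ 2 * (2 - (w (j - 1) + w (j + 1)) / w j) := by ring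
      rw [this, e]
      field_simp
    rw [e3]

/-- parabola bound from the left end of a gap -/
lemma parab {η : ℝ} (hη : 0 ≤ η) (φ : ℕ → ℝ) (G : ℕ) (h0 : φ 0 = 0) (h1 : φ 1 ≤ η)
    (h : ∀ j, 1 ≤ j → j < G → φ (j + 1) - φ j ≤ φ j - φ (j - 1) + η) :
    ∀ j ≤ G, φ j ≤ η * (j * (j + 1) / 2) ∧ (1 ≤ j → φ j - φ (j - 1) ≤ η * j) := by
  intro j
  induction j with
  | zero => intro _; exact ⟨by simp [h0], by omega⟩
  | succ j ih =>
    intro hj
    obtain ⟨i1, i2⟩ := ih (by omega)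
    rcases Nat.eq_zero_or_pos j with hj0 | hj0
    · subst hj0; simp; rw [h0]; constructor <;> linarith
    · have h2 := h j hj0 (by omega)
      have h3 := i2 hj0
      have h4 : φ (j + 1) - φ j ≤ η * (j + 1) := by linarith
      refine ⟨?_, fun _ => ?_⟩
      · push_cast; nlinarith
      · simpa using h4

lemma sum_tri (n : ℕ) : ∑ j ∈ range n, ((j : ℝ) * (j + 1) / 2) = (n - 1) * n * (n + 1) / 6 := by
  induction n with
  | zero => simp
  | succ n ih => rw [Finset.sum_range_succ, ih]; push_cast; ring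

/-- sum over a gap of a function bounded by the two parabolas -/
lemma gap_sum {η : ℝ} (hη : 0 ≤ η) (φ : ℕ → ℝ) (G : ℕ) (hG : 1 ≤ G)
    (hl : ∀ j ≤ G, φ j ≤ η * ((j : ℝ) * (j + 1) / 2))
    (hr : ∀ j ≤ G, φ j ≤ η * (((G - j : ℕ) : ℝ) * (((G - j : ℕ) : ℝ) + 1) / 2)) :
    ∑ j ∈ range G, φ j ≤ η * ((G : ℝ) ^ 3 / 24 + (G : ℝ) ^ 2 / 3) := by
  set h := G / 2 with hh
  have hle : h ≤ G := Nat.div_le_self _ _
  rcases Nat.lt_or_ge G 2 with h1 | hG2
  · have h1 : G = 1 := by omega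
    subst h1
    have := hl 0 (by omega)
    simp at this ⊢
    nlinarith
  have split : ∑ j ∈ range G, φ j = ∑ j ∈ range (h + 1), φ j + ∑ j ∈ Ico (h + 1) G, φ j := by
    rw [Finset.range_eq_Ico, Finset.range_eq_Ico, Finset.sum_Ico_consecutive _ (by omega) (by omega)]
  have s1 : ∑ j ∈ range (h + 1), φ j ≤ η * ((h : ℝ) * (h + 1) * (h + 2) / 6) := by
    calc ∑ j ∈ range (h + 1), φ j ≤ ∑ j ∈ range (h + 1), η * ((j : ℝ) * (j + 1) / 2) :=
          Finset.sum_le_sum fun j hj => hl j (by have := Finset.mem_range.1 hj; omega)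
      _ = η * ((h : ℝ) * (h + 1) * (h + 2) / 6) := by
          rw [← Finset.mul_sum, sum_tri]; push_cast; ring
  have s2 : ∑ j ∈ Ico (h + 1) G, φ j
      ≤ η * ((((G - h : ℕ) : ℝ) - 1) * ((G - h : ℕ) : ℝ) * (((G - h : ℕ) : ℝ) + 1) / 6) := by
    rw [← sum_tri, Finset.mul_sum]
    have : ∑ j ∈ Ico (h + 1) G, φ j ≤ ∑ j ∈ Ico (h + 1) G,
        η * (((G - j : ℕ) : ℝ) * (((G - j : ℕ) : ℝ) + 1) / 2) :=
      Finset.sum_le_sum fun j hj => hr j (by have := Finset.mem_Ico.1 hj; omega)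
    refine this.trans ?_
    have e : ∑ j ∈ Ico (h + 1) G, η * (((G - j : ℕ) : ℝ) * (((G - j : ℕ) : ℝ) + 1) / 2)
        = ∑ j ∈ Ico 1 (G - h), η * ((j : ℝ) * (j + 1) / 2) := by
      refine Finset.sum_bij' (fun j _ => G - j) (fun j _ => G - j) ?_ ?_ ?_ ?_ ?_
      · intro j hj; simp only [Finset.mem_Ico] at *; omega
      · intro j hj; simp only [Finset.mem_Ico] at *; omega
      · intro j hj; simp only [Finset.mem_Ico] at *; omega
      · intro j hj; simp only [Finset.mem_Ico] at *; omega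
      · intro j hj; rfl
    rw [e, Finset.range_eq_Ico]
    refine Finset.sum_le_sum_of_subset_of_nonneg ?_ ?_
    · intro j hj; simp only [Finset.mem_Ico] at *; omega
    · intro j _ _; positivity
  rw [split]
  have hcast : ((G - h : ℕ) : ℝ) = (G : ℝ) - h := by
    rw [Nat.cast_sub hle]
  rw [hcast] at s2
  have hb1 : (h : ℝ) ≤ G / 2 := by
    have : 2 * h ≤ G := by omega
    have : (2 * h : ℝ) ≤ G := by exact_mod_cast this
    linarith
  have hb2 : (G : ℝ) - h ≤ (G + 1) / 2 := by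
    have : G ≤ 2 * h + 1 := by omega
    have : (G : ℝ) ≤ 2 * h + 1 := by exact_mod_cast this
    linarith
  have hG1 : (2 : ℝ) ≤ G := by exact_mod_cast hG2
  have hh0 : (0 : ℝ) ≤ h := Nat.cast_nonneg h
  have t1 : (h : ℝ) * (h + 1) * (h + 2) ≤ (G / 2) * (G / 2 + 1) * (G / 2 + 2) := by gcongr
  have t2 : ((G : ℝ) - h - 1) * ((G : ℝ) - h) * ((G : ℝ) - h + 1)
      ≤ ((G + 1) / 2) ^ 3 := by
    set x : ℝ := (G : ℝ) - h with hx
    have hx0 : 0 ≤ x := by
      have : (h : ℝ) ≤ G := by exact_mod_cast hle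
      rw [hx]; linarith
    have : (x - 1) * x * (x + 1) ≤ x ^ 3 := by nlinarith
    exact this.trans (by gcongr)
  have t3 : ((h : ℝ) * (h + 1) * (h + 2) + ((G : ℝ) - h - 1) * ((G : ℝ) - h) * ((G : ℝ) - h + 1)) / 6
      ≤ (G : ℝ) ^ 3 / 24 + (G : ℝ) ^ 2 / 3 := by
    have : (G / 2 : ℝ) * (G / 2 + 1) * (G / 2 + 2) + ((G + 1) / 2) ^ 3
        ≤ 6 * ((G : ℝ) ^ 3 / 24 + (G : ℝ) ^ 2 / 3) := by
      nlinarith [mul_nonneg (by linarith : (0:ℝ) ≤ (G:ℝ) - 2) (by linarith : (0:ℝ) ≤ (G:ℝ) - 2)]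
    linarith
  have := mul_le_mul_of_nonneg_left t3 hη
  nlinarith

end Pool.Agent.H46.Cheb
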