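import Pool.Agent.H46.Cheb.Disc
import Pool.Agent.H46.Cheb.Seq
import Pool.Agent.H46.Cheb.Cyc

/-!
# The discrete inequality
-/

namespace Pool.Agent.H46.Cheb

open Finset

variable {N : ℕ} [NeZero N]

/-- discrete support functions `a` (of a polygon with few vertices) and `b` (of the intersection of
the discs) -/
structure Data (N : ℕ) [NeZero N] where
  c : ℝ
  r : ℝ
  M : ZMod N
  a : ZMod N → ℝ
  b : ZMod N → ℝ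
  D : Finset (ZMod N)
  hr : 0 < r
  hc0 : 0 < c
  hc : c < 1
  hM : M + M = 0
  La : ∀ k, 0 ≤ Lam c a k
  Lb : ∀ k, 0 ≤ Lam c b k
  Lb' : ∀ k, Lam c b k ≤ r * (2 - 2 * c)
  phi0 : ∀ k, 0 ≤ r - a k - b (k + M)
  compl : ∀ k, (r - a (k + M) - b k) * Lam c b k = 0
  psi0 : ∀ k, 0 ≤ a k - b k
  D0 : D.Nonempty
  Dc : D.card ≤ 8
  Da : ∀ k, k ∉ D → k + 1 ∉ D → Lam c a k = 0

namespace Data

variable (𝒟 : Data N)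

/-- `r (2 - 2c)` -/
noncomputable def eta : ℝ := 𝒟.r * (2 - 2 * 𝒟.c)
/-- the first defect -/
noncomputable def phi (k : ZMod N) : ℝ := 𝒟.r - 𝒟.a k - 𝒟.b (k + 𝒟.M)
/-- the second defect -/
noncomputable def psi (k : ZMod N) : ℝ := 𝒟.a k - 𝒟.b k
noncomputable def Sa : ℝ := ∑ k, 𝒟.a k
noncomputable def Sb : ℝ := ∑ k, 𝒟.b k
noncomputable def F : ℝ := ∑ k, (𝒟.phi (k + 1) - 𝒟.phi k) ^ 2

lemma eta_pos : 0 < 𝒟.eta := mul_pos 𝒟.hr (by linarith [𝒟.hc])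

lemma phi_nonneg (k : ZMod N) : 0 ≤ 𝒟.phi k := 𝒟.phi0 k

lemma psi_nonneg (k : ZMod N) : 0 ≤ 𝒟.psi k := 𝒟.psi0 k

lemma MM (k : ZMod N) : k + 𝒟.M + 𝒟.M = k := by rw [add_assoc, 𝒟.hM, add_zero]

lemma Lam_phi (k : ZMod N) :
    Lam 𝒟.c 𝒟.phi k = 𝒟.eta - Lam 𝒟.c 𝒟.a k - Lam 𝒟.c 𝒟.b (k + 𝒟.M) := by
  unfold Lam phi eta
  have h1 : k + 1 + 𝒟.M = k + 𝒟.M + 1 := by ring
  have h2 : k - 1 + 𝒟.M = k + 𝒟.M - 1 := by ring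
  rw [h1, h2]; ring

/-- second difference of `phi` -/
lemma d2phi (k : ZMod N) : 𝒟.phi (k + 1) - 𝒟.phi k - (𝒟.phi k - 𝒟.phi (k - 1))
    = 𝒟.eta - Lam 𝒟.c 𝒟.a k - Lam 𝒟.c 𝒟.b (k + 𝒟.M) - (2 - 2 * 𝒟.c) * 𝒟.phi k := by
  have := 𝒟.Lam_phi k
  unfold Lam at this ⊢
  linarith

lemma d2phi_le (k : ZMod N) : 𝒟.phi (k + 1) - 𝒟.phi k ≤ 𝒟.phi k - 𝒟.phi (k - 1) + 𝒟.eta := by
  have h1 := 𝒟.d2phi k
  have h2 := 𝒟.La k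
  have h3 := 𝒟.Lb (k + 𝒟.M)
  have h4 : 0 ≤ (2 - 2 * 𝒟.c) * 𝒟.phi k := mul_nonneg (by linarith [𝒟.hc]) (𝒟.phi_nonneg k)
  linarith

lemma d2psi (k : ZMod N) : 𝒟.psi (k + 1) - 𝒟.psi k - (𝒟.psi k - 𝒟.psi (k - 1))
    = Lam 𝒟.c 𝒟.a k - Lam 𝒟.c 𝒟.b k - (2 - 2 * 𝒟.c) * 𝒟.psi k := by
  unfold psi Lam; ring

lemma sum_Lam (c : ℝ) (f : ZMod N → ℝ) : ∑ k, Lam c f k = (2 - 2 * c) * ∑ k, f k := by
  have := E_const_left c 1 f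
  unfold E at this
  simpa using this

lemma sum_phi : ∑ k, 𝒟.phi k = 𝒟.r * N - 𝒟.Sa - 𝒟.Sb := by
  unfold phi Sa Sb
  rw [Finset.sum_sub_distrib, Finset.sum_sub_distrib, sum_shift]
  simp [mul_comm]

theorem ident : 2 * 𝒟.eta * 𝒟.Sa - 𝒟.r * 𝒟.eta * N
    = 𝒟.F - (2 - 2 * 𝒟.c) * ∑ k, 𝒟.phi k ^ 2
      + ∑ k, 𝒟.psi k * (Lam 𝒟.c 𝒟.a k + Lam 𝒟.c 𝒟.b k) := by
  have h := identity 𝒟.c 𝒟.r 𝒟.a 𝒟.b 𝒟.M 𝒟.hM 𝒟.compl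
  have h2 := energy 𝒟.c 𝒟.phi
  have h3 : E 𝒟.c (fun k => 𝒟.r - 𝒟.a k - 𝒟.b (k + 𝒟.M)) (fun k => 𝒟.r - 𝒟.a k - 𝒟.b (k + 𝒟.M))
      = E 𝒟.c 𝒟.phi 𝒟.phi := rfl
  rw [h3, h2] at h
  unfold eta Sa F psi
  linarith

/-! ### The energy -/

/-- contribution to the increments -/
noncomputable def hh (k : ZMod N) : ℝ :=
  𝒟.eta - Lam 𝒟.c 𝒟.b (k + 𝒟.M) - (2 - 2 * 𝒟.c) * 𝒟.phi k

lemma hh_le (k : ZMod N) : 𝒟.hh k ≤ 𝒟.eta := by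
  have h3 := 𝒟.Lb (k + 𝒟.M)
  have h4 : 0 ≤ (2 - 2 * 𝒟.c) * 𝒟.phi k := mul_nonneg (by linarith [𝒟.hc]) (𝒟.phi_nonneg k)
  unfold hh; linarith

lemma sum_hh : ∑ k, 𝒟.hh k = (2 - 2 * 𝒟.c) * 𝒟.Sa := by
  unfold hh
  rw [Finset.sum_sub_distrib, Finset.sum_sub_distrib, sum_shift (fun k => Lam 𝒟.c 𝒟.b k),
    sum_Lam, ← Finset.mul_sum, sum_phi]
  simp only [Finset.sum_const, Finset.card_univ, ZMod.card, nsmul_eq_mul]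
  unfold eta Sb
  ring

lemma not_mem_D {c : ZMod N} {j : ℕ} (h1 : 1 ≤ j) (h2 : j < gap 𝒟.D c) :
    c + (j : ZMod N) ∉ 𝒟.D := (gap_spec 𝒟.D0 c).2.2 j h1 h2

lemma La_zero {c : ZMod N} {j : ℕ} (h1 : 1 ≤ j) (h2 : j + 1 < gap 𝒟.D c) :
    Lam 𝒟.c 𝒟.a (c + (j : ZMod N)) = 0 := by
  apply 𝒟.Da
  · exact 𝒟.not_mem_D h1 (by omega)
  · have := 𝒟.not_mem_D (c := c) (j := j + 1) (by omega) h2
    push_cast at this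
    rwa [← add_assoc] at this

lemma run_energy (c : ZMod N) :
    (max (∑ j ∈ range (gap 𝒟.D c), 𝒟.hh (c + (j : ZMod N)) - 2 * 𝒟.eta) 0) ^ 3 / (12 * 𝒟.eta)
      ≤ ∑ j ∈ range (gap 𝒟.D c), (𝒟.phi (c + (j : ZMod N) + 1) - 𝒟.phi (c + (j : ZMod N))) ^ 2 := by
  obtain ⟨g1, _, _⟩ := gap_spec 𝒟.D0 c
  set G := gap 𝒟.D c with hG
  set n := G - 2 with hn
  set d : ℕ → ℝ := fun j => 𝒟.phi (c + (j : ZMod N) + 1) - 𝒟.phi (c + (j : ZMod N)) with hd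
  have step : ∀ j < n, d (j + 1) - d j = 𝒟.hh (c + ((j + 1 : ℕ) : ZMod N)) := by
    intro j hj
    have h1 := 𝒟.d2phi (c + ((j + 1 : ℕ) : ZMod N))
    have h2 := 𝒟.La_zero (c := c) (j := j + 1) (by omega) (by omega)
    have h3 : c + ((j + 1 : ℕ) : ZMod N) - 1 = c + (j : ZMod N) := by push_cast; ring
    rw [h2, h3] at h1
    simp only [hd]
    have h4 : c + (j : ZMod N) + 1 = c + ((j + 1 : ℕ) : ZMod N) := by push_cast; ring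
    rw [h4]
    unfold hh
    linarith
  have tel : d n - d 0 = ∑ j ∈ range n, 𝒟.hh (c + ((j + 1 : ℕ) : ZMod N)) := by
    rw [← Finset.sum_range_sub]
    exact Finset.sum_congr rfl fun j hj => step j (Finset.mem_range.1 hj)
  have lower : ∑ j ∈ range G, 𝒟.hh (c + (j : ZMod N)) - 2 * 𝒟.eta ≤ d n - d 0 := by
    rw [tel]
    rcases Nat.lt_or_ge G 2 with h | h
    · have h1 : G = 1 := by omega
      have h2 : n = 0 := by omega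
      rw [h1, h2]
      simp only [Finset.sum_range_one, Finset.range_zero, Finset.sum_empty]
      have := 𝒟.hh_le (c + ((0 : ℕ) : ZMod N))
      have := 𝒟.eta_pos
      linarith
    · have h2 : G = n + 1 + 1 := by omega
      rw [h2, Finset.sum_range_succ, Finset.sum_range_succ']
      have e1 := 𝒟.hh_le (c + ((0 : ℕ) : ZMod N))
      have e2 := 𝒟.hh_le (c + ((n + 1 : ℕ) : ZMod N))
      linarith
  have hcell := cell_energy 𝒟.eta_pos d n (fun j hj => by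
    rw [step j hj]; exact 𝒟.hh_le _)
  have h1 : (max (∑ j ∈ range G, 𝒟.hh (c + (j : ZMod N)) - 2 * 𝒟.eta) 0) ^ 3 / (12 * 𝒟.eta)
      ≤ (max (d n - d 0) 0) ^ 3 / (12 * 𝒟.eta) := by
    have := 𝒟.eta_pos
    have h0 : 0 ≤ max (∑ j ∈ range G, 𝒟.hh (c + (j : ZMod N)) - 2 * 𝒟.eta) 0 := le_max_right _ _
    gcongr
  refine (h1.trans hcell).trans ?_
  refine Finset.sum_le_sum_of_subset_of_nonneg ?_ (fun j _ _ => sq_nonneg _)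
  intro j hj
  rw [Finset.mem_range] at *
  omega

lemma power_mean {ι : Type*} {s : Finset ι} (hs : s.Nonempty) (hc : s.card ≤ 8) (x : ι → ℝ)
    (X : ℝ) (hX : X ≤ ∑ i ∈ s, x i) :
    (max X 0) ^ 3 / 64 ≤ ∑ i ∈ s, (max (x i) 0) ^ 3 := by
  have h1 := pow_sum_div_card_le_sum_pow (s := s) (f := fun i => max (x i) 0)
    (fun i _ => le_max_right _ _) 2
  have h2 : X ≤ ∑ i ∈ s, max (x i) 0 := hX.trans (Finset.sum_le_sum fun i _ => le_max_left _ _)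
  have h3 : 0 ≤ ∑ i ∈ s, max (x i) 0 := Finset.sum_nonneg fun i _ => le_max_right _ _
  have h4 : max X 0 ≤ ∑ i ∈ s, max (x i) 0 := max_le h2 h3
  have h5 : (0 : ℝ) < s.card := by exact_mod_cast hs.card_pos
  have h6 : (s.card : ℝ) ≤ 8 := by exact_mod_cast hc
  have h7 : (s.card : ℝ) ^ 2 ≤ 64 := by nlinarith
  calc (max X 0) ^ 3 / 64 ≤ (∑ i ∈ s, max (x i) 0) ^ 3 / 64 := by
        have : 0 ≤ max X 0 := le_max_right _ _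
        gcongr
    _ ≤ (∑ i ∈ s, max (x i) 0) ^ (2 + 1) / (s.card : ℝ) ^ 2 := by
        norm_num
        gcongr
    _ ≤ _ := h1

theorem F_ge : (max ((2 - 2 * 𝒟.c) * 𝒟.Sa - 16 * 𝒟.eta) 0) ^ 3 / (768 * 𝒟.eta) ≤ 𝒟.F := by
  have h1 : 𝒟.F = ∑ c ∈ 𝒟.D, ∑ j ∈ range (gap 𝒟.D c),
      (𝒟.phi (c + (j : ZMod N) + 1) - 𝒟.phi (c + (j : ZMod N))) ^ 2 := by
    unfold F
    rw [sum_gaps 𝒟.D0 (fun k => (𝒟.phi (k + 1) - 𝒟.phi k) ^ 2)]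
  have h2 : (2 - 2 * 𝒟.c) * 𝒟.Sa - 16 * 𝒟.eta
      ≤ ∑ c ∈ 𝒟.D, (∑ j ∈ range (gap 𝒟.D c), 𝒟.hh (c + (j : ZMod N)) - 2 * 𝒟.eta) := by
    rw [Finset.sum_sub_distrib, ← sum_gaps 𝒟.D0 𝒟.hh, sum_hh]
    simp only [Finset.sum_const, nsmul_eq_mul]
    have h3 : (𝒟.D.card : ℝ) ≤ 8 := by exact_mod_cast 𝒟.Dc
    have := 𝒟.eta_pos
    nlinarith
  have h3 := power_mean 𝒟.D0 𝒟.Dc _ _ h2
  have h4 : ∑ c ∈ 𝒟.D, (max (∑ j ∈ range (gap 𝒟.D c), 𝒟.hh (c + (j : ZMod N)) - 2 * 𝒟.eta) 0) ^ 3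
      / (12 * 𝒟.eta) ≤ 𝒟.F := by
    rw [h1]
    exact Finset.sum_le_sum fun c _ => 𝒟.run_energy c
  rw [← Finset.sum_div] at h4
  refine le_trans ?_ h4
  have := 𝒟.eta_pos
  have e : (max ((2 - 2 * 𝒟.c) * 𝒟.Sa - 16 * 𝒟.eta) 0) ^ 3 / (768 * 𝒟.eta)
      = ((max ((2 - 2 * 𝒟.c) * 𝒟.Sa - 16 * 𝒟.eta) 0) ^ 3 / 64) / (12 * 𝒟.eta) := by
    rw [div_div]; ring_nf
  rw [e]
  gcongr

/-! ### The second term -/

lemma run_psi (c : ZMod N) :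
    (max (∑ j ∈ range (gap 𝒟.D c), Lam 𝒟.c 𝒟.b (c + (j : ZMod N)) - 3 * 𝒟.eta) 0) ^ 3
        / (12 * 𝒟.eta)
      ≤ ∑ j ∈ range (gap 𝒟.D c), 𝒟.psi (c + (j : ZMod N)) * Lam 𝒟.c 𝒟.b (c + (j : ZMod N)) := by
  obtain ⟨g1, _, _⟩ := gap_spec 𝒟.D0 c
  set G := gap 𝒟.D c with hG
  set n := G - 1 with hn
  have hη := 𝒟.eta_pos
  have hcell := cell_concave hη n (fun j => 𝒟.psi (c + (j : ZMod N)))
    (fun j => Lam 𝒟.c 𝒟.b (c + (j : ZMod N))) (fun j _ => 𝒟.psi_nonneg _)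
    (fun j _ _ => ⟨𝒟.Lb _, 𝒟.Lb' _⟩)
    (fun j hj1 hj2 => by
      have h1 := 𝒟.d2psi (c + (j : ZMod N))
      have h2 := 𝒟.La_zero (c := c) (j := j) hj1 (by omega)
      have h3 : c + (j : ZMod N) - 1 = c + ((j - 1 : ℕ) : ZMod N) := by
        rw [Nat.cast_sub hj1]; push_cast; ring
      have h4 : c + (j : ZMod N) + 1 = c + ((j + 1 : ℕ) : ZMod N) := by push_cast; ring
      rw [h2, h3, h4] at h1
      have h5 : 0 ≤ (2 - 2 * 𝒟.c) * 𝒟.psi (c + (j : ZMod N)) :=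
        mul_nonneg (by linarith [𝒟.hc]) (𝒟.psi_nonneg _)
      linarith)
  have hmono : ∑ j ∈ range (n - 1), 𝒟.psi (c + ((j + 1 : ℕ) : ZMod N))
      * Lam 𝒟.c 𝒟.b (c + ((j + 1 : ℕ) : ZMod N))
      ≤ ∑ j ∈ range G, 𝒟.psi (c + (j : ZMod N)) * Lam 𝒟.c 𝒟.b (c + (j : ZMod N)) := by
    rcases Nat.lt_or_ge G 2 with h | h
    · have h2 : n - 1 = 0 := by omega
      rw [h2]
      simp only [Finset.range_zero, Finset.sum_empty]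
      exact Finset.sum_nonneg fun j _ => mul_nonneg (𝒟.psi_nonneg _) (𝒟.Lb _)
    · have h2 : G = (n - 1) + 1 + 1 := by omega
      rw [h2, Finset.sum_range_succ, Finset.sum_range_succ']
      have e1 : 0 ≤ 𝒟.psi (c + ((0 : ℕ) : ZMod N)) * Lam 𝒟.c 𝒟.b (c + ((0 : ℕ) : ZMod N)) :=
        mul_nonneg (𝒟.psi_nonneg _) (𝒟.Lb _)
      have e2 : 0 ≤ 𝒟.psi (c + ((n - 1 + 1 : ℕ) : ZMod N))
          * Lam 𝒟.c 𝒟.b (c + ((n - 1 + 1 : ℕ) : ZMod N)) := mul_nonneg (𝒟.psi_nonneg _) (𝒟.Lb _)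
      linarith
  have lower : ∑ j ∈ range G, Lam 𝒟.c 𝒟.b (c + (j : ZMod N)) - 3 * 𝒟.eta
      ≤ ∑ j ∈ range (n - 1), Lam 𝒟.c 𝒟.b (c + ((j + 1 : ℕ) : ZMod N)) - 𝒟.eta := by
    rcases Nat.lt_or_ge G 2 with h | h
    · have h1 : G = 1 := by omega
      have h2 : n - 1 = 0 := by omega
      rw [h1, h2]
      simp only [Finset.sum_range_one, Finset.range_zero, Finset.sum_empty]
      have : Lam 𝒟.c 𝒟.b (c + ((0 : ℕ) : ZMod N)) ≤ 𝒟.eta := 𝒟.Lb' _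
      linarith
    · have h2 : G = (n - 1) + 1 + 1 := by omega
      rw [h2, Finset.sum_range_succ, Finset.sum_range_succ']
      have e1 : Lam 𝒟.c 𝒟.b (c + ((0 : ℕ) : ZMod N)) ≤ 𝒟.eta := 𝒟.Lb' _
      have e2 : Lam 𝒟.c 𝒟.b (c + ((n - 1 + 1 : ℕ) : ZMod N)) ≤ 𝒟.eta := 𝒟.Lb' _
      linarith
  refine le_trans ?_ (hcell.trans hmono)
  have h0 : 0 ≤ max (∑ j ∈ range G, Lam 𝒟.c 𝒟.b (c + (j : ZMod N)) - 3 * 𝒟.eta) 0 :=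
    le_max_right _ _
  gcongr

theorem psi_ge : (max ((2 - 2 * 𝒟.c) * 𝒟.Sb - 24 * 𝒟.eta) 0) ^ 3 / (768 * 𝒟.eta)
    ≤ ∑ k, 𝒟.psi k * (Lam 𝒟.c 𝒟.a k + Lam 𝒟.c 𝒟.b k) := by
  have h0 : ∑ k, 𝒟.psi k * Lam 𝒟.c 𝒟.b k
      ≤ ∑ k, 𝒟.psi k * (Lam 𝒟.c 𝒟.a k + Lam 𝒟.c 𝒟.b k) :=
    Finset.sum_le_sum fun k _ => mul_le_mul_of_nonneg_left (by linarith [𝒟.La k]) (𝒟.psi_nonneg k)
  refine le_trans ?_ h0
  rw [sum_gaps 𝒟.D0 (fun k => 𝒟.psi k * Lam 𝒟.c 𝒟.b k)]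
  have h2 : (2 - 2 * 𝒟.c) * 𝒟.Sb - 24 * 𝒟.eta
      ≤ ∑ c ∈ 𝒟.D, (∑ j ∈ range (gap 𝒟.D c), Lam 𝒟.c 𝒟.b (c + (j : ZMod N)) - 3 * 𝒟.eta) := by
    rw [Finset.sum_sub_distrib, ← sum_gaps 𝒟.D0 (Lam 𝒟.c 𝒟.b), sum_Lam]
    simp only [Finset.sum_const, nsmul_eq_mul]
    have h3 : (𝒟.D.card : ℝ) ≤ 8 := by exact_mod_cast 𝒟.Dc
    have := 𝒟.eta_pos
    unfold Sb
    nlinarith
  have h3 := power_mean 𝒟.D0 𝒟.Dc _ _ h2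
  have h4 : ∑ c ∈ 𝒟.D,
      (max (∑ j ∈ range (gap 𝒟.D c), Lam 𝒟.c 𝒟.b (c + (j : ZMod N)) - 3 * 𝒟.eta) 0) ^ 3
      / (12 * 𝒟.eta) ≤ ∑ c ∈ 𝒟.D, ∑ j ∈ range (gap 𝒟.D c),
        𝒟.psi (c + (j : ZMod N)) * Lam 𝒟.c 𝒟.b (c + (j : ZMod N)) :=
    Finset.sum_le_sum fun c _ => 𝒟.run_psi c
  rw [← Finset.sum_div] at h4
  refine le_trans ?_ h4
  have := 𝒟.eta_pos
  have e : (max ((2 - 2 * 𝒟.c) * 𝒟.Sb - 24 * 𝒟.eta) 0) ^ 3 / (768 * 𝒟.eta)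
      = ((max ((2 - 2 * 𝒟.c) * 𝒟.Sb - 24 * 𝒟.eta) 0) ^ 3 / 64) / (12 * 𝒟.eta) := by
    rw [div_div]; ring_nf
  rw [e]
  gcongr

/-! ### Gaps of the contact set -/

open scoped Classical in
/-- contact set -/
noncomputable def Z : Finset (ZMod N) := Finset.univ.filter fun k => 𝒟.phi k = 0

lemma mem_Z {k : ZMod N} : k ∈ 𝒟.Z ↔ 𝒟.phi k = 0 := by
  classical
  simp [Z]

theorem poincare {θ : ℝ} (hZ : 𝒟.Z.Nonempty) (hθ : 0 ≤ θ)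
    (hG : ∀ c ∈ 𝒟.Z, (gap 𝒟.Z c : ℝ) * θ < Real.pi) :
    (2 - 2 * Real.cos θ) * ∑ k, 𝒟.phi k ^ 2 ≤ 𝒟.F := by
  unfold F
  rw [sum_gaps hZ (fun k => 𝒟.phi k ^ 2), sum_gaps hZ (fun k => (𝒟.phi (k + 1) - 𝒟.phi k) ^ 2),
    Finset.mul_sum]
  refine Finset.sum_le_sum fun c hc => ?_
  obtain ⟨_, g2, _⟩ := gap_spec hZ c
  have := gap_poincare (gap 𝒟.Z c) hθ (hG c hc) (fun j => 𝒟.phi (c + (j : ZMod N)))
    (by simpa using 𝒟.mem_Z.1 hc) (𝒟.mem_Z.1 g2)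
  refine this.trans (le_of_eq ?_)
  refine Finset.sum_congr rfl fun j _ => ?_
  have h4 : c + (j : ZMod N) + 1 = c + ((j + 1 : ℕ) : ZMod N) := by push_cast; ring
  rw [h4]

lemma gap_phi_sum {R : ℝ} (hZ : 𝒟.Z.Nonempty) {c : ZMod N} (hc : c ∈ 𝒟.Z)
    (hG : (gap 𝒟.Z c : ℝ) ≤ R) :
    ∑ j ∈ range (gap 𝒟.Z c), 𝒟.phi (c + (j : ZMod N))
      ≤ 𝒟.eta * (((gap 𝒟.Z c : ℝ) - 1) * R ^ 2 / 24 + (gap 𝒟.Z c : ℝ) * R / 2) := by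
  obtain ⟨g1, g2, _⟩ := gap_spec hZ c
  set G := gap 𝒟.Z c with hGdef
  have hη := 𝒟.eta_pos
  have z0 : 𝒟.phi c = 0 := 𝒟.mem_Z.1 hc
  have zG : 𝒟.phi (c + (G : ZMod N)) = 0 := 𝒟.mem_Z.1 g2
  have hl := parab hη.le (fun j => 𝒟.phi (c + (j : ZMod N))) G (by simpa using z0)
    (by
      have h1 := 𝒟.d2phi_le c
      have h2 := 𝒟.phi_nonneg (c - 1)
      rw [z0] at h1
      simp only [Nat.cast_one]
      linarith)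
    (fun j hj1 hj2 => by
      have h1 := 𝒟.d2phi_le (c + (j : ZMod N))
      have h3 : c + (j : ZMod N) - 1 = c + ((j - 1 : ℕ) : ZMod N) := by
        rw [Nat.cast_sub hj1]; push_cast; ring
      have h4 : c + (j : ZMod N) + 1 = c + ((j + 1 : ℕ) : ZMod N) := by push_cast; ring
      rw [h3, h4] at h1
      exact h1)
  have hr := parab hη.le (fun j => 𝒟.phi (c + ((G - j : ℕ) : ZMod N))) G (by simpa using zG)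
    (by
      have h1 := 𝒟.d2phi_le (c + (G : ZMod N))
      have h2 := 𝒟.phi_nonneg (c + (G : ZMod N) + 1)
      have h3 : c + (G : ZMod N) - 1 = c + ((G - 1 : ℕ) : ZMod N) := by
        rw [Nat.cast_sub g1]; push_cast; ring
      rw [zG, h3] at h1
      linarith)
    (fun j hj1 hj2 => by
      have h1 := 𝒟.d2phi_le (c + ((G - j : ℕ) : ZMod N))
      have h3 : c + ((G - j : ℕ) : ZMod N) - 1 = c + ((G - (j + 1) : ℕ) : ZMod N) := by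
        have : (G - j : ℕ) = (G - (j + 1)) + 1 := by omega
        rw [this]; push_cast; ring
      have h4 : c + ((G - j : ℕ) : ZMod N) + 1 = c + ((G - (j - 1) : ℕ) : ZMod N) := by
        have : (G - (j - 1) : ℕ) = (G - j) + 1 := by omega
        rw [this]; push_cast; ring
      rw [h3, h4] at h1
      linarith)
  have hs := gap_sum hη.le (fun j => 𝒟.phi (c + (j : ZMod N))) G g1
    (fun j hj => (hl j hj).1)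
    (fun j hj => by
      have := (hr (G - j) (by omega)).1
      have e : G - (G - j) = j := by omega
      simp only [e] at this
      exact this)
  refine hs.trans (mul_le_mul_of_nonneg_left ?_ hη.le)
  have hG1 : (1 : ℝ) ≤ G := by exact_mod_cast g1
  have e1 : (G : ℝ) ^ 2 ≤ R ^ 2 := by gcongr
  have e2 : (G : ℝ) ^ 2 ≤ G * R := by nlinarith
  have e3 : (G : ℝ) ^ 3 ≤ (G - 1) * R ^ 2 + G * R := by nlinarith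
  nlinarith

theorem phi_sum_le {R : ℝ} (hZ : 𝒟.Z.Nonempty) (hG : ∀ c ∈ 𝒟.Z, (gap 𝒟.Z c : ℝ) ≤ R) :
    ∑ k, 𝒟.phi k ≤ 𝒟.eta * ((N - 𝒟.Sb / 𝒟.r) * R ^ 2 / 24 + N * R / 2) := by
  have hη := 𝒟.eta_pos
  rw [sum_gaps hZ 𝒟.phi]
  have h1 : ∑ c ∈ 𝒟.Z, ∑ j ∈ range (gap 𝒟.Z c), 𝒟.phi (c + (j : ZMod N))
      ≤ ∑ c ∈ 𝒟.Z, 𝒟.eta * (((gap 𝒟.Z c : ℝ) - 1) * R ^ 2 / 24 + (gap 𝒟.Z c : ℝ) * R / 2) :=
    Finset.sum_le_sum fun c hc => 𝒟.gap_phi_sum hZ hc (hG c hc)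
  refine h1.trans ?_
  rw [← Finset.mul_sum, Finset.sum_add_distrib, ← Finset.sum_div, ← Finset.sum_mul,
    Finset.sum_sub_distrib, ← Finset.sum_div, ← Finset.sum_mul, sum_gap_length hZ]
  simp only [Finset.sum_const, nsmul_eq_mul, mul_one]
  refine mul_le_mul_of_nonneg_left ?_ hη.le
  -- number of contacts
  have hcount : 𝒟.Sb / 𝒟.r ≤ 𝒟.Z.card := by
    classical
    have h2 : (2 - 2 * 𝒟.c) * 𝒟.Sb ≤ 𝒟.Z.card * 𝒟.eta := by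
      unfold Sb
      rw [← sum_Lam]
      have h3 : ∑ k, Lam 𝒟.c 𝒟.b k = ∑ k, Lam 𝒟.c 𝒟.b (k + 𝒟.M) :=
        (sum_shift (Lam 𝒟.c 𝒟.b) 𝒟.M).symm
      rw [h3]
      have h4 : ∑ k, Lam 𝒟.c 𝒟.b (k + 𝒟.M) ≤ ∑ k, if k ∈ 𝒟.Z then 𝒟.eta else 0 := by
        refine Finset.sum_le_sum fun k _ => ?_
        split_ifs with hk
        · exact 𝒟.Lb' _
        · have h5 := 𝒟.compl (k + 𝒟.M)
          rw [𝒟.MM] at h5
          rcases mul_eq_zero.1 h5 with h6 | h6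
          · exact absurd (𝒟.mem_Z.2 h6) hk
          · rw [h6]
      refine h4.trans (le_of_eq ?_)
      rw [Finset.sum_ite_mem, Finset.univ_inter, Finset.sum_const, nsmul_eq_mul]
    rw [div_le_iff₀ 𝒟.hr]
    have h7 : 0 < 2 - 2 * 𝒟.c := by linarith [𝒟.hc]
    have h8 : (2 - 2 * 𝒟.c) * 𝒟.Sb ≤ (2 - 2 * 𝒟.c) * (𝒟.Z.card * 𝒟.r) := by
      unfold eta at h2; linarith
    exact le_of_mul_le_mul_left h8 h7
  have hR2 : 0 ≤ R ^ 2 := sq_nonneg R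
  have : ((N : ℝ) - 𝒟.Z.card) * R ^ 2 ≤ (N - 𝒟.Sb / 𝒟.r) * R ^ 2 :=
    mul_le_mul_of_nonneg_right (by linarith) hR2
  linarith

end Data

end Pool.Agent.H46.Cheb
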