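import Pool.Agent.H46.Cheb.Len
import Pool.Agent.H46.Cheb.Main

/-!
# Closed paths around at most eight points
-/

namespace Pool.Agent.H46.Cheb

open Finset Complex

lemma center_num {p q D m : ℝ} (hp0 : 0 ≤ p) (hq0 : 0 ≤ q) (hp : p ≤ D) (hq : q ≤ D)
    (htri : D ≤ p + q) (hsum : p + q + D ≤ 3.2) (hm : 4 * m ^ 2 + D ^ 2 = 2 * (p ^ 2 + q ^ 2)) :
    m ^ 2 ≤ 0.86 := by
  rcases le_or_gt D (16 / 15) with h | h
  · nlinarith
  · have h1 : 0 ≤ (D - p) * (D - q) := mul_nonneg (by linarith) (by linarith)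
    have h2 : p ^ 2 + q ^ 2 ≤ (p + q - D) ^ 2 + D ^ 2 := by nlinarith
    have h3 : (p + q - D) ^ 2 ≤ (3.2 - 2 * D) ^ 2 := by
      apply pow_le_pow_left₀ (by linarith); linarith
    have h4 : D ≤ 1.6 := by linarith
    nlinarith

lemma exists_center {n : ℕ} [NeZero n] (v : Fin n → ℂ) {L : ℝ} (hL : L ≤ 3.2)
    (htri : ∀ i j k, ‖v i - v j‖ + ‖v j - v k‖ + ‖v k - v i‖ ≤ L) :
    ∃ a b : Fin n, ∀ i, ‖v i - (v a + v b) / 2‖ ≤ 0.93 := by
  haveI : Nonempty (Fin n × Fin n) := ⟨(0, 0)⟩
  obtain ⟨⟨a, b⟩, hab⟩ := Finite.exists_max (fun q : Fin n × Fin n => ‖v q.1 - v q.2‖)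
  refine ⟨a, b, fun i => ?_⟩
  have h1 := hab (i, a)
  have h2 := hab (b, i)
  simp only at h1 h2
  have h3 := htri i a b
  have h4 : ‖v a - v b‖ ≤ ‖v i - v a‖ + ‖v b - v i‖ := by
    calc ‖v a - v b‖ = ‖-(v i - v a) + -(v b - v i)‖ := by congr 1; ring
      _ ≤ ‖-(v i - v a)‖ + ‖-(v b - v i)‖ := norm_add_le _ _
      _ = _ := by rw [norm_neg, norm_neg]
  have h5 := parallelogram_law_with_norm ℝ (v i - v a) (v i - v b)
  have e1 : v i - v a + (v i - v b) = 2 * (v i - (v a + v b) / 2) := by ring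
  have e2 : v i - v a - (v i - v b) = -(v a - v b) := by ring
  have e3 : ‖v i - v b‖ = ‖v b - v i‖ := norm_sub_rev _ _
  rw [e1, e2, e3, norm_neg, norm_mul] at h5
  have e4 : ‖(2 : ℂ)‖ = 2 := by simp
  rw [e4] at h5
  have h6 : ‖v i - (v a + v b) / 2‖ ^ 2 ≤ 0.86 :=
    center_num (norm_nonneg _) (norm_nonneg _) h1 h2 h4 (by linarith) (by nlinarith)
  have h7 : ‖v i - (v a + v b) / 2‖ ^ 2 ≤ 0.93 ^ 2 := by norm_num at h6 ⊢; linarith
  exact le_of_sq_le_sq h7 (by norm_num)

/-- the geometric data -/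
structure Geo (M : ℕ) [NeZero (2 * M)] where
  v : Fin 8 → ℂ
  p : ℕ
  e : Fin p → ℂ
  he : ∀ i j u, ip (v i - v j) u ≤ wid e u
  hC : ∀ x, (∀ i, ‖x - v i‖ < 1) → ∀ w, ∃ i, ip x w ≤ ip (v i) w
  hL : ∑ l, ‖e l‖ < 3.1739
  hε : ep (2 * M) ≤ 1 / 10000

namespace Geo

variable {M : ℕ} [NeZero (2 * M)] (g : Geo M)

lemma εpos : 0 < ep (2 * M) := ep_pos

lemma Mε : (M : ℝ) * ep (2 * M) = Real.pi := by
  have h0 : 0 < M := by
    have := NeZero.pos (2 * M)
    omega
  have : (0 : ℝ) < M := by exact_mod_cast h0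
  unfold ep; push_cast; field_simp

include g in
lemma hM3 : 3 ≤ M := by
  have h1 := Mε (M := M)
  have h2 := g.hε
  have h3 : (3 : ℝ) < M := by
    by_contra h
    push Not at h
    have : (M : ℝ) * ep (2 * M) ≤ 3 * (1 / 10000) := by
      have := εpos (M := M)
      nlinarith
    have := Real.pi_gt_three
    linarith
  have : 3 < M := by exact_mod_cast h3
  omega

/-- `cos ε` -/
noncomputable def c (_ : Geo M) : ℝ := Real.cos (ep (2 * M))

lemma c_ge : 1 - ep (2 * M) ^ 2 / 2 ≤ g.c := Real.one_sub_sq_div_two_le_cos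

lemma c_gt : 0.99999999 ≤ g.c := by
  have h1 := g.c_ge
  have h2 := g.hε
  have h3 := εpos (M := M)
  nlinarith

lemma c_lt_one : g.c < 1 := by
  unfold c
  rw [← Real.cos_zero]
  have h3 := εpos (M := M)
  apply Real.cos_lt_cos_of_nonneg_of_le_pi le_rfl _ h3
  have := g.hε
  linarith [Real.pi_gt_three]

lemma c_pos : 0 < g.c := by linarith [g.c_gt]

include g in
lemma sin_pos : 0 < Real.sin (ep (2 * M)) := by
  apply Real.sin_pos_of_pos_of_lt_pi (εpos (M := M))
  have := g.hε
  linarith [Real.pi_gt_three]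

lemma exists_idx (k : ZMod (2 * M)) : ∃ i, (∀ j, ip (g.v j) (dir k) ≤ ip (g.v i) (dir k)) ∧
    ∀ j < i, ip (g.v j) (dir k) < ip (g.v i) (dir k) := by
  classical
  obtain ⟨i₀, hi₀⟩ := Finite.exists_max (fun j => ip (g.v j) (dir k))
  set S : Finset (Fin 8) := Finset.univ.filter fun i => ∀ j, ip (g.v j) (dir k) ≤ ip (g.v i) (dir k)
    with hS
  have hne : S.Nonempty := ⟨i₀, by rw [hS, Finset.mem_filter]; exact ⟨Finset.mem_univ _, hi₀⟩⟩
  refine ⟨S.min' hne, ?_, ?_⟩
  · exact (Finset.mem_filter.1 (S.min'_mem hne)).2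
  · intro j hj
    have hm := Finset.mem_filter.1 (S.min'_mem hne)
    by_contra hcon
    push Not at hcon
    have hjS : j ∈ S := by
      rw [hS, Finset.mem_filter]
      exact ⟨Finset.mem_univ _, fun l => (hm.2 l).trans hcon⟩
    exact absurd (S.min'_le j hjS) (not_le.2 hj)

/-- least index of a vertex with the largest scalar product -/
noncomputable def idx (k : ZMod (2 * M)) : Fin 8 := (g.exists_idx k).choose

lemma idx_spec (k : ZMod (2 * M)) :
    (∀ j, ip (g.v j) (dir k) ≤ ip (g.v (g.idx k)) (dir k)) ∧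
    ∀ j < g.idx k, ip (g.v j) (dir k) < ip (g.v (g.idx k)) (dir k) :=
  (g.exists_idx k).choose_spec

/-- support function -/
noncomputable def a (k : ZMod (2 * M)) : ℝ := ip (g.v (g.idx k)) (dir k)

lemma le_a (i : Fin 8) (k : ZMod (2 * M)) : ip (g.v i) (dir k) ≤ g.a k := (g.idx_spec k).1 i

lemma La (k : ZMod (2 * M)) : 0 ≤ Lam g.c g.a k := by
  have h1 := Lam_lin (g.v (g.idx k)) k
  have h2 := g.le_a (g.idx k) (k + 1)
  have h3 := g.le_a (g.idx k) (k - 1)
  unfold Lam at h1 ⊢
  have h4 : g.a k = ip (g.v (g.idx k)) (dir k) := rfl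
  have h5 : g.c = Real.cos (ep (2 * M)) := rfl
  rw [h4, h5]
  simp only at h1
  linarith

/-- support function of the intersection of the discs (obstacle) -/
noncomputable def f (k : ZMod (2 * M)) : ℝ := g.c - g.a (k + (M : ZMod (2 * M)))

/-- discrete hull -/
noncomputable def b : ZMod (2 * M) → ℝ := hullFn g.c g.f

lemma Lf (k : ZMod (2 * M)) : Lam g.c g.f k ≤ g.c * (2 - 2 * g.c) := by
  have h := g.La (k + (M : ZMod (2 * M)))
  unfold Lam f at *
  have e1 : k + 1 + (M : ZMod (2 * M)) = k + (M : ZMod (2 * M)) + 1 := by ring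
  have e2 : k - 1 + (M : ZMod (2 * M)) = k + (M : ZMod (2 * M)) - 1 := by ring
  rw [e1, e2]
  linarith

lemma ip_abs_le (i j : Fin 8) (u : ℂ) : |ip (g.v i - g.v j) u| ≤ wid g.e u := by
  rw [abs_le]
  constructor
  · have := g.he j i u
    have e : ip (g.v j - g.v i) u = - ip (g.v i - g.v j) u := by rw [ip_sub, ip_sub]; ring
    linarith
  · exact g.he i j u

lemma tri (i j k : Fin 8) : ‖g.v i - g.v j‖ + ‖g.v j - g.v k‖ + ‖g.v k - g.v i‖
    ≤ ∑ l, ‖g.e l‖ :=
  triangle_le g.e _ _ _ (fun _ => g.ip_abs_le _ _ _) (fun _ => g.ip_abs_le _ _ _)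
    (fun _ => g.ip_abs_le _ _ _)

lemma exists_m : ∃ m : ℂ, ∀ i, ‖g.v i - m‖ ≤ 0.93 := by
  obtain ⟨a, b, h⟩ := exists_center g.v (L := ∑ l, ‖g.e l‖)
    (by have := g.hL; norm_num at this ⊢; linarith) g.tri
  exact ⟨_, h⟩

/-- a center -/
noncomputable def m : ℂ := g.exists_m.choose

lemma m_spec (i : Fin 8) : ‖g.v i - g.m‖ ≤ 0.93 := g.exists_m.choose_spec i

lemma ip_center (i : Fin 8) (k : ZMod (2 * M)) : |ip (g.v i - g.m) (dir k)| ≤ 0.93 := by
  have := abs_ip_le_norm (g.v i - g.m) (dir k)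
  rw [norm_dir, mul_one] at this
  exact this.trans (g.m_spec i)

lemma minor : (fun k : ZMod (2 * M) => ip g.m (dir k) + 0.05) ∈ Minor g.c g.f := by
  constructor
  · intro k
    unfold f a
    rw [dir_half, ip_neg_right]
    have h1 := g.ip_center (g.idx (k + (M : ZMod (2 * M)))) k
    rw [abs_le] at h1
    have h2 := g.c_gt
    rw [ip_sub] at h1
    norm_num at h1 h2 ⊢
    linarith
  · intro k
    have h1 := Lam_lin g.m k
    have h2 := g.c_lt_one
    unfold Lam at h1 ⊢
    have h5 : g.c = Real.cos (ep (2 * M)) := rfl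
    rw [← h5] at h1
    simp only at h1
    linarith

lemma b_mem : g.b ∈ Minor g.c g.f := hullFn_mem g.c_pos ⟨_, g.minor⟩

lemma b_ge (k : ZMod (2 * M)) : ip g.m (dir k) + 0.05 ≤ g.b k := le_hullFn g.minor k

lemma b_pair (k : ZMod (2 * M)) : 0.1 ≤ g.b k + g.b (k + (M : ZMod (2 * M))) := by
  have h1 := g.b_ge k
  have h2 := g.b_ge (k + (M : ZMod (2 * M)))
  rw [dir_half, ip_neg_right] at h2
  norm_num at h1 h2 ⊢
  linarith

lemma Lb' (k : ZMod (2 * M)) : Lam g.c g.b k ≤ g.c * (2 - 2 * g.c) :=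
  Lam_hullFn_le g.c_pos (by have := g.hM3; omega) ⟨_, g.minor⟩
    (mul_nonneg g.c_pos.le (by linarith [g.c_lt_one])) g.Lf k

lemma compl (k : ZMod (2 * M)) :
    (g.c - g.a (k + (M : ZMod (2 * M))) - g.b k) * Lam g.c g.b k = 0 := by
  rcases lt_or_eq_of_le (g.b_mem.1 k) with h | h
  · have := hullFn_compl g.c_pos (by have := g.hM3; omega) ⟨_, g.minor⟩ h
    unfold b at *
    rw [this, mul_zero]
  · have : g.c - g.a (k + (M : ZMod (2 * M))) - g.b k = 0 := by
      rw [h]; unfold f; ring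
    rw [this, zero_mul]

/-- points below `b` are near all vertices -/
lemma near {X : ℂ} (hX : ∀ k : ZMod (2 * M), ip X (dir k) ≤ g.b k) (i : Fin 8) :
    ‖X - g.v i‖ < 1 := by
  have h1 : ∀ k : ZMod (2 * M), ip (X - g.v i) (dir k) ≤ g.c := by
    intro k
    have h2 := hX k
    have h3 := g.b_mem.1 k
    have h4 := g.le_a i (k + (M : ZMod (2 * M)))
    rw [dir_half, ip_neg_right] at h4
    rw [ip_sub]
    unfold f at h3
    linarith
  have h5 := norm_mul_cos_le h1
  have h6 : g.c < Real.cos (ep (2 * M) / 2) := by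
    unfold c
    have h3 := εpos (M := M)
    apply Real.cos_lt_cos_of_nonneg_of_le_pi (by linarith)
    · have := g.hε
      linarith [Real.pi_gt_three]
    · linarith
  have h7 := g.c_pos
  by_contra hcon
  push Not at hcon
  nlinarith

lemma below {X : ℂ} (hX : ∀ k : ZMod (2 * M), ip X (dir k) ≤ g.b k) (w : ℂ) :
    ∃ i, ip X w ≤ ip (g.v i) w := g.hC X (g.near hX) w

/-- touching points of `b` -/
lemma pt_le (k l : ZMod (2 * M)) : ip (pt k (g.b k) (g.b (k + 1))) (dir l) ≤ g.b l := by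
  have h := sturm (fun j => g.b j - ip (pt k (g.b k) (g.b (k + 1))) (dir j)) (by
    intro j
    have h1 := g.b_mem.2 j
    have h2 := Lam_lin (pt k (g.b k) (g.b (k + 1))) j
    have h5 : g.c = Real.cos (ep (2 * M)) := rfl
    rw [h5] at h1
    unfold Lam at h1 h2 ⊢
    simp only at h2 ⊢
    linarith) k (by simp only [ip_pt, sub_self]) (by
    simp only [ip_pt_one _ _ _ g.sin_pos.ne', sub_self]) l
  linarith

lemma psi0 (k : ZMod (2 * M)) : g.b k ≤ g.a k := by
  obtain ⟨i, hi⟩ := g.below (g.pt_le k) (dir k)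
  rw [ip_pt] at hi
  exact hi.trans (g.le_a i k)

/-- starts of runs -/
noncomputable def D : Finset (ZMod (2 * M)) :=
  Finset.univ.filter fun k => g.idx k ≠ g.idx (k - 1)

lemma mem_D {k : ZMod (2 * M)} : k ∈ g.D ↔ g.idx k ≠ g.idx (k - 1) := by
  simp [D]

lemma a_pair (k : ZMod (2 * M)) : 0.1 ≤ g.a k + g.a (k + (M : ZMod (2 * M))) := by
  have h1 := g.b_pair k
  have h2 := g.psi0 k
  have h3 := g.psi0 (k + (M : ZMod (2 * M)))
  norm_num at h1 ⊢
  linarith

lemma idx_half (k : ZMod (2 * M)) : g.idx k ≠ g.idx (k + (M : ZMod (2 * M))) := by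
  intro h
  have h1 := g.a_pair k
  unfold a at h1
  rw [← h, dir_half, ip_neg_right] at h1
  norm_num at h1

lemma D0 : g.D.Nonempty := by
  by_contra hne
  rw [Finset.not_nonempty_iff_eq_empty] at hne
  have h1 : ∀ k, g.idx k = g.idx (k - 1) := by
    intro k
    by_contra h
    have := g.mem_D.2 h
    rw [hne] at this
    exact absurd this (Finset.notMem_empty _)
  have h2 : ∀ j : ℕ, g.idx (j : ZMod (2 * M)) = g.idx 0 := by
    intro j
    induction j with
    | zero => simp
    | succ j ih =>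
      rw [h1]
      push_cast
      rw [add_sub_cancel_right]
      exact ih
  apply g.idx_half 0
  rw [zero_add, h2 M]

/-- cone property -/
lemma between {k : ZMod (2 * M)} {i j : ℕ} (hi : 0 < i) (hij : i < j) (hj : j < M)
    (h : g.idx k = g.idx (k + (j : ZMod (2 * M)))) :
    g.idx (k + (i : ZMod (2 * M))) = g.idx k := by
  set ε := ep (2 * M) with hεdef
  have hε := εpos (M := M)
  have hMe := Mε (M := M)
  rw [← hεdef] at hε hMe
  have hjR : (j : ℝ) < M := by exact_mod_cast hj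
  have hiR : (0 : ℝ) < i := by exact_mod_cast hi
  have hijR : (i : ℝ) < j := by exact_mod_cast hij
  have hj0R : (0 : ℝ) < j := hiR.trans hijR
  have hsj : 0 < Real.sin (j * ε) := by
    apply Real.sin_pos_of_pos_of_lt_pi (by positivity)
    rw [← hMe]; gcongr
  have hsi : 0 < Real.sin (i * ε) := by
    apply Real.sin_pos_of_pos_of_lt_pi (by positivity)
    rw [← hMe]; gcongr; linarith
  have hsji : 0 < Real.sin ((j - i) * ε) := by
    apply Real.sin_pos_of_pos_of_lt_pi
    · exact mul_pos (by linarith) hε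
    · rw [← hMe]; gcongr; linarith
  -- decomposition of the direction
  have hdec : ∀ x : ℂ, Real.sin (j * ε) * ip x (dir (k + (i : ZMod (2 * M))))
      = Real.sin ((j - i) * ε) * ip x (dir k)
        + Real.sin (i * ε) * ip x (dir (k + (j : ZMod (2 * M)))) := by
    intro x
    rw [← ip_smul_right, ← ip_smul_right, ← ip_smul_right, ← ip_add_right]
    congr 1
    rw [dir_add_nat, dir_add_nat, ← hεdef]
    rw [Complex.exp_mul_I, Complex.exp_mul_I, ← Complex.ofReal_cos, ← Complex.ofReal_sin,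
      ← Complex.ofReal_cos, ← Complex.ofReal_sin]
    have e1 : (j - i) * ε = j * ε - i * ε := by ring
    rw [e1, Real.sin_sub]
    push_cast
    ring_nf
  have s0 := g.idx_spec k
  have sj := g.idx_spec (k + (j : ZMod (2 * M)))
  have si := g.idx_spec (k + (i : ZMod (2 * M)))
  rw [← h] at sj
  set m0 := g.idx k with hm0
  set m1 := g.idx (k + (i : ZMod (2 * M))) with hm1
  have hA := hdec (g.v m0)
  have hB := hdec (g.v m1)
  rcases lt_trichotomy m1 m0 with hlt | heq | hgt
  · exfalso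
    have h1 := s0.2 m1 hlt
    have h2 := sj.1 m1
    have h3 := si.1 m0
    nlinarith [mul_lt_mul_of_pos_left h1 hsji, mul_le_mul_of_nonneg_left h2 hsi.le,
      mul_le_mul_of_nonneg_left h3 hsj.le]
  · exact heq
  · exfalso
    have h1 := si.2 m0 hgt
    have h2 := sj.1 m1
    have h3 := s0.1 m1
    nlinarith [mul_lt_mul_of_pos_left h1 hsj, mul_le_mul_of_nonneg_left h2 hsi.le,
      mul_le_mul_of_nonneg_left h3 hsji.le]

lemma inj_aux {k : ZMod (2 * M)} {j : ℕ} (hj0 : 0 < j) (hj : j ≤ M)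
    (h : g.idx k = g.idx (k + (j : ZMod (2 * M)))) : k + (j : ZMod (2 * M)) ∉ g.D := by
  rw [g.mem_D, not_not]
  rcases lt_or_eq_of_le hj with hlt | heq
  · rcases Nat.lt_or_ge 1 j with h1 | h1
    · have := g.between (i := j - 1) (by omega) (by omega) hlt h
      rw [← h, ← this]
      congr 1
      rw [Nat.cast_sub h1.le]; push_cast; ring
    · have : j = 1 := by omega
      subst this
      rw [← h]
      congr 1
      push_cast; ring
  · subst heq
    exact absurd h (g.idx_half k)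

lemma Dc : g.D.card ≤ 8 := by
  classical
  have hinj : Set.InjOn g.idx g.D := by
    intro k hk l hl hkl
    by_contra hne
    set j := (l - k).val with hj
    have hjlt : j < 2 * M := ZMod.val_lt _
    have hl' : l = k + (j : ZMod (2 * M)) := by rw [hj]; simp
    have hj0 : 0 < j := by
      rcases Nat.eq_zero_or_pos j with h | h
      · rw [h] at hl'; exact absurd (by simpa using hl'.symm) hne
      · exact h
    rcases Nat.lt_or_ge M j with h | h
    · have hk' : k = l + ((2 * M - j : ℕ) : ZMod (2 * M)) := by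
        rw [hl', Nat.cast_sub hjlt.le, ZMod.natCast_self]; ring
      have := g.inj_aux (k := l) (j := 2 * M - j) (by omega) (by omega) (by rw [← hk']; exact hkl.symm)
      rw [← hk'] at this
      exact this hk
    · have := g.inj_aux (k := k) (j := j) hj0 h (by rw [← hl']; exact hkl)
      rw [← hl'] at this
      exact this hl
  calc g.D.card = (g.D.image g.idx).card := (Finset.card_image_of_injOn hinj).symm
    _ ≤ (Finset.univ : Finset (Fin 8)).card := Finset.card_le_card (Finset.subset_univ _)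
    _ = 8 := by simp

lemma Da (k : ZMod (2 * M)) (h1 : k ∉ g.D) (h2 : k + 1 ∉ g.D) : Lam g.c g.a k = 0 := by
  rw [g.mem_D, not_not] at h1 h2
  rw [add_sub_cancel_right] at h2
  have h3 := Lam_lin (g.v (g.idx k)) k
  unfold Lam a at *
  rw [← h1, h2]
  exact h3

/-- the associated discrete data -/
noncomputable def data : Data (2 * M) where
  c := g.c
  r := g.c
  M := (M : ZMod (2 * M))
  a := g.a
  b := g.b
  D := g.D
  hr := g.c_pos
  hc0 := g.c_pos
  hc := g.c_lt_one
  hM := half_half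
  La := g.La
  Lb := g.b_mem.2
  Lb' := g.Lb'
  phi0 := fun k => by
    have := g.b_mem.1 (k + (M : ZMod (2 * M)))
    unfold f at this
    rw [add_assoc, half_half, add_zero] at this
    linarith
  compl := g.compl
  psi0 := fun k => by linarith [g.psi0 k]
  D0 := g.D0
  Dc := g.Dc
  Da := g.Da

lemma Sb_pos : 0 < g.data.Sb := by
  have h : g.data.Sb + g.data.Sb = ∑ k : ZMod (2 * M), (g.b k + g.b (k + (M : ZMod (2 * M)))) := by
    rw [Finset.sum_add_distrib, sum_shift]
    rfl
  have h2 : 0 < ∑ k : ZMod (2 * M), (g.b k + g.b (k + (M : ZMod (2 * M)))) := by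
    apply Finset.sum_pos
    · intro k _
      have := g.b_pair k
      norm_num at this
      linarith
    · exact Finset.univ_nonempty
  linarith

lemma Z_nonempty : g.data.Z.Nonempty := by
  by_contra hne
  rw [Finset.not_nonempty_iff_eq_empty] at hne
  have h1 : ∀ k, Lam g.data.c g.data.b k = 0 := by
    intro k
    rcases mul_eq_zero.1 (g.data.compl k) with h | h
    · exfalso
      have : k + g.data.M ∈ g.data.Z := by
        rw [g.data.mem_Z]
        unfold Data.phi
        rw [g.data.MM]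
        exact h
      rw [hne] at this
      exact absurd this (Finset.notMem_empty _)
    · exact h
  have h2 := Data.sum_Lam g.data.c g.data.b
  simp only [h1, Finset.sum_const_zero] at h2
  have h3 := g.Sb_pos
  have h4 : 0 < (2 - 2 * g.data.c) := by
    have := g.data.hc
    linarith
  have : 0 < (2 - 2 * g.data.c) * g.data.Sb := mul_pos h4 h3
  unfold Data.Sb at this
  linarith

end Geo

end Pool.Agent.H46.Cheb
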