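import Mathlib

/-!
# The numerical contradiction
-/

namespace Pool.Agent.H46.Cheb

lemma cube_tangent {t t₀ : ℝ} (ht₀ : 0 < t₀) : 3 * t₀ ^ 2 * t - 2 * t₀ ^ 3 ≤ (max t 0) ^ 3 := by
  rcases le_or_gt 0 t with h | h
  · rw [max_eq_left h]
    have : t ^ 3 - (3 * t₀ ^ 2 * t - 2 * t₀ ^ 3) = (t - t₀) ^ 2 * (t + 2 * t₀) := by ring
    have : 0 ≤ (t - t₀) ^ 2 * (t + 2 * t₀) := by positivity
    linarith
  · rw [max_eq_right h.le]
    have : 3 * t₀ ^ 2 * t ≤ 0 := mul_nonpos_of_nonneg_of_nonpos (by positivity) h.le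
    have : 0 ≤ 2 * t₀ ^ 3 := by positivity
    norm_num
    linarith

/-- final contradiction: `x = ε Sa`, `y = ε Sb`, `P = 2 π r` -/
lemma final_num {x y P ε : ℝ} (hε : 0 < ε) (hε' : ε ≤ 1 / 10000) (hx : x ≤ 3.173901)
    (hP : 6.283184 ≤ P)
    (h2 : (P - y) * 0.93385 ≤ x + 3.97 * ε)
    (h1 : 0.99999999 / 768 * (0.839 * (max (x - 16 * ε) 0) ^ 3 + (max (y - 24 * ε) 0) ^ 3)
      ≤ 2 * x - P) (hP' : P ≤ 6.283186) : False := by
  have t1 := cube_tangent (t := x - 16 * ε) (t₀ := 3.17) (by norm_num)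
  have t2 := cube_tangent (t := y - 24 * ε) (t₀ := 2.885) (by norm_num)
  norm_num at t1 t2 h1 h2 hx hP hP' ⊢
  linarith

end Pool.Agent.H46.Cheb
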