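import Pool.Agent.H46.Cheb.Core
import Pool.Agent.H46.Cheb.Num

/-!
# Closed paths around at most eight points, continued
-/

namespace Pool.Agent.H46.Cheb

open Finset Complex

lemma norm_sub_smul {y u : ℂ} {r : ℝ} (hu : ‖u‖ = 1) (hy : ‖y‖ ≤ 1) (h : ip y u = r) {s : ℝ}
    (hs : 0 ≤ s) (hrs : r ^ 2 + s ^ 2 = 1) : ‖y - r * u‖ ≤ s := by
  have h1 : ‖y - r * u‖ ^ 2 = ‖y‖ ^ 2 - 2 * r * ip y u + r ^ 2 * ‖u‖ ^ 2 := by
    rw [← Complex.normSq_eq_norm_sq, ← Complex.normSq_eq_norm_sq, ← Complex.normSq_eq_norm_sq,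
      Complex.normSq_apply, Complex.normSq_apply, Complex.normSq_apply, ip]
    simp only [Complex.sub_re, Complex.mul_re, Complex.ofReal_re, Complex.ofReal_im, zero_mul,
      sub_zero, Complex.sub_im, Complex.mul_im, add_zero]
    ring
  rw [hu, h] at h1
  have h2 : ‖y‖ ^ 2 ≤ 1 := by
    have := norm_nonneg y
    nlinarith
  have h3 : ‖y - r * u‖ ^ 2 ≤ s ^ 2 := by nlinarith
  exact le_of_sq_le_sq h3 hs

lemma norm_one_sub_exp (x : ℝ) : ‖(1 : ℂ) - exp (x * I)‖ = 2 * |Real.sin (x / 2)| := by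
  have h := Complex.norm_exp_I_mul_ofReal_sub_one x
  rw [norm_sub_rev, mul_comm (x : ℂ) I, h, Real.norm_eq_abs, abs_mul]
  norm_num

namespace Geo

variable {M : ℕ} [NeZero (2 * M)] (g : Geo M)

lemma sin_le : Real.sin (ep (2 * M)) ≤ ep (2 * M) := Real.sin_le (εpos (M := M)).le

/-- touching point description on a gap -/
lemma gap_lin (c : ZMod (2 * M)) :
    ∀ j ≤ gap g.data.Z c, g.b (c + (M : ZMod (2 * M)) + (j : ZMod (2 * M)))
      = ip (pt (c + (M : ZMod (2 * M))) (g.b (c + (M : ZMod (2 * M))))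
          (g.b (c + (M : ZMod (2 * M)) + 1))) (dir (c + (M : ZMod (2 * M)) + (j : ZMod (2 * M)))) := by
  obtain ⟨g1, g2, g3⟩ := gap_spec g.Z_nonempty c
  set G := gap g.data.Z c with hG
  set k := c + (M : ZMod (2 * M)) with hk
  set X := pt k (g.b k) (g.b (k + 1)) with hX
  have key : ∀ j : ℕ, j ≤ G → g.b (k + (j : ZMod (2 * M))) = ip X (dir (k + (j : ZMod (2 * M)))) ∧
      (j + 1 ≤ G → g.b (k + ((j + 1 : ℕ) : ZMod (2 * M)))
        = ip X (dir (k + ((j + 1 : ℕ) : ZMod (2 * M))))) := by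
    intro j
    induction j with
    | zero =>
      intro _
      refine ⟨?_, fun _ => ?_⟩
      · simp only [Nat.cast_zero, add_zero]
        rw [hX, ip_pt]
      · simp only [zero_add, Nat.cast_one]
        rw [hX, ip_pt_one _ _ _ g.sin_pos.ne']
    | succ j ih =>
      intro hj
      obtain ⟨i1, i2⟩ := ih (by omega)
      have i3 := i2 hj
      refine ⟨i3, fun hj2 => ?_⟩
      have h1 : Lam g.c g.b (k + ((j + 1 : ℕ) : ZMod (2 * M))) = 0 := by
        have h2 := g3 (j + 1) (by omega) (by omega)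
        rw [g.data.mem_Z] at h2
        have h3 := g.data.compl (k + ((j + 1 : ℕ) : ZMod (2 * M)))
        rcases mul_eq_zero.1 h3 with h4 | h4
        · exfalso
          apply h2
          unfold Data.phi
          have e1 : c + ((j + 1 : ℕ) : ZMod (2 * M))
              = k + ((j + 1 : ℕ) : ZMod (2 * M)) + g.data.M := by
            have : g.data.M = (M : ZMod (2 * M)) := rfl
            rw [this, hk]
            have h5 := half_half (M := M)
            linear_combination (-1 : ZMod (2 * M)) * h5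
          rw [e1, g.data.MM]
          exact h4
        · exact h4
      have h2 := Lam_lin X (k + ((j + 1 : ℕ) : ZMod (2 * M)))
      have h5 : g.c = Real.cos (ep (2 * M)) := rfl
      rw [h5] at h1
      unfold Lam at h1 h2
      have e1 : k + ((j + 1 : ℕ) : ZMod (2 * M)) + 1 = k + ((j + 1 + 1 : ℕ) : ZMod (2 * M)) := by
        push_cast; ring
      have e2 : k + ((j + 1 : ℕ) : ZMod (2 * M)) - 1 = k + (j : ZMod (2 * M)) := by
        push_cast; ring
      rw [e1, e2] at h1 h2
      rw [i1, i3] at h1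
      simp only at h2
      linarith
  exact fun j hj => (key j hj).1

lemma ip_uv_below {X : ℂ} (hX : ∀ k : ZMod (2 * M), ip X (dir k) ≤ g.b k) (i : Fin 8) (t : ℝ) :
    |ip (X - g.v i) (uv t)| ≤ wid g.e (uv t) := by
  rw [abs_le]
  constructor
  · obtain ⟨j, hj⟩ := g.below hX (-uv t)
    rw [ip_neg_right, ip_neg_right] at hj
    have := g.he i j (uv t)
    rw [ip_sub] at this ⊢
    linarith
  · obtain ⟨j, hj⟩ := g.below hX (uv t)
    have := g.he j i (uv t)
    rw [ip_sub] at this ⊢
    linarith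

lemma gap_bound {c : ZMod (2 * M)} (hc : c ∈ g.data.Z) :
    (gap g.data.Z c : ℝ) * ep (2 * M) < 1.26 := by
  have hlin := g.gap_lin c
  obtain ⟨g1, g2, g3⟩ := gap_spec g.Z_nonempty c
  set G := gap g.data.Z c with hG
  set k := c + (M : ZMod (2 * M)) with hk
  set X := pt k (g.b k) (g.b (k + 1)) with hX
  have hXle : ∀ l : ZMod (2 * M), ip X (dir l) ≤ g.b l := g.pt_le k
  have hb0 : g.b k = ip X (dir k) := by rw [hX, ip_pt]
  -- the gap is less than half a turn
  have hGM : G < M := by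
    by_contra hcon
    push Not at hcon
    have h1 := hlin M hcon
    rw [dir_half, ip_neg_right, ← hb0] at h1
    have h2 := g.b_pair k
    rw [h1] at h2
    norm_num at h2
  set ε := ep (2 * M) with hεdef
  have hε := εpos (M := M)
  have hε' := g.hε
  have hMe := Mε (M := M)
  rw [← hεdef] at hε hε' hMe
  -- the two vertices
  have hMM : k + (M : ZMod (2 * M)) = c := by
    rw [hk, add_assoc, half_half, add_zero]
  have hz1 : ip (g.v (g.idx c) - X) (dir c) = g.c := by
    have h1 := g.data.mem_Z.1 hc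
    have h2 : g.c - g.a c - g.b k = 0 := h1
    have h3 : ip X (dir c) = - ip X (dir k) := by
      rw [← hMM, dir_half, ip_neg_right]
    have h4 : g.a c = ip (g.v (g.idx c)) (dir c) := rfl
    rw [ip_sub, h3]
    linarith
  have hz2 : ip (g.v (g.idx (c + (G : ZMod (2 * M)))) - X) (dir (c + (G : ZMod (2 * M)))) = g.c := by
    have h1 := g.data.mem_Z.1 g2
    have h2 : g.c - g.a (c + (G : ZMod (2 * M))) - g.b (c + (G : ZMod (2 * M)) + (M : ZMod (2 * M)))
      = 0 := h1
    have e1 : c + (G : ZMod (2 * M)) + (M : ZMod (2 * M)) = k + (G : ZMod (2 * M)) := by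
      rw [hk]; ring
    have e2 : c + (G : ZMod (2 * M)) = k + (G : ZMod (2 * M)) + (M : ZMod (2 * M)) := by
      rw [← hMM]; ring
    rw [e1, hlin G le_rfl] at h2
    have h3 : ip X (dir (c + (G : ZMod (2 * M)))) = - ip X (dir (k + (G : ZMod (2 * M)))) := by
      rw [e2, dir_half, ip_neg_right]
    have h4 : g.a (c + (G : ZMod (2 * M)))
      = ip (g.v (g.idx (c + (G : ZMod (2 * M))))) (dir (c + (G : ZMod (2 * M)))) := rfl
    rw [ip_sub, h3]
    linarith
  set i := g.idx c with hi
  set i' := g.idx (c + (G : ZMod (2 * M))) with hi'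
  have hn1 : ‖g.v i - X‖ < 1 := by rw [norm_sub_rev]; exact g.near hXle i
  have hn2 : ‖g.v i' - X‖ < 1 := by rw [norm_sub_rev]; exact g.near hXle i'
  have hr : g.c ^ 2 + Real.sin ε ^ 2 = 1 := Real.cos_sq_add_sin_sq ε
  have hs0 := g.sin_pos
  rw [← hεdef] at hs0
  have hd1 := norm_sub_smul (norm_dir c) hn1.le hz1 hs0.le hr
  have hd2 := norm_sub_smul (norm_dir (c + (G : ZMod (2 * M)))) hn2.le hz2 hs0.le hr
  have hlow1 : g.c ≤ ‖g.v i - X‖ := by
    have := ip_le_norm (g.v i - X) (dir c)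
    rw [norm_dir, mul_one, hz1] at this; exact this
  have hlow2 : g.c ≤ ‖g.v i' - X‖ := by
    have := ip_le_norm (g.v i' - X) (dir (c + (G : ZMod (2 * M))))
    rw [norm_dir, mul_one, hz2] at this; exact this
  have hchord : ‖dir c - dir (c + (G : ZMod (2 * M)))‖ = 2 * |Real.sin (G * ε / 2)| := by
    rw [dir_add_nat]
    have : dir c - dir c * exp ((G * ep (2 * M) : ℝ) * I)
        = dir c * (1 - exp ((G * ep (2 * M) : ℝ) * I)) := by ring
    rw [this, norm_mul, norm_dir, one_mul, norm_one_sub_exp]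
  have hdist : 2 * g.c * |Real.sin (G * ε / 2)| - 2 * Real.sin ε ≤ ‖g.v i - g.v i'‖ := by
    have h1 : (g.c : ℂ) * (dir c - dir (c + (G : ZMod (2 * M))))
        = -(g.v i - X - g.c * dir c) + (g.v i - g.v i')
          + (g.v i' - X - g.c * dir (c + (G : ZMod (2 * M)))) := by ring
    have h2 : ‖(g.c : ℂ) * (dir c - dir (c + (G : ZMod (2 * M))))‖
        = 2 * g.c * |Real.sin (G * ε / 2)| := by
      rw [norm_mul, hchord, Complex.norm_real, Real.norm_eq_abs, abs_of_pos g.c_pos]; ring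
    rw [h1] at h2
    have h3 := norm_add_le (-(g.v i - X - g.c * dir c) + (g.v i - g.v i'))
      (g.v i' - X - g.c * dir (c + (G : ZMod (2 * M))))
    have h4 := norm_add_le (-(g.v i - X - g.c * dir c)) (g.v i - g.v i')
    rw [norm_neg] at h4
    linarith
  have htri := triangle_le g.e X (g.v i) (g.v i') (g.ip_uv_below hXle i)
    (fun _ => g.ip_abs_le _ _ _) (fun t => by
      have := g.ip_uv_below hXle i' t
      have e1 : ip (g.v i' - X) (uv t) = - ip (X - g.v i') (uv t) := by
        rw [ip_sub, ip_sub]; ring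
      rw [e1, abs_neg]; exact this)
  have hL := g.hL
  rw [norm_sub_rev X] at htri
  by_contra hcon
  push Not at hcon
  -- the sine is large
  have hG1 : (G : ℝ) * ε < Real.pi := by
    rw [← hMe]
    have : (G : ℝ) < M := by exact_mod_cast hGM
    gcongr
  have hsin : 0.588 ≤ Real.sin (G * ε / 2) := by
    have h1 : Real.sin 0.63 ≤ Real.sin (G * ε / 2) := by
      apply Real.sin_le_sin_of_le_of_le_pi_div_two
      · linarith [Real.pi_gt_three]
      · linarith
      · norm_num at hcon ⊢; linarith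
    have h2 := Real.sin_gt_sub_cube (x := 0.63) (by norm_num)
    norm_num at h1 h2 ⊢
    linarith
  have habs : 0.588 ≤ |Real.sin (G * ε / 2)| := hsin.trans (le_abs_self _)
  have h9 := g.c_gt
  have h10 : Real.sin ε ≤ ε := Real.sin_le hε.le
  have h11 : (0.99999999 : ℝ) * 0.588 ≤ g.c * |Real.sin (G * ε / 2)| :=
    mul_le_mul h9 habs (by norm_num) g.c_pos.le
  norm_num at h9 h11 hL hε' htri
  linarith

end Geo

end Pool.Agent.H46.Cheb
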