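import Pool.Agent.H46.Cheb.Core2

/-!
# Closed paths around at most eight points: the bound
-/

namespace Pool.Agent.H46.Cheb

open Finset Complex

namespace Geo

variable {M : ℕ} [NeZero (2 * M)] (g : Geo M)

lemma Sa_le : g.data.Sa * (2 * Real.sin (ep (2 * M) / 2)) ≤ ∑ l, ‖g.e l‖ := by
  have hs : 0 < Real.sin (ep (2 * M) / 2) := by
    apply Real.sin_pos_of_pos_of_lt_pi
    · have := εpos (M := M); linarith
    · have := g.hε
      linarith [Real.pi_gt_three]
  have h1 : g.data.Sa + g.data.Sa = ∑ k : ZMod (2 * M), (g.a k + g.a (k + (M : ZMod (2 * M)))) := by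
    rw [Finset.sum_add_distrib, sum_shift]
    rfl
  have h2 : ∀ k : ZMod (2 * M), g.a k + g.a (k + (M : ZMod (2 * M))) ≤ wid g.e (dir k) := by
    intro k
    have h3 := g.he (g.idx k) (g.idx (k + (M : ZMod (2 * M)))) (dir k)
    unfold a
    rw [dir_half, ip_neg_right]
    rw [ip_sub] at h3
    linarith
  have h3 : g.data.Sa + g.data.Sa ≤ ∑ k : ZMod (2 * M), wid g.e (dir k) := by
    rw [h1]; exact Finset.sum_le_sum fun k _ => h2 k
  have h4 : ∑ k : ZMod (2 * M), wid g.e (dir k)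
      = (∑ l, ∑ k : ZMod (2 * M), |ip (g.e l) (dir k)|) / 2 := by
    unfold wid
    rw [← Finset.sum_div, Finset.sum_comm]
  have h5 : (∑ l, ∑ k : ZMod (2 * M), |ip (g.e l) (dir k)|) * (2 * Real.sin (ep (2 * M) / 2))
      ≤ 4 * ∑ l, ‖g.e l‖ := by
    rw [Finset.sum_mul, Finset.mul_sum]
    exact Finset.sum_le_sum fun l _ => sum_abs_ip_dir (g.e l)
  rw [h4] at h3
  have h6 : 0 < 2 * Real.sin (ep (2 * M) / 2) := by linarith
  nlinarith [mul_le_mul_of_nonneg_right h3 h6.le]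

theorem false (g : Geo M) : False := by
  set ε := ep (2 * M) with hεdef
  have hε : 0 < ε := εpos (M := M)
  have hε' : ε ≤ 1 / 10000 := g.hε
  have hMe : (M : ℝ) * ε = Real.pi := Mε (M := M)
  have hNe : ((2 * M : ℕ) : ℝ) * ε = 2 * Real.pi := by push_cast; linarith
  set r := g.c with hr
  have hr0 : 0 < r := g.c_pos
  have hr1 : r < 1 := g.c_lt_one
  have hr2 : 0.99999999 ≤ r := g.c_gt
  have hrcos : r = Real.cos ε := rfl
  set κ := 2 - 2 * r with hκ
  have hκ0 : 0 < κ := by rw [hκ]; linarith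
  have hκ1 : κ ≤ ε ^ 2 := by
    have := g.c_ge
    rw [← hr, ← hεdef] at this
    rw [hκ]; linarith
  have hε2 : ε ^ 2 ≤ 1 / 100000000 := by
    have : ε ^ 2 ≤ (1 / 10000) ^ 2 := pow_le_pow_left₀ hε.le hε' 2
    norm_num at this ⊢; exact this
  have hκ2 : 0.99999999 * ε ^ 2 ≤ κ := by
    have h1 := Real.cos_bound (x := ε) (by rw [abs_of_pos hε]; linarith)
    rw [abs_of_pos hε, ← hrcos, abs_le] at h1
    have h2 : ε ^ 4 = ε ^ 2 * ε ^ 2 := by ring
    have h3 : ε ^ 2 * ε ^ 2 ≤ ε ^ 2 * (1 / 100000000) :=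
      mul_le_mul_of_nonneg_left hε2 (sq_nonneg _)
    have h4 := h1.2
    rw [h2] at h4
    norm_num at h3 h4 ⊢
    rw [hκ]
    have := sq_nonneg ε
    linarith
  have hη : g.data.eta = r * κ := rfl
  have hηpos : 0 < g.data.eta := g.data.eta_pos
  have hcd : g.data.c = r := rfl
  have hrd : g.data.r = r := rfl
  have hZ := g.Z_nonempty
  set x := ε * g.data.Sa with hx
  set y := ε * g.data.Sb with hy
  set P := r * ((2 * M : ℕ) : ℝ) * ε with hP
  have hP' : P = r * (2 * Real.pi) := by rw [hP, mul_assoc, hNe]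
  have hP1 : 6.283184 ≤ P := by
    rw [hP']
    have h1 := Real.pi_gt_d6
    have h2 : (0.99999999 : ℝ) * (2 * 3.141592) ≤ r * (2 * Real.pi) :=
      mul_le_mul hr2 (by linarith) (by norm_num) hr0.le
    have h3 : (3.14159265 : ℝ) < Real.pi := by
      have := Real.pi_gt_d20
      norm_num at this ⊢; linarith
    have h4 : (0.99999999 : ℝ) * (2 * 3.14159265) ≤ r * (2 * Real.pi) :=
      mul_le_mul hr2 (by linarith) (by norm_num) hr0.le
    refine le_trans ?_ h4
    norm_num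
  have hP2 : P ≤ 6.283186 := by
    rw [hP']
    have h1 : Real.pi < 3.141593 := Real.pi_lt_d6
    have h2 : r * (2 * Real.pi) ≤ 1 * (2 * 3.141593) :=
      mul_le_mul hr1.le (by linarith) (by positivity) (by norm_num)
    refine h2.trans ?_
    norm_num
  -- `Sa ≥ Sb > 0`
  have hSb := g.Sb_pos
  have hSab : g.data.Sb ≤ g.data.Sa := Finset.sum_le_sum fun k _ => g.psi0 k
  have hx0 : 0 < x := mul_pos hε (lt_of_lt_of_le hSb hSab)
  -- bound for `x`
  have hx1 : x ≤ 3.173901 := by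
    have h1 := g.Sa_le
    have h2 := g.hL
    have h3 := Real.sin_gt_sub_cube (x := ε / 2) (by linarith)
    rw [← hεdef] at h1
    have h4 : ε * 0.99999999 ≤ 2 * Real.sin (ε / 2) := by
      have h5 : (ε / 2) ^ 3 / 6 = ε * (ε ^ 2 / 48) := by ring
      have h6 : ε * (ε ^ 2 / 48) ≤ ε * (1 / 4800000000) := by
        apply mul_le_mul_of_nonneg_left _ hε.le
        linarith
      rw [h5] at h3
      norm_num at h6 h3 ⊢
      linarith
    have h7 : g.data.Sa * (ε * 0.99999999) ≤ g.data.Sa * (2 * Real.sin (ε / 2)) :=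
      mul_le_mul_of_nonneg_left h4 (by linarith)
    have h8 : g.data.Sa * (ε * 0.99999999) = x * 0.99999999 := by rw [hx]; ring
    rw [h8] at h7
    norm_num at h7 h2 ⊢
    linarith
  -- the sum of phi
  have hsum := g.data.sum_phi
  have hphi0 : 0 ≤ ∑ k, g.data.phi k := Finset.sum_nonneg fun k _ => g.data.phi_nonneg k
  have hPy : 0 ≤ P - y := by
    have h1 : 0 ≤ ε * (r * ((2 * M : ℕ) : ℝ) - g.data.Sa - g.data.Sb) := by
      apply mul_nonneg hε.le
      rw [← hrd, ← hsum]; exact hphi0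
    have h2 : ε * (r * ((2 * M : ℕ) : ℝ) - g.data.Sa - g.data.Sb) = P - x - y := by
      rw [hP, hx, hy]; ring
    rw [h2] at h1
    linarith
  have hgapR : ∀ c ∈ g.data.Z, (gap g.data.Z c : ℝ) ≤ 1.26 / ε := by
    intro c hc
    rw [le_div_iff₀ hε]
    exact (g.gap_bound hc).le
  have h2 : (P - y) * 0.93385 ≤ x + 3.97 * ε := by
    have h1 := g.data.phi_sum_le hZ hgapR
    rw [hsum, hrd, hη] at h1
    have h3 := mul_le_mul_of_nonneg_left h1 hε.le
    have e1 : ε * (r * ((2 * M : ℕ) : ℝ) - g.data.Sa - g.data.Sb) = P - x - y := by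
      rw [hP, hx, hy]; ring
    have e2 : ε * (r * κ * ((((2 * M : ℕ) : ℝ) - g.data.Sb / r) * (1.26 / ε) ^ 2 / 24
        + ((2 * M : ℕ) : ℝ) * (1.26 / ε) / 2))
        = (κ / ε ^ 2) * ((P - y) * 0.06615) + (κ / ε) * (P * 0.63) := by
      rw [hP, hy]
      field_simp
      ring
    rw [e1, e2] at h3
    have h4 : κ / ε ^ 2 ≤ 1 := by rw [div_le_one (by positivity)]; exact hκ1
    have h5 : κ / ε ≤ ε := by rw [div_le_iff₀ hε]; nlinarith
    have h6 : (κ / ε ^ 2) * ((P - y) * 0.06615) ≤ 1 * ((P - y) * 0.06615) :=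
      mul_le_mul_of_nonneg_right h4 (by positivity)
    have h7 : (κ / ε) * (P * 0.63) ≤ ε * (P * 0.63) :=
      mul_le_mul_of_nonneg_right h5 (by
        have : (0 : ℝ) ≤ P := by norm_num at hP1; linarith
        positivity)
    have h8 : ε * (P * 0.63) ≤ ε * 3.97 := by
      apply mul_le_mul_of_nonneg_left _ hε.le
      norm_num at hP2 ⊢; linarith
    norm_num at h3 h6 h7 h8 ⊢
    linarith
  -- Poincaré
  have hQ : κ * ∑ k, g.data.phi k ^ 2 ≤ 0.161 * g.data.F := by
    have h1 := g.data.poincare (θ := 2.493 * ε) hZ (by positivity) (by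
      intro c hc
      have h3 := g.gap_bound hc
      rw [← hεdef] at h3
      have h4 := Real.pi_gt_d6
      have : (gap g.data.Z c : ℝ) * (2.493 * ε) = 2.493 * ((gap g.data.Z c : ℝ) * ε) := by ring
      rw [this]
      norm_num at h3 h4 ⊢
      linarith)
    have h2 : 6.2149 * ε ^ 2 ≤ 2 - 2 * Real.cos (2.493 * ε) := by
      have hpos : (0 : ℝ) ≤ 2.493 * ε := by positivity
      have h3 := Real.cos_bound (x := 2.493 * ε) (by
        rw [abs_of_nonneg hpos]; norm_num; linarith)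
      rw [abs_of_nonneg hpos, abs_le] at h3
      have h5 := h3.2
      have h6 : ε ^ 2 * ε ^ 2 ≤ ε ^ 2 * (1 / 100000000) :=
        mul_le_mul_of_nonneg_left hε2 (sq_nonneg _)
      have h7 : (2.493 * ε) ^ 4 = 2.493 ^ 4 * (ε ^ 2 * ε ^ 2) := by ring
      have h8 : (2.493 * ε) ^ 2 = 2.493 ^ 2 * ε ^ 2 := by ring
      rw [h7, h8] at h5
      have := sq_nonneg ε
      norm_num at h5 h6 ⊢
      linarith
    have hQ0 : 0 ≤ ∑ k, g.data.phi k ^ 2 := Finset.sum_nonneg fun k _ => sq_nonneg _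
    have h3 : κ ≤ 0.161 * (2 - 2 * Real.cos (2.493 * ε)) := by
      have := sq_nonneg ε
      norm_num at h2 ⊢
      linarith
    have h4 := mul_le_mul_of_nonneg_right h3 hQ0
    norm_num at h4 h1 ⊢
    linarith
  -- energies
  have hF := g.data.F_ge
  have hΨ := g.data.psi_ge
  have hid := g.data.ident
  rw [hcd] at hF hΨ hid
  rw [← hκ] at hF hΨ hid
  rw [hrd] at hid
  set Ψ := ∑ k, g.data.psi k * (Lam r g.data.a k + Lam r g.data.b k) with hΨdef
  set s := κ / ε with hs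
  have hs0 : 0 < s := div_pos hκ0 hε
  have hκs : κ = s * ε := by rw [hs]; field_simp
  have hηs : g.data.eta = r * (s * ε) := by rw [hη, ← hκs]
  have hT1 : s * max (x - 16 * ε) 0 ≤ max (κ * g.data.Sa - 16 * g.data.eta) 0 := by
    rw [mul_max_of_nonneg _ _ hs0.le, mul_zero]
    apply max_le_max _ le_rfl
    rw [hηs, hκs, hx]
    have : r * (s * ε) ≤ 1 * (s * ε) := mul_le_mul_of_nonneg_right hr1.le (by positivity)
    nlinarith
  have hT2 : s * max (y - 24 * ε) 0 ≤ max (κ * g.data.Sb - 24 * g.data.eta) 0 := by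
    rw [mul_max_of_nonneg _ _ hs0.le, mul_zero]
    apply max_le_max _ le_rfl
    rw [hηs, hκs, hy]
    have : r * (s * ε) ≤ 1 * (s * ε) := mul_le_mul_of_nonneg_right hr1.le (by positivity)
    nlinarith
  set X := max (x - 16 * ε) 0 with hX
  set Y := max (y - 24 * ε) 0 with hY
  have hX0 : 0 ≤ X := le_max_right _ _
  have hY0 : 0 ≤ Y := le_max_right _ _
  have hF' : (s * X) ^ 3 / (768 * g.data.eta) ≤ g.data.F := by
    refine le_trans ?_ hF
    gcongr
  have hΨ' : (s * Y) ^ 3 / (768 * g.data.eta) ≤ Ψ := by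
    refine le_trans ?_ hΨ
    gcongr
  have hmain : (0.839 * (s * X) ^ 3 + (s * Y) ^ 3) / (768 * g.data.eta)
      ≤ 2 * g.data.eta * g.data.Sa - r * g.data.eta * ((2 * M : ℕ) : ℝ) := by
    rw [hid]
    have e : (0.839 * (s * X) ^ 3 + (s * Y) ^ 3) / (768 * g.data.eta)
        = 0.839 * ((s * X) ^ 3 / (768 * g.data.eta)) + (s * Y) ^ 3 / (768 * g.data.eta) := by ring
    rw [e]
    norm_num at hQ ⊢
    linarith
  rw [div_le_iff₀ (by positivity)] at hmain
  have e3 : (2 * g.data.eta * g.data.Sa - r * g.data.eta * ((2 * M : ℕ) : ℝ)) * (768 * g.data.eta)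
      = s ^ 2 * (768 * r ^ 2 * ε * (2 * x - P)) := by
    rw [hηs, hx, hP]; ring
  have e4 : 0.839 * (s * X) ^ 3 + (s * Y) ^ 3 = s ^ 2 * (s * (0.839 * X ^ 3 + Y ^ 3)) := by ring
  rw [e3, e4] at hmain
  have h5 : s * (0.839 * X ^ 3 + Y ^ 3) ≤ 768 * r ^ 2 * ε * (2 * x - P) :=
    le_of_mul_le_mul_left hmain (by positivity)
  have hW0 : 0 ≤ 0.839 * X ^ 3 + Y ^ 3 := by positivity
  have h6 : 0 ≤ 2 * x - P := by
    have h7 : 0 ≤ 768 * r ^ 2 * ε * (2 * x - P) := le_trans (by positivity) h5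
    exact nonneg_of_mul_nonneg_right h7 (by positivity)
  have h7 : 768 * r ^ 2 * ε * (2 * x - P) ≤ 768 * ε * (2 * x - P) := by
    have : r ^ 2 ≤ 1 := by nlinarith
    have h8 : 768 * ε * (2 * x - P) - 768 * r ^ 2 * ε * (2 * x - P)
        = (1 - r ^ 2) * (768 * ε * (2 * x - P)) := by ring
    have h9 : 0 ≤ (1 - r ^ 2) * (768 * ε * (2 * x - P)) := by
      apply mul_nonneg (by linarith)
      positivity
    linarith
  have h8 : 0.99999999 * ε ≤ s := by
    rw [hs, le_div_iff₀ hε]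
    nlinarith
  have h9 : 0.99999999 * ε * (0.839 * X ^ 3 + Y ^ 3) ≤ 768 * ε * (2 * x - P) :=
    (mul_le_mul_of_nonneg_right h8 hW0).trans (h5.trans h7)
  have h10 : 0.99999999 / 768 * (0.839 * X ^ 3 + Y ^ 3) ≤ 2 * x - P := by
    have h11 : ε * (0.99999999 * (0.839 * X ^ 3 + Y ^ 3)) ≤ ε * (768 * (2 * x - P)) := by
      calc _ = 0.99999999 * ε * (0.839 * X ^ 3 + Y ^ 3) := by ring
        _ ≤ _ := h9
        _ = _ := by ring
    have h12 := le_of_mul_le_mul_left h11 hε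
    have h13 : 0.99999999 / 768 * (0.839 * X ^ 3 + Y ^ 3)
        = (0.99999999 * (0.839 * X ^ 3 + Y ^ 3)) / 768 := by ring
    rw [h13, div_le_iff₀ (by norm_num)]
    linarith
  exact final_num hε hε' hx1 hP1 h2 h10 hP2

end Geo

/-- **Core bound**: a closed path around at most eight points whose hull contains the
intersection of the unit discs about these points. -/
theorem core {p : ℕ} (v : Fin 8 → ℂ) (e : Fin p → ℂ)
    (he : ∀ i j u, ip (v i - v j) u ≤ wid e u)
    (hC : ∀ x, (∀ i, ‖x - v i‖ < 1) → ∀ w, ∃ i, ip x w ≤ ip (v i) w) :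
    3.1739 ≤ ∑ l, ‖e l‖ := by
  by_contra hcon
  push Not at hcon
  haveI : NeZero (2 * 100000) := ⟨by norm_num⟩
  refine Geo.false (M := 100000) ⟨v, p, e, he, hC, hcon, ?_⟩
  unfold ep
  have := Real.pi_lt_d6
  push_cast
  norm_num at this ⊢
  linarith

end Pool.Agent.H46.Cheb
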