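import Mathlib

/-!
# Convex polygons, perimeter and self Chebyshev radius: definitions
-/

namespace Pool.Agent.H46.Cheb

open Complex

/-- The cross product of two plane vectors. -/
def cross (x y : ℂ) : ℝ := x.re * y.im - x.im * y.re

/-- `v` lists the vertices of a convex `n`-gon (with exactly `n` vertices) in counterclockwise
order: `n ≥ 3` and any three vertices taken in the order of their indices form a positively
oriented (in particular nondegenerate) triangle. -/
def IsConvexNGon {n : ℕ} (v : Fin n → ℂ) : Prop :=
  3 ≤ n ∧ ∀ i j k : Fin n, i < j → j < k → 0 < cross (v j - v i) (v k - v i)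

/-- The boundary curve of the polygon with vertices `v i`. -/
def boundary {n : ℕ} (v : Fin n → ℂ) : Set ℂ := frontier (convexHull ℝ (Set.range v))

/-- The perimeter: the sum of the lengths of the sides `[v i, v (i + 1)]` (indices cyclic). -/
noncomputable def perimeter {n : ℕ} (v : Fin n → ℂ) : ℝ := ∑ i, dist (v i) (v (finRotate n i))

/-- The self Chebyshev radius of a set in the plane. -/
noncomputable def selfRadius (Γ : Set ℂ) : ℝ := ⨅ x : Γ, ⨆ y : Γ, dist (x : ℂ) (y : ℂ)

/-- `v` is an extremal convex `n`-gon: its ratio of perimeter and self Chebyshev radius of the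
boundary is the least possible among all convex `n`-gons. -/
def IsExtremalNGon {n : ℕ} (v : Fin n → ℂ) : Prop :=
  IsConvexNGon v ∧ ∀ w : Fin n → ℂ, IsConvexNGon w →
    perimeter v / selfRadius (boundary v) ≤ perimeter w / selfRadius (boundary w)

/-- The points `v i` are the vertices of a regular `n`-gon. -/
def IsRegularNGon {n : ℕ} (v : Fin n → ℂ) : Prop :=
  ∃ c a : ℂ, a ≠ 0 ∧
    Set.range v = Set.range fun k : Fin n => c + a * exp ((2 * Real.pi * k / n : ℝ) * I)

end Pool.Agent.H46.Cheb
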