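import Pool.Agent.H46.Cheb.Disc

/-!
# The equally spaced directions
-/

namespace Pool.Agent.H46.Cheb

open Finset Complex

/-- scalar product in the plane -/
def ip (x u : ℂ) : ℝ := x.re * u.re + x.im * u.im

lemma ip_eq (x u : ℂ) : ip x u = (x * (starRingEnd ℂ) u).re := by
  simp [ip, Complex.mul_re]

lemma ip_add (x y u : ℂ) : ip (x + y) u = ip x u + ip y u := by simp [ip]; ring
lemma ip_sub (x y u : ℂ) : ip (x - y) u = ip x u - ip y u := by simp [ip]; ring
lemma ip_neg (x u : ℂ) : ip (-x) u = - ip x u := by simp [ip]; ring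
lemma ip_neg_right (x u : ℂ) : ip x (-u) = - ip x u := by simp [ip]; ring
lemma ip_add_right (x u w : ℂ) : ip x (u + w) = ip x u + ip x w := by simp [ip]; ring
lemma ip_smul_right (x u : ℂ) (t : ℝ) : ip x (t * u) = t * ip x u := by simp [ip]; ring
lemma ip_smul_left (x u : ℂ) (t : ℝ) : ip (t * x) u = t * ip x u := by simp [ip]; ring

lemma ip_le_norm (x u : ℂ) : ip x u ≤ ‖x‖ * ‖u‖ := by
  rw [ip_eq]
  calc (x * (starRingEnd ℂ) u).re ≤ ‖x * (starRingEnd ℂ) u‖ := Complex.re_le_norm _
    _ = ‖x‖ * ‖u‖ := by rw [norm_mul, Complex.norm_conj]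

lemma abs_ip_le_norm (x u : ℂ) : |ip x u| ≤ ‖x‖ * ‖u‖ := by
  rw [abs_le]
  constructor
  · have := ip_le_norm (-x) u
    rw [ip_neg, norm_neg] at this; linarith
  · exact ip_le_norm x u

variable {N : ℕ} [NeZero N]

/-- angle step -/
noncomputable def ep (N : ℕ) : ℝ := 2 * Real.pi / N

lemma ep_pos : 0 < ep N := by
  have : (0 : ℝ) < N := by exact_mod_cast NeZero.pos N
  unfold ep; positivity

/-- the directions -/
noncomputable def dir (k : ZMod N) : ℂ := ZMod.stdAddChar k

lemma norm_dir (k : ZMod N) : ‖dir k‖ = 1 := by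
  unfold dir
  rw [ZMod.stdAddChar_apply]
  simp

lemma dir_add (k l : ZMod N) : dir (k + l) = dir k * dir l := AddChar.map_add_eq_mul _ _ _

lemma dir_int (j : ℤ) : dir (j : ZMod N) = exp ((j * ep N : ℝ) * I) := by
  unfold dir ep
  rw [ZMod.stdAddChar_coe]
  congr 1
  push_cast
  ring

lemma dir_nat (j : ℕ) : dir (j : ZMod N) = exp ((j * ep N : ℝ) * I) := by
  have := dir_int (N := N) (j : ℤ)
  simpa using this

lemma dir_add_nat (k : ZMod N) (j : ℕ) :
    dir (k + (j : ZMod N)) = dir k * exp ((j * ep N : ℝ) * I) := by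
  rw [dir_add, dir_nat]

lemma dir_one : dir (1 : ZMod N) = exp ((ep N : ℝ) * I) := by
  have := dir_nat (N := N) 1
  simpa using this

lemma dir_add_one (k : ZMod N) : dir (k + 1) = dir k * exp ((ep N : ℝ) * I) := by
  rw [dir_add, dir_one]

lemma dir_sub_one (k : ZMod N) : dir (k - 1) = dir k * exp ((-ep N : ℝ) * I) := by
  have h1 : dir k = dir (k - 1) * exp ((ep N : ℝ) * I) := by
    rw [← dir_add_one]; congr 1; ring
  rw [h1, mul_assoc, ← Complex.exp_add]
  simp

/-- linear functions are in the kernel -/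
lemma Lam_lin (x : ℂ) (k : ZMod N) : Lam (Real.cos (ep N)) (fun j => ip x (dir j)) k = 0 := by
  unfold Lam
  show ip x (dir (k + 1)) + ip x (dir (k - 1)) - 2 * Real.cos (ep N) * ip x (dir k) = 0
  rw [dir_add_one, dir_sub_one, ← ip_add_right]
  have h : dir k * exp ((ep N : ℝ) * I) + dir k * exp ((-ep N : ℝ) * I)
      = ((2 * Real.cos (ep N) : ℝ) : ℂ) * dir k := by
    rw [Complex.exp_mul_I, Complex.exp_mul_I]
    push_cast
    rw [Complex.cos_neg, Complex.sin_neg]
    ring
  rw [h, ip_smul_right]; ring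

lemma dir_half {M : ℕ} [NeZero (2 * M)] (k : ZMod (2 * M)) :
    dir (k + (M : ZMod (2 * M))) = - dir k := by
  have hM : (0 : ℝ) < M := by
    have := NeZero.pos (2 * M)
    have : 0 < M := by omega
    exact_mod_cast this
  rw [dir_add_nat]
  have : (M : ℝ) * ep (2 * M) = Real.pi := by
    unfold ep; push_cast; field_simp
  rw [this, Complex.exp_pi_mul_I]
  ring

lemma half_half {M : ℕ} : (M : ZMod (2 * M)) + (M : ZMod (2 * M)) = 0 := by
  have : ((2 * M : ℕ) : ZMod (2 * M)) = 0 := ZMod.natCast_self _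
  push_cast at this
  rw [← this]; ring

/-! ### the point with two prescribed values -/

/-- the point with prescribed scalar products with two consecutive directions -/
noncomputable def pt (k : ZMod N) (α β : ℝ) : ℂ :=
  dir k * (α + ((β - α * Real.cos (ep N)) / Real.sin (ep N) : ℝ) * I)

lemma ip_mul_dir (z : ℂ) (k : ZMod N) : ip (dir k * z) (dir k) = z.re := by
  rw [ip_eq]
  have h : dir k * (starRingEnd ℂ) (dir k) = 1 := by
    rw [Complex.mul_conj, Complex.normSq_eq_norm_sq, norm_dir]; norm_num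
  have : dir k * z * (starRingEnd ℂ) (dir k) = z := by
    calc _ = z * (dir k * (starRingEnd ℂ) (dir k)) := by ring
      _ = z := by rw [h, mul_one]
  rw [this]

lemma ip_mul_dir_exp (z : ℂ) (k : ZMod N) (x : ℝ) :
    ip (dir k * z) (dir k * exp (x * I)) = z.re * Real.cos x + z.im * Real.sin x := by
  rw [ip_eq, map_mul]
  have h : dir k * (starRingEnd ℂ) (dir k) = 1 := by
    rw [Complex.mul_conj, Complex.normSq_eq_norm_sq, norm_dir]; norm_num
  have : dir k * z * ((starRingEnd ℂ) (dir k) * (starRingEnd ℂ) (exp (x * I)))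
      = z * (starRingEnd ℂ) (exp (x * I)) := by
    calc _ = (dir k * (starRingEnd ℂ) (dir k)) * (z * (starRingEnd ℂ) (exp (x * I))) := by ring
      _ = _ := by rw [h, one_mul]
  rw [this, Complex.mul_re, Complex.conj_re, Complex.conj_im, Complex.exp_ofReal_mul_I_re,
    Complex.exp_ofReal_mul_I_im]
  ring

lemma ip_pt (k : ZMod N) (α β : ℝ) : ip (pt k α β) (dir k) = α := by
  unfold pt
  rw [ip_mul_dir]
  simp only [Complex.add_re, Complex.ofReal_re, Complex.mul_re, Complex.I_re, mul_zero,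
    Complex.ofReal_im, Complex.I_im, zero_mul, sub_self, add_zero]

lemma ip_pt_one (k : ZMod N) (α β : ℝ) (hs : Real.sin (ep N) ≠ 0) :
    ip (pt k α β) (dir (k + 1)) = β := by
  unfold pt
  rw [dir_add_one, ip_mul_dir_exp]
  simp only [Complex.add_re, Complex.ofReal_re, Complex.mul_re, Complex.I_re, mul_zero,
    Complex.ofReal_im, Complex.I_im, mul_one, sub_self, add_zero, Complex.add_im, Complex.mul_im,
    zero_add]
  field_simp
  ring

/-! ### the norm is controlled by the directions -/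

lemma norm_mul_cos_le {y : ℂ} {r : ℝ} (h : ∀ k : ZMod N, ip y (dir k) ≤ r) :
    ‖y‖ * Real.cos (ep N / 2) ≤ r := by
  have hε := ep_pos (N := N)
  set j : ℤ := round (Complex.arg y / ep N) with hj
  have h1 := h (j : ZMod N)
  rw [dir_int] at h1
  have h2 : ip y (exp ((j * ep N : ℝ) * I)) = ‖y‖ * Real.cos (Complex.arg y - j * ep N) := by
    conv_lhs => rw [← Complex.norm_mul_exp_arg_mul_I y]
    rw [ip_smul_left, ip, Complex.exp_ofReal_mul_I_re, Complex.exp_ofReal_mul_I_im,
      Complex.exp_ofReal_mul_I_re, Complex.exp_ofReal_mul_I_im, Real.cos_sub]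
  rw [h2] at h1
  refine le_trans ?_ h1
  refine mul_le_mul_of_nonneg_left ?_ (norm_nonneg _)
  have h3 : |Complex.arg y - j * ep N| ≤ ep N / 2 := by
    have h4 := abs_sub_round (Complex.arg y / ep N)
    rw [← hj] at h4
    have h5 : Complex.arg y - j * ep N = (Complex.arg y / ep N - j) * ep N := by
      field_simp
    rw [h5, abs_mul, abs_of_pos hε]
    nlinarith
  rw [← Real.cos_abs (Complex.arg y - j * ep N)]
  have hπ : ep N / 2 ≤ Real.pi := by
    unfold ep
    have : (1 : ℝ) ≤ N := by exact_mod_cast NeZero.one_le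
    rw [div_div, div_le_iff₀ (by positivity)]
    nlinarith [Real.pi_pos]
  exact Real.cos_le_cos_of_nonneg_of_le_pi (abs_nonneg _) hπ h3

/-! ### discrete Sturm comparison -/

lemma sturm_seq {ε : ℝ} {M : ℕ} (hε : 0 < ε) (hM : M * ε ≤ Real.pi) (w : ℕ → ℝ) (h0 : w 0 = 0)
    (h1 : 0 ≤ w 1)
    (hw : ∀ j, j + 2 ≤ M → 2 * Real.cos ε * w (j + 1) - w j ≤ w (j + 2)) :
    ∀ j ≤ M, 0 ≤ w j := by
  have hs : ∀ j : ℕ, Real.sin ((j + 2 : ℕ) * ε)
      = 2 * Real.cos ε * Real.sin ((j + 1 : ℕ) * ε) - Real.sin (j * ε) := by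
    intro j
    have e1 : ((j + 2 : ℕ) : ℝ) * ε = ((j + 1 : ℕ) : ℝ) * ε + ε := by push_cast; ring
    have e2 : (j : ℝ) * ε = ((j + 1 : ℕ) : ℝ) * ε - ε := by push_cast; ring
    rw [e1, e2, Real.sin_add, Real.sin_sub]; ring
  have hs0 : ∀ j ≤ M, 0 ≤ Real.sin (j * ε) := by
    intro j hj
    apply Real.sin_nonneg_of_nonneg_of_le_pi (by positivity)
    refine le_trans ?_ hM
    have : (j : ℝ) ≤ M := by exact_mod_cast hj
    gcongr
  have hs1 : ∀ j, 1 ≤ j → j < M → 0 < Real.sin (j * ε) := by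
    intro j hj hjM
    have h3 : (1 : ℝ) ≤ j := by exact_mod_cast hj
    apply Real.sin_pos_of_pos_of_lt_pi (by positivity)
    refine lt_of_lt_of_le ?_ hM
    have : (j : ℝ) < M := by exact_mod_cast hjM
    gcongr
  -- Wronskian
  have hW : ∀ j, j + 1 ≤ M → 0 ≤ w (j + 1) * Real.sin (j * ε) - w j * Real.sin ((j + 1 : ℕ) * ε) := by
    intro j
    induction j with
    | zero => intro _; simp [h0]
    | succ j ih =>
      intro hj
      have h2 := ih (by omega)
      have h3 := hw j (by omega)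
      have h4 := hs j
      have h5 := hs0 (j + 1) (by omega)
      have e : j + 1 + 1 = j + 2 := rfl
      rw [e, h4]
      nlinarith
  intro j
  induction j with
  | zero => intro _; rw [h0]
  | succ j ih =>
    intro hj
    rcases Nat.eq_zero_or_pos j with rfl | hjpos
    · exact h1
    · have h2 := ih (by omega)
      have h3 := hW j hj
      have h4 := hs1 j hjpos (by omega)
      have h5 := hs0 (j + 1) hj
      by_contra hneg
      push Not at hneg
      have h6 : w (j + 1) * Real.sin (j * ε) < 0 := mul_neg_of_neg_of_pos hneg h4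
      have h7 : 0 ≤ w j * Real.sin ((j + 1 : ℕ) * ε) := mul_nonneg h2 h5
      linarith

lemma sturm {M : ℕ} [NeZero (2 * M)] (w : ZMod (2 * M) → ℝ)
    (hw : ∀ k, 0 ≤ Lam (Real.cos (ep (2 * M))) w k) (k : ZMod (2 * M)) (h0 : w k = 0)
    (h1 : w (k + 1) = 0) (l : ZMod (2 * M)) : 0 ≤ w l := by
  have hMpos : 0 < M := by
    have := NeZero.pos (2 * M)
    omega
  have hM' : (0 : ℝ) < M := by exact_mod_cast hMpos
  have hMe : (M : ℝ) * ep (2 * M) = Real.pi := by
    unfold ep; push_cast; field_simp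
  set j := (l - k).val with hj
  have hjlt : j < 2 * M := ZMod.val_lt _
  have hl : l = k + (j : ZMod (2 * M)) := by rw [hj]; simp
  rcases Nat.lt_or_ge M j with h | h
  · -- backwards
    have hb := sturm_seq (ε := ep (2 * M)) (M := M) ep_pos hMe.le
      (fun i => w (k + 1 - (i : ZMod (2 * M)))) (by simpa using h1)
      (by simp [h0]) (by
        intro i _
        have h3 := hw (k + 1 - ((i + 1 : ℕ) : ZMod (2 * M)))
        unfold Lam at h3
        have e1 : k + 1 - ((i + 1 : ℕ) : ZMod (2 * M)) + 1 = k + 1 - (i : ZMod (2 * M)) := by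
          push_cast; ring
        have e2 : k + 1 - ((i + 1 : ℕ) : ZMod (2 * M)) - 1 = k + 1 - ((i + 2 : ℕ) : ZMod (2 * M)) := by
          push_cast; ring
        rw [e1, e2] at h3
        linarith) (2 * M - j + 1) (by omega)
    have e : k + 1 - ((2 * M - j + 1 : ℕ) : ZMod (2 * M)) = l := by
      rw [hl, Nat.cast_add, Nat.cast_sub hjlt.le, ZMod.natCast_self]
      push_cast; ring
    rwa [e] at hb
  · have hb := sturm_seq (ε := ep (2 * M)) (M := M) ep_pos hMe.le
      (fun i => w (k + (i : ZMod (2 * M)))) (by simpa using h0)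
      (by simp [h1]) (by
        intro i _
        have h3 := hw (k + ((i + 1 : ℕ) : ZMod (2 * M)))
        unfold Lam at h3
        have e1 : k + ((i + 1 : ℕ) : ZMod (2 * M)) + 1 = k + ((i + 2 : ℕ) : ZMod (2 * M)) := by
          push_cast; ring
        have e2 : k + ((i + 1 : ℕ) : ZMod (2 * M)) - 1 = k + (i : ZMod (2 * M)) := by
          push_cast; ring
        rw [e1, e2] at h3
        linarith) j h
    rwa [hl]

end Pool.Agent.H46.Cheb
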