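import Mathlib

/-!
# Discrete support-function calculus on `ZMod N`

Bilinear form, energy identity, the largest discretely convex minorant and the basic identity.
-/

namespace Pool.Agent.H46.Cheb

open Finset

variable {N : ℕ} [NeZero N]

/-- second difference operator `f (k+1) + f (k-1) - 2 c f k` -/
noncomputable def Lam (c : ℝ) (f : ZMod N → ℝ) (k : ZMod N) : ℝ :=
  f (k + 1) + f (k - 1) - 2 * c * f k

lemma sum_shift (f : ZMod N → ℝ) (m : ZMod N) : ∑ k, f (k + m) = ∑ k, f k :=
  Equiv.sum_comp (Equiv.addRight m) f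

lemma sum_shift_sub (f : ZMod N → ℝ) (m : ZMod N) : ∑ k, f (k - m) = ∑ k, f k := by
  simpa [sub_eq_add_neg] using sum_shift f (-m)

/-- the symmetric bilinear form -/
noncomputable def E (c : ℝ) (f g : ZMod N → ℝ) : ℝ := ∑ k, f k * Lam c g k

lemma E_comm (c : ℝ) (f g : ZMod N → ℝ) : E c f g = E c g f := by
  have h1 : ∑ k, f k * g (k + 1) = ∑ k, f (k - 1) * g k := by
    rw [← sum_shift_sub (fun k => f k * g (k + 1)) 1]
    simp
  have h2 : ∑ k, f k * g (k - 1) = ∑ k, f (k + 1) * g k := by
    rw [← sum_shift (fun k => f k * g (k - 1)) 1]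
    simp
  unfold E Lam
  have e1 : ∑ k, f k * (g (k + 1) + g (k - 1) - 2 * c * g k)
      = ∑ k, f k * g (k + 1) + ∑ k, f k * g (k - 1) - 2 * c * ∑ k, f k * g k := by
    rw [Finset.mul_sum, ← Finset.sum_add_distrib, ← Finset.sum_sub_distrib]
    exact Finset.sum_congr rfl fun k _ => by ring
  have e2 : ∑ k, g k * (f (k + 1) + f (k - 1) - 2 * c * f k)
      = ∑ k, f (k + 1) * g k + ∑ k, f (k - 1) * g k - 2 * c * ∑ k, f k * g k := by
    rw [Finset.mul_sum, ← Finset.sum_add_distrib, ← Finset.sum_sub_distrib]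
    exact Finset.sum_congr rfl fun k _ => by ring
  rw [e1, e2, h1, h2]; ring

lemma E_add_left (c : ℝ) (f g h : ZMod N → ℝ) : E c (fun k => f k + g k) h = E c f h + E c g h := by
  unfold E; rw [← Finset.sum_add_distrib]; exact Finset.sum_congr rfl fun k _ => by ring

lemma E_sub_left (c : ℝ) (f g h : ZMod N → ℝ) : E c (fun k => f k - g k) h = E c f h - E c g h := by
  unfold E; rw [← Finset.sum_sub_distrib]; exact Finset.sum_congr rfl fun k _ => by ring

lemma E_const_left (c r : ℝ) (g : ZMod N → ℝ) :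
    E c (fun _ => r) g = r * (2 - 2 * c) * ∑ k, g k := by
  unfold E Lam
  rw [← Finset.mul_sum, Finset.sum_sub_distrib, Finset.sum_add_distrib, sum_shift, sum_shift_sub,
    ← Finset.mul_sum]
  ring

lemma E_shift (c : ℝ) (f g : ZMod N → ℝ) (m : ZMod N) :
    E c (fun k => f (k + m)) (fun k => g (k + m)) = E c f g := by
  unfold E Lam
  rw [← sum_shift (fun k => f k * (g (k + 1) + g (k - 1) - 2 * c * g k)) m]
  refine Finset.sum_congr rfl fun k _ => ?_
  have h1 : k + 1 + m = k + m + 1 := by ring
  have h2 : k - 1 + m = k + m - 1 := by ring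
  simp only [h1, h2]

lemma energy (c : ℝ) (f : ZMod N → ℝ) :
    E c f f = (2 - 2 * c) * ∑ k, f k ^ 2 - ∑ k, (f (k + 1) - f k) ^ 2 := by
  have h1 : ∑ k, f k * f (k - 1) = ∑ k, f k * f (k + 1) := by
    rw [← sum_shift (fun k => f k * f (k - 1)) 1]
    simp [mul_comm]
  have h2 : ∑ k, f (k + 1) ^ 2 = ∑ k, f k ^ 2 := sum_shift (fun k => f k ^ 2) 1
  have e1 : E c f f = ∑ k, f k * f (k + 1) + ∑ k, f k * f (k - 1) - 2 * c * ∑ k, f k ^ 2 := by
    unfold E Lam
    rw [Finset.mul_sum, ← Finset.sum_add_distrib, ← Finset.sum_sub_distrib]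
    exact Finset.sum_congr rfl fun k _ => by ring
  have e2 : ∑ k, (f (k + 1) - f k) ^ 2
      = ∑ k, f (k + 1) ^ 2 + ∑ k, f k ^ 2 - 2 * ∑ k, f k * f (k + 1) := by
    rw [Finset.mul_sum, ← Finset.sum_add_distrib, ← Finset.sum_sub_distrib]
    exact Finset.sum_congr rfl fun k _ => by ring
  rw [e1, e2, h1, h2]; ring

/-! ### The largest discretely convex minorant -/

/-- the set of discretely convex minorants of `f` -/
def Minor (c : ℝ) (f : ZMod N → ℝ) : Set (ZMod N → ℝ) :=
  {β | (∀ k, β k ≤ f k) ∧ ∀ k, 0 ≤ Lam c β k}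

/-- largest discretely convex minorant -/
noncomputable def hullFn (c : ℝ) (f : ZMod N → ℝ) (k : ZMod N) : ℝ :=
  sSup ((fun β : ZMod N → ℝ => β k) '' Minor c f)

section hull

variable {c : ℝ} {f : ZMod N → ℝ}

lemma bdd (k : ZMod N) : BddAbove ((fun β : ZMod N → ℝ => β k) '' Minor c f) :=
  ⟨f k, by rintro _ ⟨β, hβ, rfl⟩; exact hβ.1 k⟩

lemma le_hullFn {β : ZMod N → ℝ} (hβ : β ∈ Minor c f) (k : ZMod N) : β k ≤ hullFn c f k :=
  le_csSup (bdd k) ⟨β, hβ, rfl⟩

lemma hullFn_mem (hc : 0 < c) (hne : (Minor c f).Nonempty) : hullFn c f ∈ Minor c f := by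
  constructor
  · intro k
    refine csSup_le (hne.image _) ?_
    rintro _ ⟨β, hβ, rfl⟩
    exact hβ.1 k
  · intro k
    have key : hullFn c f k ≤ (hullFn c f (k + 1) + hullFn c f (k - 1)) / (2 * c) := by
      refine csSup_le (hne.image _) ?_
      rintro _ ⟨β, hβ, rfl⟩
      have h1 := le_hullFn hβ (k + 1)
      have h2 := le_hullFn hβ (k - 1)
      have h3 := hβ.2 k
      unfold Lam at h3
      rw [le_div_iff₀ (by positivity)]
      show β k * (2 * c) ≤ _
      nlinarith
    rw [le_div_iff₀ (by positivity)] at key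
    unfold Lam
    nlinarith

lemma hullFn_compl (hc : 0 < c) (hN : 3 ≤ N) (hne : (Minor c f).Nonempty) {k : ZMod N}
    (hk : hullFn c f k < f k) : Lam c (hullFn c f) k = 0 := by
  by_contra hne0
  obtain ⟨hb1, hb2⟩ := hullFn_mem hc hne
  have hpos : 0 < Lam c (hullFn c f) k := lt_of_le_of_ne (hb2 k) (Ne.symm hne0)
  set η := min (f k - hullFn c f k) (Lam c (hullFn c f) k / (2 * c)) with hη
  have hηpos : 0 < η := lt_min (by linarith) (by positivity)
  have h1N : (1 : ZMod N) ≠ 0 := by
    haveI : Fact (1 < N) := ⟨by omega⟩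
    exact one_ne_zero
  have h2N : (2 : ZMod N) ≠ 0 := by
    intro h
    have : ((2 : ℕ) : ZMod N) = 0 := by exact_mod_cast h
    rw [ZMod.natCast_eq_zero_iff] at this
    exact absurd (Nat.le_of_dvd (by norm_num) this) (by omega)
  let β : ZMod N → ℝ := fun j => hullFn c f j + if j = k then η else 0
  have hβ : β ∈ Minor c f := by
    constructor
    · intro j
      by_cases hj : j = k
      · subst hj
        have : η ≤ f j - hullFn c f j := min_le_left _ _
        simp only [β, if_true]; linarith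
      · simp only [β, if_neg hj, add_zero]; exact hb1 j
    · intro j
      have hge : ∀ i, hullFn c f i ≤ β i := by
        intro i
        by_cases hi : i = k
        · simp only [β, if_pos hi]; linarith
        · simp only [β, if_neg hi, add_zero]; exact le_rfl
      by_cases hj : j = k
      · subst hj
        have h1 := hge (j + 1)
        have h2 := hge (j - 1)
        have h3 : η ≤ Lam c (hullFn c f) j / (2 * c) := min_le_right _ _
        rw [le_div_iff₀ (by positivity)] at h3
        have h4 : β j = hullFn c f j + η := by simp [β]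
        unfold Lam at h3 ⊢
        rw [h4]; nlinarith
      · have h4 : β j = hullFn c f j := by simp [β, hj]
        have h1 := hge (j + 1)
        have h2 := hge (j - 1)
        have h3 := hb2 j
        unfold Lam at h3 ⊢
        rw [h4]; linarith
  have := le_hullFn hβ k
  simp only [β, if_true] at this
  linarith

lemma Lam_hullFn_le (hc : 0 < c) (hN : 3 ≤ N) (hne : (Minor c f).Nonempty) {η : ℝ} (hη : 0 ≤ η)
    (hf : ∀ k, Lam c f k ≤ η) (k : ZMod N) : Lam c (hullFn c f) k ≤ η := by
  obtain ⟨hb1, hb2⟩ := hullFn_mem hc hne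
  rcases lt_or_eq_of_le (hb1 k) with h | h
  · rw [hullFn_compl hc hN hne h]; exact hη
  · have h1 := hb1 (k + 1)
    have h2 := hb1 (k - 1)
    have h3 := hf k
    unfold Lam at h3 ⊢
    rw [h]; linarith

end hull

/-- the basic identity -/
theorem identity (c r : ℝ) (a b : ZMod N → ℝ) (M : ZMod N) (hM : M + M = 0)
    (hcompl : ∀ k, (r - a (k + M) - b k) * Lam c b k = 0) :
    2 * r * (2 - 2 * c) * ∑ k, a k - r ^ 2 * (2 - 2 * c) * N
      = - E c (fun k => r - a k - b (k + M)) (fun k => r - a k - b (k + M))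
        + ∑ k, (a k - b k) * (Lam c a k + Lam c b k) := by
  set bM : ZMod N → ℝ := fun k => b (k + M) with hbM
  have hMM : ∀ k : ZMod N, k + M + M = k := fun k => by rw [add_assoc, hM, add_zero]
  -- complementarity in terms of `E`
  have hc0 : E c (fun k => r - a (k + M) - b k) b = 0 := by
    unfold E
    exact Finset.sum_eq_zero fun k _ => hcompl k
  have hc1 : r * (2 - 2 * c) * ∑ k, b k - E c (fun k => a (k + M)) b - E c b b = 0 := by
    rw [← E_const_left, ← E_sub_left, ← E_sub_left]; exact hc0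
  have hc2 : E c (fun k => a (k + M)) b = E c a bM := by
    rw [← E_shift c (fun k => a (k + M)) b M]
    simp only [hMM, hbM]
  have hSb : ∑ k, bM k = ∑ k, b k := sum_shift b M
  have hEb : E c bM bM = E c b b := E_shift c b b M
  -- expand the first form
  have e1 : E c (fun k => r - a k - b (k + M)) (fun k => r - a k - b (k + M))
      = r * (2 - 2 * c) * (∑ k, (r - a k - bM k))
        - E c a (fun k => r - a k - bM k) - E c bM (fun k => r - a k - bM k) := by
    rw [← E_const_left, ← E_sub_left, ← E_sub_left]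
  have e2 : ∑ k, (r - a k - bM k) = r * N - ∑ k, a k - ∑ k, b k := by
    rw [Finset.sum_sub_distrib, Finset.sum_sub_distrib, hSb]
    simp [mul_comm]
  have e3 : E c a (fun k => r - a k - bM k)
      = r * (2 - 2 * c) * ∑ k, a k - E c a a - E c a bM := by
    rw [E_comm, ← E_const_left, E_comm c a bM, ← E_sub_left, ← E_sub_left]
  have e4 : E c bM (fun k => r - a k - bM k)
      = r * (2 - 2 * c) * ∑ k, b k - E c a bM - E c b b := by
    rw [E_comm, ← hSb, ← hEb, ← E_const_left, ← E_sub_left, ← E_sub_left]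
  -- the second term
  have e5 : ∑ k, (a k - b k) * (Lam c a k + Lam c b k) = E c a a - E c b b := by
    have : ∑ k, (a k - b k) * (Lam c a k + Lam c b k)
        = E c a a - E c b a + (E c a b - E c b b) := by
      unfold E
      rw [← Finset.sum_sub_distrib, ← Finset.sum_sub_distrib, ← Finset.sum_add_distrib]
      exact Finset.sum_congr rfl fun k _ => by ring
    rw [this, E_comm c b a]; ring
  rw [e1, e2, e3, e4, e5]
  rw [hc2] at hc1
  linear_combination (-2 : ℝ) * hc1

end Pool.Agent.H46.Cheb
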