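import Pool.Agent.H46.Cheb.Dir

/-!
# Lengths through projections
-/

namespace Pool.Agent.H46.Cheb

open Finset Complex MeasureTheory intervalIntegral
open scoped Interval

/-- unit vector -/
noncomputable def uv (t : ℝ) : ℂ := exp (t * I)

lemma ip_uv (e : ℂ) (t : ℝ) : ip e (uv t) = e.re * Real.cos t + e.im * Real.sin t := by
  unfold ip uv
  rw [Complex.exp_ofReal_mul_I_re, Complex.exp_ofReal_mul_I_im]

lemma continuous_ip_uv (e : ℂ) : Continuous fun t : ℝ => ip e (uv t) := by
  simp only [ip_uv]; fun_prop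

lemma continuous_abs_ip_uv (e : ℂ) : Continuous fun t : ℝ => |ip e (uv t)| :=
  (continuous_ip_uv e).abs

lemma integral_abs_cos : ∫ t in (0 : ℝ)..(2 * Real.pi), |Real.cos t| = 4 := by
  have hc : Continuous fun t : ℝ => |Real.cos t| := Real.continuous_cos.abs
  have hp : Function.Periodic (fun t : ℝ => |Real.cos t|) (2 * Real.pi) := fun t => by
    simp [Real.cos_add_two_pi]
  have h1 := hp.intervalIntegral_add_eq 0 (-(Real.pi / 2))
  rw [zero_add] at h1
  rw [h1]
  have h2 : ∫ t in (-(Real.pi / 2))..(Real.pi / 2), |Real.cos t| = 2 := by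
    have : ∫ t in (-(Real.pi / 2))..(Real.pi / 2), |Real.cos t|
        = ∫ t in (-(Real.pi / 2))..(Real.pi / 2), Real.cos t := by
      refine intervalIntegral.integral_congr fun t ht => ?_
      rw [Set.uIcc_of_le (by linarith [Real.pi_pos])] at ht
      exact abs_of_nonneg (Real.cos_nonneg_of_mem_Icc ht)
    rw [this, integral_cos]
    simp; norm_num
  have h3 : ∫ t in (Real.pi / 2)..(-(Real.pi / 2) + 2 * Real.pi), |Real.cos t| = 2 := by
    have : ∫ t in (Real.pi / 2)..(-(Real.pi / 2) + 2 * Real.pi), |Real.cos t|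
        = ∫ t in (Real.pi / 2)..(-(Real.pi / 2) + 2 * Real.pi), -Real.cos t := by
      refine intervalIntegral.integral_congr fun t ht => ?_
      rw [Set.uIcc_of_le (by linarith [Real.pi_pos])] at ht
      refine abs_of_nonpos (Real.cos_nonpos_of_pi_div_two_le_of_le ht.1 ?_)
      have := ht.2; linarith
    rw [this, intervalIntegral.integral_neg, integral_cos]
    have e : -(Real.pi / 2) + 2 * Real.pi = -(Real.pi / 2) + 2 * Real.pi := rfl
    rw [Real.sin_add_two_pi]
    simp; norm_num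
  rw [← intervalIntegral.integral_add_adjacent_intervals (b := Real.pi / 2)
    (hc.intervalIntegrable _ _) (hc.intervalIntegrable _ _), h2, h3]
  norm_num

lemma periodic_abs_ip (e : ℂ) : Function.Periodic (fun t : ℝ => |ip e (uv t)|) (2 * Real.pi) := by
  intro t
  simp only [ip_uv, Real.cos_add_two_pi, Real.sin_add_two_pi]

lemma integral_abs_ip (e : ℂ) : ∫ t in (0 : ℝ)..(2 * Real.pi), |ip e (uv t)| = 4 * ‖e‖ := by
  have h : ∀ t : ℝ, |ip e (uv t)| = ‖e‖ * |Real.cos (t - Complex.arg e)| := by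
    intro t
    have : ip e (uv t) = ‖e‖ * Real.cos (t - Complex.arg e) := by
      conv_lhs => rw [← Complex.norm_mul_exp_arg_mul_I e]
      rw [ip_smul_left, ip, uv, Complex.exp_ofReal_mul_I_re, Complex.exp_ofReal_mul_I_im,
        Complex.exp_ofReal_mul_I_re, Complex.exp_ofReal_mul_I_im, Real.cos_sub]
      ring
    rw [this, abs_mul, abs_of_nonneg (norm_nonneg _)]
  simp only [h]
  rw [intervalIntegral.integral_const_mul]
  have h2 : ∫ t in (0 : ℝ)..(2 * Real.pi), |Real.cos (t - Complex.arg e)| = 4 := by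
    have h3 := intervalIntegral.integral_comp_sub_right (a := 0) (b := 2 * Real.pi)
      (fun t : ℝ => |Real.cos t|) (Complex.arg e)
    rw [h3]
    have hp : Function.Periodic (fun t : ℝ => |Real.cos t|) (2 * Real.pi) := fun t => by
      simp [Real.cos_add_two_pi]
    have h4 := hp.intervalIntegral_add_eq (0 - Complex.arg e) 0
    have e1 : 2 * Real.pi - Complex.arg e = 0 - Complex.arg e + 2 * Real.pi := by ring
    rw [e1, h4, zero_add, integral_abs_cos]
  rw [h2]; ring

variable {N : ℕ} [NeZero N]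

lemma sum_zmod (g : ZMod N → ℝ) : ∑ k, g k = ∑ j ∈ range N, g (j : ZMod N) := by
  refine Finset.sum_nbij' (fun k => k.val) (fun j => (j : ZMod N)) ?_ ?_ ?_ ?_ ?_
  · intro k _; exact Finset.mem_range.2 (ZMod.val_lt k)
  · intro j _; exact Finset.mem_univ _
  · intro k _; simp
  · intro j hj; exact ZMod.val_cast_of_lt (Finset.mem_range.1 hj)
  · intro k _; simp

lemma dir_eq_uv (j : ℕ) : dir (j : ZMod N) = uv (j * ep N) := by
  rw [dir_nat]; rfl

lemma int_cell (e : ℂ) (x ε : ℝ) (hε : 0 ≤ ε) :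
    |ip e (uv x)| * (2 * Real.sin (ε / 2)) ≤ ∫ t in (x - ε / 2)..(x + ε / 2), |ip e (uv t)| := by
  have h1 : ∫ t in (x - ε / 2)..(x + ε / 2), ip e (uv t)
      = ip e (uv x) * (2 * Real.sin (ε / 2)) := by
    simp only [ip_uv]
    rw [intervalIntegral.integral_add (by
      exact (by fun_prop : Continuous fun t : ℝ => e.re * Real.cos t).intervalIntegrable _ _) (by
      exact (by fun_prop : Continuous fun t : ℝ => e.im * Real.sin t).intervalIntegrable _ _),
      intervalIntegral.integral_const_mul, intervalIntegral.integral_const_mul, integral_cos,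
      integral_sin, Real.sin_add, Real.sin_sub, Real.cos_add, Real.cos_sub]
    ring
  have h2 : |∫ t in (x - ε / 2)..(x + ε / 2), ip e (uv t)|
      ≤ ∫ t in (x - ε / 2)..(x + ε / 2), |ip e (uv t)| :=
    intervalIntegral.abs_integral_le_integral_abs (by linarith)
  rw [h1, abs_mul] at h2
  refine le_trans ?_ h2
  exact mul_le_mul_of_nonneg_left (le_abs_self _) (abs_nonneg _)

lemma sum_abs_ip_dir (e : ℂ) :
    (∑ k : ZMod N, |ip e (dir k)|) * (2 * Real.sin (ep N / 2)) ≤ 4 * ‖e‖ := by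
  have hε := ep_pos (N := N)
  have hNε : (N : ℝ) * ep N = 2 * Real.pi := by
    have : (N : ℝ) ≠ 0 := by exact_mod_cast NeZero.ne N
    unfold ep; field_simp
  rw [sum_zmod, Finset.sum_mul]
  have h1 : ∀ j ∈ range N, |ip e (dir (j : ZMod N))| * (2 * Real.sin (ep N / 2))
      ≤ ∫ t in ((j : ℕ) * ep N - ep N / 2)..(((j + 1 : ℕ) : ℝ) * ep N - ep N / 2),
        |ip e (uv t)| := by
    intro j _
    rw [dir_eq_uv]
    refine (int_cell e _ _ hε.le).trans (le_of_eq ?_)
    congr 1
    push_cast; ring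
  refine (Finset.sum_le_sum h1).trans (le_of_eq ?_)
  rw [intervalIntegral.sum_integral_adjacent_intervals
    (a := fun j : ℕ => (j : ℝ) * ep N - ep N / 2)
    (fun k _ => (continuous_abs_ip_uv e).intervalIntegrable _ _)]
  have h2 := (periodic_abs_ip e).intervalIntegral_add_eq ((0 : ℕ) * ep N - ep N / 2) 0
  have e1 : (N : ℝ) * ep N - ep N / 2 = ((0 : ℕ) : ℝ) * ep N - ep N / 2 + 2 * Real.pi := by
    push_cast; linarith
  rw [e1, h2, zero_add, integral_abs_ip]

/-- half the sum of the projections of the edges -/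
noncomputable def wid {p : ℕ} (e : Fin p → ℂ) (u : ℂ) : ℝ := (∑ l, |ip (e l) u|) / 2

lemma abs_triple {α β γ W : ℝ} (h1 : |α - β| ≤ W) (h2 : |β - γ| ≤ W) (h3 : |γ - α| ≤ W) :
    |α - β| + |β - γ| + |γ - α| ≤ 2 * W := by
  rw [abs_le] at h1 h2 h3
  rcases abs_cases (α - β) with h | h <;> rcases abs_cases (β - γ) with h' | h' <;>
    rcases abs_cases (γ - α) with h'' | h'' <;> linarith

lemma triangle_le {p : ℕ} (e : Fin p → ℂ) (x y z : ℂ)
    (h1 : ∀ t : ℝ, |ip (x - y) (uv t)| ≤ wid e (uv t))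
    (h2 : ∀ t : ℝ, |ip (y - z) (uv t)| ≤ wid e (uv t))
    (h3 : ∀ t : ℝ, |ip (z - x) (uv t)| ≤ wid e (uv t)) :
    ‖x - y‖ + ‖y - z‖ + ‖z - x‖ ≤ ∑ l, ‖e l‖ := by
  have key : ∀ t : ℝ, |ip (x - y) (uv t)| + |ip (y - z) (uv t)| + |ip (z - x) (uv t)|
      ≤ ∑ l, |ip (e l) (uv t)| := by
    intro t
    have := abs_triple (α := ip x (uv t)) (β := ip y (uv t)) (γ := ip z (uv t))
      (W := wid e (uv t)) (by rw [← ip_sub]; exact h1 t) (by rw [← ip_sub]; exact h2 t)
      (by rw [← ip_sub]; exact h3 t)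
    rw [ip_sub, ip_sub, ip_sub]
    refine this.trans (le_of_eq ?_)
    unfold wid; ring
  have hi : ∀ w : ℂ, IntervalIntegrable (fun t : ℝ => |ip w (uv t)|) volume 0 (2 * Real.pi) :=
    fun w => (continuous_abs_ip_uv w).intervalIntegrable _ _
  have h4 : ∫ t in (0 : ℝ)..(2 * Real.pi),
      (|ip (x - y) (uv t)| + |ip (y - z) (uv t)| + |ip (z - x) (uv t)|)
      ≤ ∫ t in (0 : ℝ)..(2 * Real.pi), ∑ l, |ip (e l) (uv t)| := by
    refine intervalIntegral.integral_mono_on (by positivity) (((hi _).add (hi _)).add (hi _)) ?_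
      (fun t _ => key t)
    exact (continuous_finsetSum _ fun l _ => continuous_abs_ip_uv (e l)).intervalIntegrable _ _
  rw [intervalIntegral.integral_add ((hi _).add (hi _)) (hi _),
    intervalIntegral.integral_add (hi _) (hi _), integral_abs_ip, integral_abs_ip,
    integral_abs_ip, intervalIntegral.integral_finsetSum (fun l _ => hi _)] at h4
  simp only [integral_abs_ip] at h4
  rw [← Finset.mul_sum] at h4
  linarith

end Pool.Agent.H46.Cheb
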