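import Pool.Agent.H46.Cheb.Poly
import Pool.Agent.H46.Cheb.Core3

/-!
# Closed paths through nine points
-/

namespace Pool.Agent.H46.Cheb

open Finset Complex Metric

lemma abs_facts (t : ℝ) : t ≤ |t| ∧ -t ≤ |t| := ⟨le_abs_self t, neg_le_abs t⟩

lemma path9 (x : Fin 9 → ℝ) (i j : Fin 9) :
    x i - x j ≤ (|x 1 - x 0| + |x 2 - x 1| + |x 3 - x 2| + |x 4 - x 3| + |x 5 - x 4| + |x 6 - x 5|
      + |x 7 - x 6| + |x 8 - x 7| + |x 0 - x 8|) / 2 := by
  have h0 := abs_facts (x 1 - x 0)
  have h1 := abs_facts (x 2 - x 1)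
  have h2 := abs_facts (x 3 - x 2)
  have h3 := abs_facts (x 4 - x 3)
  have h4 := abs_facts (x 5 - x 4)
  have h5 := abs_facts (x 6 - x 5)
  have h6 := abs_facts (x 7 - x 6)
  have h7 := abs_facts (x 8 - x 7)
  have h8 := abs_facts (x 0 - x 8)
  generalize |x 1 - x 0| = a0 at *
  generalize |x 2 - x 1| = a1 at *
  generalize |x 3 - x 2| = a2 at *
  generalize |x 4 - x 3| = a3 at *
  generalize |x 5 - x 4| = a4 at *
  generalize |x 6 - x 5| = a5 at *
  generalize |x 7 - x 6| = a6 at *
  generalize |x 8 - x 7| = a7 at *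
  generalize |x 0 - x 8| = a8 at *
  obtain ⟨h0, h0'⟩ := h0
  obtain ⟨h1, h1'⟩ := h1
  obtain ⟨h2, h2'⟩ := h2
  obtain ⟨h3, h3'⟩ := h3
  obtain ⟨h4, h4'⟩ := h4
  obtain ⟨h5, h5'⟩ := h5
  obtain ⟨h6, h6'⟩ := h6
  obtain ⟨h7, h7'⟩ := h7
  obtain ⟨h8, h8'⟩ := h8
  fin_cases i <;> fin_cases j <;> simp only [Fin.zero_eta, Fin.mk_one, Fin.reduceFinMk] <;> linarith

/-- the sides of a closed path -/
noncomputable def sides (v : Fin 9 → ℂ) (l : Fin 9) : ℂ := v (finRotate 9 l) - v l

lemma perimeter_eq (v : Fin 9 → ℂ) : perimeter v = ∑ l, ‖sides v l‖ := by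
  unfold perimeter sides
  exact Finset.sum_congr rfl fun l _ => by rw [dist_eq_norm, norm_sub_rev]

lemma path_proj (v : Fin 9 → ℂ) (i j : Fin 9) (u : ℂ) : ip (v i - v j) u ≤ wid (sides v) u := by
  have h := path9 (fun l => ip (v l) u) i j
  have e : wid (sides v) u = (|ip (v 1) u - ip (v 0) u| + |ip (v 2) u - ip (v 1) u|
      + |ip (v 3) u - ip (v 2) u| + |ip (v 4) u - ip (v 3) u| + |ip (v 5) u - ip (v 4) u|
      + |ip (v 6) u - ip (v 5) u| + |ip (v 7) u - ip (v 6) u| + |ip (v 8) u - ip (v 7) u|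
      + |ip (v 0) u - ip (v 8) u|) / 2 := by
    unfold wid sides
    simp only [ip_sub]
    rw [Fin.sum_univ_succ, Fin.sum_univ_eight]
    have r0 : finRotate 9 0 = 1 := by decide
    have r1 : finRotate 9 (Fin.succ 0) = 2 := by decide
    have r2 : finRotate 9 (Fin.succ 1) = 3 := by decide
    have r3 : finRotate 9 (Fin.succ 2) = 4 := by decide
    have r4 : finRotate 9 (Fin.succ 3) = 5 := by decide
    have r5 : finRotate 9 (Fin.succ 4) = 6 := by decide
    have r6 : finRotate 9 (Fin.succ 5) = 7 := by decide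
    have r7 : finRotate 9 (Fin.succ 6) = 8 := by decide
    have r8 : finRotate 9 (Fin.succ 7) = 0 := by decide
    rw [r0, r1, r2, r3, r4, r5, r6, r7, r8]
    have s0 : (Fin.succ 0 : Fin 9) = 1 := rfl
    have s1 : (Fin.succ 1 : Fin 9) = 2 := rfl
    have s2 : (Fin.succ 2 : Fin 9) = 3 := rfl
    have s3 : (Fin.succ 3 : Fin 9) = 4 := rfl
    have s4 : (Fin.succ 4 : Fin 9) = 5 := rfl
    have s5 : (Fin.succ 5 : Fin 9) = 6 := rfl
    have s6 : (Fin.succ 6 : Fin 9) = 7 := rfl
    have s7 : (Fin.succ 7 : Fin 9) = 8 := rfl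
    rw [s0, s1, s2, s3, s4, s5, s6, s7]
    ring
  rw [ip_sub, e]
  exact h

lemma path_tri (v : Fin 9 → ℂ) (i j k : Fin 9) :
    ‖v i - v j‖ + ‖v j - v k‖ + ‖v k - v i‖ ≤ perimeter v := by
  have habs : ∀ a b : Fin 9, ∀ t : ℝ, |ip (v a - v b) (uv t)| ≤ wid (sides v) (uv t) := by
    intro a b t
    rw [abs_le]
    constructor
    · have := path_proj v b a (uv t)
      have e : ip (v b - v a) (uv t) = - ip (v a - v b) (uv t) := by rw [ip_sub, ip_sub]; ring
      linarith
    · exact path_proj v a b (uv t)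
  rw [perimeter_eq]
  exact triangle_le _ _ _ _ (habs i j) (habs j k) (habs k i)

lemma path_dist (v : Fin 9 → ℂ) (i j : Fin 9) : 2 * ‖v i - v j‖ ≤ perimeter v := by
  have := path_tri v i j j
  rw [sub_self, norm_zero, norm_sub_rev (v j)] at this
  linarith

/-- a redundant point makes the path long -/
lemma redundant {v : Fin 9 → ℂ} (hC : Cond v) {a b c : Fin 9} (hab : b ≠ a) (hac : c ≠ a)
    (h : v a ∈ segment ℝ (v b) (v c)) : 3.1739 ≤ perimeter v := by
  rw [perimeter_eq]
  refine core (fun l => v (a.succAbove l)) (sides v) (fun i j u => path_proj v _ _ u) ?_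
  intro x hx w
  have hx' : ∀ i, i ≠ a → ‖x - v i‖ < 1 := by
    intro i hi
    obtain ⟨l, hl⟩ := Fin.exists_succAbove_eq hi
    rw [← hl]; exact hx l
  have hxa : ‖x - v a‖ < 1 := by
    have h1 : v b ∈ ball x 1 := by rw [mem_ball, dist_comm, dist_eq_norm]; exact hx' b hab
    have h2 : v c ∈ ball x 1 := by rw [mem_ball, dist_comm, dist_eq_norm]; exact hx' c hac
    have h3 := (convex_ball x 1).segment_subset h1 h2 h
    rw [mem_ball, dist_comm, dist_eq_norm] at h3
    exact h3
  have hall : ∀ i, ‖x - v i‖ < 1 := by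
    intro i
    by_cases hi : i = a
    · rw [hi]; exact hxa
    · exact hx' i hi
  obtain ⟨i, hi⟩ : ∃ i, ip x w ≤ ip (v i) w := by
    rcases hC x w with ⟨i, hi⟩ | h
    · exact absurd (hall i) (not_lt.2 hi)
    · exact h
  have fin : ∀ i, i ≠ a → ip x w ≤ ip (v i) w → ∃ l : Fin 8, ip x w ≤ ip (v (a.succAbove l)) w := by
    intro i hi hle
    obtain ⟨l, hl⟩ := Fin.exists_succAbove_eq hi
    exact ⟨l, by rw [hl]; exact hle⟩
  by_cases hia : i = a
  · rw [hia] at hi
    obtain ⟨s, t, hs, ht, hst, hv⟩ := h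
    have e : ip (v a) w = s * ip (v b) w + t * ip (v c) w := by
      rw [← hv]; simp [ip]; ring
    rcases le_total (ip (v b) w) (ip (v c) w) with hle | hle
    · apply fin c hac
      have h1 := mul_le_mul_of_nonneg_left hle hs
      have h3 : s * ip (v c) w + t * ip (v c) w = ip (v c) w := by rw [← add_mul, hst, one_mul]
      linarith
    · apply fin b hab
      have h1 := mul_le_mul_of_nonneg_left hle ht
      have h3 : s * ip (v b) w + t * ip (v b) w = ip (v b) w := by rw [← add_mul, hst, one_mul]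
      linarith
  · exact fin i hia hi

/-- three collinear points: one lies between the others -/
lemma collinear_cases {a b c : ℂ} (h : cross (b - a) (c - a) = 0) :
    a ∈ segment ℝ b c ∨ b ∈ segment ℝ a c ∨ c ∈ segment ℝ a b := by
  by_cases hab : b = a
  · right; left
    rw [hab]; exact left_mem_segment ℝ a c
  have hne : b - a ≠ 0 := sub_ne_zero.2 hab
  have hpos : 0 < ‖b - a‖ ^ 2 := by
    have := norm_pos_iff.2 hne
    positivity
  set t : ℝ := ip (c - a) (b - a) / ‖b - a‖ ^ 2 with ht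
  have hn : ‖b - a‖ ^ 2 = (b - a).re * (b - a).re + (b - a).im * (b - a).im := by
    rw [← Complex.normSq_eq_norm_sq, Complex.normSq_apply]
  have hc : c - a = t * (b - a) := by
    unfold cross at h
    apply Complex.ext
    · rw [Complex.re_ofReal_mul, ht, ip, div_mul_eq_mul_div, eq_div_iff hpos.ne', hn]
      linear_combination (-(b - a).im) * h
    · rw [Complex.im_ofReal_mul, ht, ip, div_mul_eq_mul_div, eq_div_iff hpos.ne', hn]
      linear_combination ((b - a).re) * h
  have hc' : c = a + t * (b - a) := by rw [← hc]; ring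
  rcases lt_or_ge t 0 with h1 | h1
  · left
    refine ⟨-t / (1 - t), 1 / (1 - t), by apply div_nonneg <;> linarith,
      by apply div_nonneg <;> linarith, ?_, ?_⟩
    · rw [← add_div]
      apply div_eq_one_iff_eq (by linarith) |>.2
      ring
    · have h2 : (1 - t : ℂ) ≠ 0 := by
        have : (1 - t : ℝ) ≠ 0 := by linarith
        exact_mod_cast this
      rw [Complex.real_smul, Complex.real_smul, hc']
      push_cast
      field_simp
      ring
  · rcases le_or_gt t 1 with h2 | h2
    · right; right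
      refine ⟨1 - t, t, by linarith, h1, by ring, ?_⟩
      rw [Complex.real_smul, Complex.real_smul, hc']
      push_cast
      ring
    · right; left
      have h3 : (t : ℂ) ≠ 0 := by
        have : t ≠ 0 := by linarith
        exact_mod_cast this
      refine ⟨(t - 1) / t, 1 / t, by apply div_nonneg <;> linarith,
        by apply div_nonneg <;> linarith, by rw [← add_div]; apply div_eq_one_iff_eq (by linarith) |>.2; ring, ?_⟩
      rw [Complex.real_smul, Complex.real_smul, hc']
      push_cast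
      field_simp
      ring

/-- a degenerate triple makes the path long -/
lemma degenerate {v : Fin 9 → ℂ} (hC : Cond v) {i j k : Fin 9} (hij : i < j) (hjk : j < k)
    (h : cross (v j - v i) (v k - v i) = 0) : 3.1739 ≤ perimeter v := by
  rcases collinear_cases h with h1 | h1 | h1
  · exact redundant hC hij.ne' (hij.trans hjk).ne' h1
  · exact redundant hC hij.ne hjk.ne' h1
  · exact redundant hC (hij.trans hjk).ne hjk.ne h1

end Pool.Agent.H46.Cheb
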