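import Pool.Agent.H46.Cheb.Dir
import Pool.Agent.H46.Cheb.Defs

/-!
# Convex polygons and the self Chebyshev radius
-/

namespace Pool.Agent.H46.Cheb

open Finset Complex Metric

/-! ### separation -/

lemma clm_eq_ip (f : ℂ →L[ℝ] ℝ) (z : ℂ) : f z = ip z ⟨f 1, f I⟩ := by
  have h : z = z.re • (1 : ℂ) + z.im • I := by
    apply Complex.ext <;> simp
  conv_lhs => rw [h]
  rw [map_add, map_smul, map_smul]
  simp [ip]

lemma isCompact_hull {n : ℕ} (v : Fin n → ℂ) : IsCompact (convexHull ℝ (Set.range v)) :=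
  (Set.finite_range v).isCompact_convexHull ℝ

lemma isClosed_hull {n : ℕ} (v : Fin n → ℂ) : IsClosed (convexHull ℝ (Set.range v)) :=
  (isCompact_hull v).isClosed

lemma exists_sep {n : ℕ} (v : Fin n → ℂ) {x : ℂ} (hx : x ∉ convexHull ℝ (Set.range v)) :
    ∃ w : ℂ, ∀ i, ip (v i) w < ip x w := by
  obtain ⟨f, u, h1, h2⟩ := geometric_hahn_banach_closed_point (convex_convexHull ℝ _)
    (isClosed_hull v) hx
  refine ⟨⟨f 1, f I⟩, fun i => ?_⟩
  rw [← clm_eq_ip, ← clm_eq_ip]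
  exact (h1 _ (subset_convexHull ℝ _ ⟨i, rfl⟩)).trans h2

lemma convex_half (w : ℂ) (t : ℝ) : Convex ℝ {z : ℂ | ip z w ≤ t} := by
  intro x hx y hy a b ha hb hab
  have hx' : ip x w ≤ t := hx
  have hy' : ip y w ≤ t := hy
  have : ip (a • x + b • y) w = a * ip x w + b * ip y w := by
    simp [ip]; ring
  show ip (a • x + b • y) w ≤ t
  rw [this]
  have h1 := mul_le_mul_of_nonneg_left hx' ha
  have h2 := mul_le_mul_of_nonneg_left hy' hb
  have h3 : a * t + b * t = t := by rw [← add_mul, hab, one_mul]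
  linarith

lemma hull_le {n : ℕ} {v : Fin n → ℂ} {w : ℂ} {t : ℝ} (h : ∀ i, ip (v i) w ≤ t) {x : ℂ}
    (hx : x ∈ convexHull ℝ (Set.range v)) : ip x w ≤ t := by
  have : convexHull ℝ (Set.range v) ⊆ {z : ℂ | ip z w ≤ t} := by
    apply convexHull_min _ (convex_half w t)
    rintro _ ⟨i, rfl⟩
    exact h i
  exact this hx

lemma hull_exists {n : ℕ} [NeZero n] {v : Fin n → ℂ} {x : ℂ}
    (hx : x ∈ convexHull ℝ (Set.range v)) (w : ℂ) : ∃ i, ip x w ≤ ip (v i) w := by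
  obtain ⟨i, hi⟩ := Finite.exists_max (fun i => ip (v i) w)
  exact ⟨i, hull_le hi hx⟩

/-- the convexity condition used in the compactness argument -/
def Cond {n : ℕ} (v : Fin n → ℂ) : Prop :=
  ∀ x w : ℂ, (∃ i, 1 ≤ ‖x - v i‖) ∨ ∃ i, ip x w ≤ ip (v i) w

lemma Cond.subset {n : ℕ} {v : Fin n → ℂ} (h : Cond v) {x : ℂ} (hx : ∀ i, ‖x - v i‖ < 1) :
    x ∈ convexHull ℝ (Set.range v) := by
  by_contra hcon
  obtain ⟨w, hw⟩ := exists_sep v hcon
  rcases h x w with ⟨i, hi⟩ | ⟨i, hi⟩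
  · exact absurd (hx i) (not_lt.2 hi)
  · exact absurd (hw i) (not_lt.2 hi)

/-- supporting lines -/
lemma mem_boundary {n : ℕ} {v : Fin n → ℂ} {y w : ℂ} (hy : y ∈ convexHull ℝ (Set.range v))
    (hw : w ≠ 0) (h : ∀ i, ip (v i) w ≤ ip y w) : y ∈ boundary v := by
  unfold boundary frontier
  refine ⟨subset_closure hy, fun hint => ?_⟩
  rw [mem_interior_iff_mem_nhds, Metric.mem_nhds_iff] at hint
  obtain ⟨ε, hε, hb⟩ := hint
  have hw' : 0 < ‖w‖ := norm_pos_iff.2 hw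
  have hz : y + ((ε / 2 / ‖w‖ : ℝ) : ℂ) * w ∈ ball y ε := by
    rw [mem_ball, dist_eq_norm, add_sub_cancel_left, norm_mul, Complex.norm_real,
      Real.norm_eq_abs, abs_of_pos (by positivity), div_mul_cancel₀ _ hw'.ne']
    linarith
  have h1 := hull_le h (hb hz)
  rw [ip_add, ip_smul_left] at h1
  have h2 : ip w w = ‖w‖ ^ 2 := by
    rw [← Complex.normSq_eq_norm_sq, Complex.normSq_apply, ip]
  rw [h2] at h1
  have h3 : 0 < ε / 2 / ‖w‖ * ‖w‖ ^ 2 := by positivity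
  linarith

lemma boundary_subset {n : ℕ} (v : Fin n → ℂ) : boundary v ⊆ convexHull ℝ (Set.range v) :=
  (isClosed_hull v).frontier_subset

/-- a farthest vertex is in the boundary -/
lemma far_mem_boundary {n : ℕ} {v : Fin n → ℂ} {y : ℂ} {i : Fin n} (hpos : y ≠ v i)
    (hi : ∀ j, ‖y - v j‖ ≤ ‖y - v i‖) : v i ∈ boundary v := by
  refine mem_boundary (w := v i - y) (subset_convexHull ℝ _ ⟨i, rfl⟩)
    (sub_ne_zero.2 (Ne.symm hpos)) fun j => ?_
  have h1 : ip (v j - y) (v i - y) ≤ ‖v j - y‖ * ‖v i - y‖ := ip_le_norm _ _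
  have h2 : ip (v i - y) (v i - y) = ‖v i - y‖ ^ 2 := by
    rw [← Complex.normSq_eq_norm_sq, Complex.normSq_apply, ip]
  have h3 : ‖v j - y‖ ≤ ‖v i - y‖ := by rw [norm_sub_rev, norm_sub_rev (v i)]; exact hi j
  have h4 : ‖v j - y‖ * ‖v i - y‖ ≤ ‖v i - y‖ ^ 2 := by
    rw [sq]; exact mul_le_mul_of_nonneg_right h3 (norm_nonneg _)
  rw [ip_sub] at h1 h2
  linarith

/-! ### the self Chebyshev radius of the boundary -/

lemma bounded_boundary {n : ℕ} (v : Fin n → ℂ) : Bornology.IsBounded (boundary v) :=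
  (isCompact_hull v).isBounded.subset (boundary_subset v)

lemma bddAbove_dist {Γ : Set ℂ} (hΓ : Bornology.IsBounded Γ) (x : ℂ) :
    BddAbove (Set.range fun y : Γ => dist x (y : ℂ)) := by
  obtain ⟨R, hR⟩ := hΓ.subset_closedBall x
  refine ⟨R, ?_⟩
  rintro _ ⟨y, rfl⟩
  have := hR y.2
  rw [mem_closedBall, dist_comm] at this
  exact this

lemma le_selfRadius {Γ : Set ℂ} (hΓ : Bornology.IsBounded Γ) (hne : Γ.Nonempty) {t : ℝ}
    (h : ∀ x ∈ Γ, ∃ y ∈ Γ, t ≤ dist x y) : t ≤ selfRadius Γ := by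
  haveI : Nonempty Γ := hne.to_subtype
  refine le_ciInf fun x => ?_
  obtain ⟨y, hy, hxy⟩ := h x x.2
  exact hxy.trans (le_ciSup (bddAbove_dist hΓ x) (⟨y, hy⟩ : Γ))

lemma selfRadius_le {Γ : Set ℂ} {x : ℂ} (hx : x ∈ Γ) {t : ℝ}
    (h : ∀ y ∈ Γ, dist x y ≤ t) : selfRadius Γ ≤ t := by
  haveI : Nonempty Γ := ⟨⟨x, hx⟩⟩
  have hb : BddBelow (Set.range fun x : Γ => ⨆ y : Γ, dist (x : ℂ) (y : ℂ)) :=
    ⟨0, by rintro _ ⟨z, rfl⟩; exact Real.iSup_nonneg fun _ => dist_nonneg⟩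
  exact (ciInf_le hb ⟨x, hx⟩).trans (ciSup_le fun y => h y y.2)

lemma exists_vertex_dist {n : ℕ} [NeZero n] {v : Fin n → ℂ} {y : ℂ} (hy : y ∈ boundary v) :
    ∃ i, selfRadius (boundary v) ≤ ‖y - v i‖ := by
  obtain ⟨i, hi⟩ := Finite.exists_max (fun i => dist (v i) y)
  refine ⟨i, selfRadius_le hy fun z hz => ?_⟩
  obtain ⟨_, ⟨j, rfl⟩, hj⟩ := convexHull_exists_dist_ge (boundary_subset v hz) y
  rw [dist_comm, ← dist_eq_norm, dist_comm y]
  exact hj.trans (hi j)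

/-- lower bound for the radius through vertices -/
lemma le_selfRadius_boundary {n : ℕ} [NeZero n] {v : Fin n → ℂ} {t : ℝ} (ht : 0 < t)
    (hne : (boundary v).Nonempty)
    (h : ∀ y ∈ boundary v, ∃ i, t ≤ ‖y - v i‖) : t ≤ selfRadius (boundary v) := by
  refine le_selfRadius (bounded_boundary v) hne fun y hy => ?_
  obtain ⟨i, hi⟩ := Finite.exists_max (fun i => ‖y - v i‖)
  obtain ⟨j, hj⟩ := h y hy
  have h1 : t ≤ ‖y - v i‖ := hj.trans (hi j)
  refine ⟨v i, far_mem_boundary (y := y) ?_ hi, by rwa [dist_eq_norm]⟩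
  intro he
  rw [he, sub_self, norm_zero] at h1
  linarith

lemma boundary_nonempty {n : ℕ} [NeZero n] {v : Fin n → ℂ} {i j : Fin n} (hij : v i ≠ v j) :
    (boundary v).Nonempty := by
  obtain ⟨l, hl⟩ := Finite.exists_max (fun l => ‖v i - v l‖)
  refine ⟨v l, far_mem_boundary (y := v i) ?_ hl⟩
  intro he
  have := hl j
  rw [← he, sub_self, norm_zero] at this
  have h2 : ‖v i - v j‖ = 0 := le_antisymm this (norm_nonneg _)
  exact hij (sub_eq_zero.1 (norm_eq_zero.1 h2))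

lemma selfRadius_pos {n : ℕ} [NeZero n] {v : Fin n → ℂ} {i j : Fin n} (hij : v i ≠ v j) :
    0 < selfRadius (boundary v) := by
  have hpos : 0 < ‖v i - v j‖ := norm_pos_iff.2 (sub_ne_zero.2 hij)
  refine lt_of_lt_of_le (half_pos hpos) (le_selfRadius_boundary (half_pos hpos)
    (boundary_nonempty hij) fun y _ => ?_)
  by_contra hcon
  push Not at hcon
  have h1 := hcon i
  have h2 := hcon j
  have h3 : ‖v i - v j‖ ≤ ‖y - v i‖ + ‖y - v j‖ := by
    calc ‖v i - v j‖ = ‖-(y - v i) + (y - v j)‖ := by congr 1; ring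
      _ ≤ ‖-(y - v i)‖ + ‖y - v j‖ := norm_add_le _ _
      _ = _ := by rw [norm_neg]
  linarith

/-- if `Cond` holds the radius is at least one -/
lemma Cond.one_le {n : ℕ} [NeZero n] {v : Fin n → ℂ} (h : Cond v) {i j : Fin n}
    (hij : v i ≠ v j) : 1 ≤ selfRadius (boundary v) := by
  refine le_selfRadius_boundary one_pos (boundary_nonempty hij) fun y hy => ?_
  by_contra hcon
  push Not at hcon
  have hopen : IsOpen {x : ℂ | ∀ l, ‖x - v l‖ < 1} := by
    have : {x : ℂ | ∀ l, ‖x - v l‖ < 1} = ⋂ l, {x : ℂ | ‖x - v l‖ < 1} := by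
      ext x; simp
    rw [this]
    exact isOpen_iInter_of_finite fun l => isOpen_lt (by fun_prop) continuous_const
  have hsub : {x : ℂ | ∀ l, ‖x - v l‖ < 1} ⊆ interior (convexHull ℝ (Set.range v)) :=
    interior_maximal (fun x hx => h.subset hx) hopen
  exact hy.2 (hsub hcon)

/-- conversely, the radius controls the intersection of the discs -/
lemma mem_hull_of_lt {n : ℕ} [NeZero n] {v : Fin n → ℂ} {m : ℂ}
    (hm : m ∈ convexHull ℝ (Set.range v)) (hm' : ∀ i, ‖m - v i‖ < selfRadius (boundary v)) {x : ℂ}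
    (hx : ∀ i, ‖x - v i‖ < selfRadius (boundary v)) : x ∈ convexHull ℝ (Set.range v) := by
  by_contra hcon
  set δ := selfRadius (boundary v) with hδ
  set U : Set ℂ := ⋂ i, ball (v i) δ with hU
  have hconv : Convex ℝ U := convex_iInter fun i => convex_ball _ _
  have hmU : m ∈ U := by
    rw [hU, Set.mem_iInter]
    intro i
    rw [mem_ball, dist_eq_norm]
    exact hm' i
  have hxU : x ∈ U := by
    rw [hU, Set.mem_iInter]
    intro i
    rw [mem_ball, dist_eq_norm]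
    exact hx i
  have hno : ∀ z ∈ U, z ∉ boundary v := by
    intro z hz1 hz2
    obtain ⟨i, hi⟩ := exists_vertex_dist (v := v) hz2
    rw [hU, Set.mem_iInter] at hz1
    have := hz1 i
    rw [mem_ball, dist_eq_norm] at this
    linarith
  have hint : ∀ z ∈ U, z ∈ convexHull ℝ (Set.range v) →
      z ∈ interior (convexHull ℝ (Set.range v)) := by
    intro z hz1 hz2
    by_contra h
    exact hno z hz1 ⟨subset_closure hz2, h⟩
  obtain ⟨z, _, hz1, hz2⟩ := hconv.isPreconnected (interior (convexHull ℝ (Set.range v)))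
    (convexHull ℝ (Set.range v))ᶜ isOpen_interior (isClosed_hull v).isOpen_compl
    (fun z hz => by
      by_cases h : z ∈ convexHull ℝ (Set.range v)
      · exact Or.inl (hint z hz h)
      · exact Or.inr h) ⟨m, hmU, hint m hmU hm⟩ ⟨x, hxU, hcon⟩
  exact hz2 (interior_subset hz1)

end Pool.Agent.H46.Cheb
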