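import Pool.Agent.H46.Cheb.Compact

/-!
# The non-regular Reinhardt nonagon
-/

namespace Pool.Agent.H46.Cheb

open Finset Complex Metric

/-- unit vector at angle `x * 20` degrees -/
noncomputable def ee (x : ℝ) : ℂ := exp ((x * (Real.pi / 9) : ℝ) * I)

lemma ee_re (x : ℝ) : (ee x).re = Real.cos (x * (Real.pi / 9)) := by
  unfold ee; rw [Complex.exp_ofReal_mul_I_re]

lemma ee_im (x : ℝ) : (ee x).im = Real.sin (x * (Real.pi / 9)) := by
  unfold ee; rw [Complex.exp_ofReal_mul_I_im]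

lemma norm_ee (x : ℝ) : ‖ee x‖ = 1 := by
  unfold ee; exact Complex.norm_exp_ofReal_mul_I _

lemma ee_add (x y : ℝ) : ee (x + y) = ee x * ee y := by
  unfold ee
  rw [← Complex.exp_add]
  congr 1
  push_cast
  ring

lemma ee_zero : ee 0 = 1 := by unfold ee; simp

lemma ee_nine : ee 9 = -1 := by
  unfold ee
  have : (9 * (Real.pi / 9) : ℝ) = Real.pi := by ring
  rw [this, Complex.exp_pi_mul_I]

lemma ee_add_nine (x : ℝ) : ee (x + 9) = - ee x := by rw [ee_add, ee_nine]; ring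

lemma ee_three : ee 3 = ⟨1 / 2, Real.sqrt 3 / 2⟩ := by
  apply Complex.ext
  · rw [ee_re]
    have : (3 * (Real.pi / 9) : ℝ) = Real.pi / 3 := by ring
    rw [this, Real.cos_pi_div_three]
  · rw [ee_im]
    have : (3 * (Real.pi / 9) : ℝ) = Real.pi / 3 := by ring
    rw [this, Real.sin_pi_div_three]

lemma ee_six : 1 + ee 6 = ee 3 := by
  have h6 : ee 6 = ee 3 * ee 3 := by rw [← ee_add]; norm_num
  rw [h6, ee_three]
  have h3 : Real.sqrt 3 * Real.sqrt 3 = 3 := Real.mul_self_sqrt (by norm_num)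
  apply Complex.ext
  · simp only [Complex.add_re, Complex.one_re, Complex.mul_re]
    linarith
  · simp only [Complex.add_im, Complex.one_im, Complex.mul_im]
    ring

/-- centers -/
noncomputable def ctr : Fin 9 → ℂ := ![0, 0, 0, 1, 1, 1, ee 3, ee 3, ee 3]

/-- angles -/
def ang : Fin 9 → ℝ := ![0, 1, 2, 6, 7, 8, 12, 13, 14]

/-- the Reinhardt nonagon -/
noncomputable def rein (i : Fin 9) : ℂ := ctr i + ee (ang i)

lemma rein_next (i : Fin 9) : rein (finRotate 9 i) = ctr i + ee (ang i + 1) := by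
  have h9 : ee 9 = -1 := ee_nine
  have h12 : ee 12 = - ee 3 := by
    have := ee_add_nine 3
    norm_num at this; exact this
  have h15 : ee 15 = - ee 6 := by
    have := ee_add_nine 6
    norm_num at this; exact this
  have h36 := ee_six
  fin_cases i
  · show rein (finRotate 9 0) = ctr 0 + ee (ang 0 + 1)
    rw [show finRotate 9 0 = 1 by decide]
    show (0 : ℂ) + ee 1 = 0 + ee (0 + 1)
    norm_num
  · show rein (finRotate 9 1) = ctr 1 + ee (ang 1 + 1)
    rw [show finRotate 9 1 = 2 by decide]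
    show (0 : ℂ) + ee 2 = 0 + ee (1 + 1)
    norm_num
  · show rein (finRotate 9 2) = ctr 2 + ee (ang 2 + 1)
    rw [show finRotate 9 2 = 3 by decide]
    show (1 : ℂ) + ee 6 = 0 + ee (2 + 1)
    norm_num
    exact h36
  · show rein (finRotate 9 3) = ctr 3 + ee (ang 3 + 1)
    rw [show finRotate 9 3 = 4 by decide]
    show (1 : ℂ) + ee 7 = 1 + ee (6 + 1)
    norm_num
  · show rein (finRotate 9 4) = ctr 4 + ee (ang 4 + 1)
    rw [show finRotate 9 4 = 5 by decide]
    show (1 : ℂ) + ee 8 = 1 + ee (7 + 1)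
    norm_num
  · show rein (finRotate 9 5) = ctr 5 + ee (ang 5 + 1)
    rw [show finRotate 9 5 = 6 by decide]
    show ee 3 + ee 12 = 1 + ee (8 + 1)
    norm_num
    rw [h12, h9]; ring
  · show rein (finRotate 9 6) = ctr 6 + ee (ang 6 + 1)
    rw [show finRotate 9 6 = 7 by decide]
    show ee 3 + ee 13 = ee 3 + ee (12 + 1)
    norm_num
  · show rein (finRotate 9 7) = ctr 7 + ee (ang 7 + 1)
    rw [show finRotate 9 7 = 8 by decide]
    show ee 3 + ee 14 = ee 3 + ee (13 + 1)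
    norm_num
  · show rein (finRotate 9 8) = ctr 8 + ee (ang 8 + 1)
    rw [show finRotate 9 8 = 0 by decide]
    show (0 : ℂ) + ee 0 = ee 3 + ee (14 + 1)
    norm_num
    rw [h15, ee_zero, ← h36]; ring

lemma ctr_vertex (i : Fin 9) : ∃ j, ctr i = rein j := by
  have h0 : (0 : ℂ) = rein 6 := by
    show (0 : ℂ) = ee 3 + ee 12
    have := ee_add_nine 3
    norm_num at this
    rw [this]; ring
  have h1 : (1 : ℂ) = rein 0 := by
    show (1 : ℂ) = 0 + ee 0
    rw [ee_zero]; ring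
  have h3 : ee 3 = rein 3 := by
    show ee 3 = 1 + ee 6
    rw [ee_six]
  fin_cases i
  · exact ⟨6, h0⟩
  · exact ⟨6, h0⟩
  · exact ⟨6, h0⟩
  · exact ⟨0, h1⟩
  · exact ⟨0, h1⟩
  · exact ⟨0, h1⟩
  · exact ⟨3, h3⟩
  · exact ⟨3, h3⟩
  · exact ⟨3, h3⟩

/-! ### numerical values -/

lemma s_bounds : 0.17364 ≤ Real.sin (Real.pi / 18) ∧ Real.sin (Real.pi / 18) ≤ 0.1736489 := by
  have h1 := Real.pi_gt_d6
  have h2 := Real.pi_lt_d6
  set x := Real.pi / 18 with hx
  have hx1 : 0.1745328 ≤ x := by rw [hx]; norm_num at h1 ⊢; linarith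
  have hx2 : x ≤ 0.17453295 := by rw [hx]; norm_num at h2 ⊢; linarith
  have hx0 : 0 ≤ x := by norm_num at hx1; linarith
  have hb := Real.sin_bound (x := x) (by rw [abs_of_nonneg hx0]; norm_num at hx2; linarith)
  rw [abs_of_nonneg hx0, abs_le] at hb
  have h3 : (0.1745328 : ℝ) ^ 3 ≤ x ^ 3 := pow_le_pow_left₀ (by norm_num) hx1 3
  have h4 : x ^ 3 ≤ (0.17453295 : ℝ) ^ 3 := pow_le_pow_left₀ hx0 hx2 3
  have h5 : x ^ 5 ≤ (0.17453295 : ℝ) ^ 5 := pow_le_pow_left₀ hx0 hx2 5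
  obtain ⟨hb1, hb2⟩ := hb
  norm_num at h3 h4 h5 hx1 hx2 hb1 hb2 ⊢
  constructor <;> linarith

lemma c_bounds : 0.9848 ≤ Real.cos (Real.pi / 18) ∧ Real.cos (Real.pi / 18) ≤ 0.98481 := by
  obtain ⟨h1, h2⟩ := s_bounds
  have h3 := Real.sin_sq_add_cos_sq (Real.pi / 18)
  have h4 : 0 ≤ Real.cos (Real.pi / 18) := by
    apply Real.cos_nonneg_of_mem_Icc
    constructor <;> linarith [Real.pi_pos]
  norm_num at h1 h2
  constructor
  · norm_num; nlinarith
  · norm_num; nlinarith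

end Pool.Agent.H46.Cheb
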