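import Pool.Agent.H46.Cheb.Rein

/-!
# The non-regular Reinhardt nonagon, continued
-/

namespace Pool.Agent.H46.Cheb

open Finset Complex Metric

/-- integer approximations of the real parts, unit 1/1000 -/
def qre : Fin 9 → ℤ := ![1000, 940, 766, 500, 234, 60, 0, 326, 674]
/-- integer approximations of the imaginary parts -/
def qim : Fin 9 → ℤ := ![0, 342, 643, 866, 643, 342, 0, -119, -119]

lemma perturb {x1 x2 y1 y2 z1 z2 a1 a2 b1 b2 c1 c2 : ℝ} (h1 : |1000 * x1 - a1| ≤ 1)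
    (h2 : |1000 * x2 - a2| ≤ 1) (h3 : |1000 * y1 - b1| ≤ 1) (h4 : |1000 * y2 - b2| ≤ 1)
    (h5 : |1000 * z1 - c1| ≤ 1) (h6 : |1000 * z2 - c2| ≤ 1)
    (k1 : |b1 - a1| ≤ 1000) (k2 : |b2 - a2| ≤ 1000) (k3 : |c1 - a1| ≤ 1000)
    (k4 : |c2 - a2| ≤ 1000) (h : 8010 ≤ (b1 - a1) * (c2 - a2) - (b2 - a2) * (c1 - a1)) :
    0 < (y1 - x1) * (z2 - x2) - (y2 - x2) * (z1 - x1) := by
  set α := 1000 * (y1 - x1) - (b1 - a1) with hα
  set β := 1000 * (z2 - x2) - (c2 - a2) with hβ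
  set γ := 1000 * (y2 - x2) - (b2 - a2) with hγ
  set κ := 1000 * (z1 - x1) - (c1 - a1) with hκ
  have hα' : |α| ≤ 2 := by
    rw [abs_le] at *; constructor <;> linarith [h1.1, h1.2, h3.1, h3.2]
  have hβ' : |β| ≤ 2 := by
    rw [abs_le] at *; constructor <;> linarith [h2.1, h2.2, h6.1, h6.2]
  have hγ' : |γ| ≤ 2 := by
    rw [abs_le] at *; constructor <;> linarith [h2.1, h2.2, h4.1, h4.2]
  have hκ' : |κ| ≤ 2 := by
    rw [abs_le] at *; constructor <;> linarith [h1.1, h1.2, h5.1, h5.2]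
  have p1 : |(b1 - a1) * β| ≤ 1000 * 2 := by
    rw [abs_mul]; exact mul_le_mul k1 hβ' (abs_nonneg _) (by norm_num)
  have p2 : |α * (c2 - a2)| ≤ 2 * 1000 := by
    rw [abs_mul]; exact mul_le_mul hα' k4 (abs_nonneg _) (by norm_num)
  have p3 : |(b2 - a2) * κ| ≤ 1000 * 2 := by
    rw [abs_mul]; exact mul_le_mul k2 hκ' (abs_nonneg _) (by norm_num)
  have p4 : |γ * (c1 - a1)| ≤ 2 * 1000 := by
    rw [abs_mul]; exact mul_le_mul hγ' k3 (abs_nonneg _) (by norm_num)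
  have p5 : |α * β| ≤ 2 * 2 := by
    rw [abs_mul]; exact mul_le_mul hα' hβ' (abs_nonneg _) (by norm_num)
  have p6 : |γ * κ| ≤ 2 * 2 := by
    rw [abs_mul]; exact mul_le_mul hγ' hκ' (abs_nonneg _) (by norm_num)
  have e : 1000000 * ((y1 - x1) * (z2 - x2) - (y2 - x2) * (z1 - x1))
      = (b1 - a1) * (c2 - a2) - (b2 - a2) * (c1 - a1) + (b1 - a1) * β + α * (c2 - a2)
        - (b2 - a2) * κ - γ * (c1 - a1) + α * β - γ * κ := by
    rw [hα, hβ, hγ, hκ]; ring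
  have q1 := (abs_le.1 p1).1
  have q2 := (abs_le.1 p2).1
  have q3 := (abs_le.1 p3).2
  have q4 := (abs_le.1 p4).2
  have q5 := (abs_le.1 p5).1
  have q6 := (abs_le.1 p6).2
  linarith

lemma q_check : ∀ i j k : Fin 9, i < j → j < k →
    (|qre j - qre i| ≤ 1000 ∧ |qim j - qim i| ≤ 1000 ∧ |qre k - qre i| ≤ 1000 ∧
      |qim k - qim i| ≤ 1000) ∧
    8010 ≤ (qre j - qre i) * (qim k - qim i) - (qim j - qim i) * (qre k - qre i) := by
  decide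

lemma cos20 : Real.cos (Real.pi / 9) = 1 - 2 * Real.sin (Real.pi / 18) ^ 2 := by
  have : Real.pi / 9 = 2 * (Real.pi / 18) := by ring
  rw [this, Real.cos_two_mul, Real.cos_sq']; ring

lemma sin20 : Real.sin (Real.pi / 9) = 2 * Real.sin (Real.pi / 18) * Real.cos (Real.pi / 18) := by
  have : Real.pi / 9 = 2 * (Real.pi / 18) := by ring
  rw [this, Real.sin_two_mul]

lemma b20 : (0.9396 ≤ Real.cos (Real.pi / 9) ∧ Real.cos (Real.pi / 9) ≤ 0.9398) ∧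
    (0.3419 ≤ Real.sin (Real.pi / 9) ∧ Real.sin (Real.pi / 9) ≤ 0.3421) := by
  obtain ⟨s1, s2⟩ := s_bounds
  obtain ⟨c1, c2⟩ := c_bounds
  rw [cos20, sin20]
  set s := Real.sin (Real.pi / 18)
  set c := Real.cos (Real.pi / 18)
  norm_num at s1 s2 c1 c2 ⊢
  refine ⟨⟨by nlinarith, by nlinarith⟩, ⟨by nlinarith, by nlinarith⟩⟩

lemma b40 : (0.7655 ≤ Real.cos (2 * (Real.pi / 9)) ∧ Real.cos (2 * (Real.pi / 9)) ≤ 0.7665) ∧
    (0.6424 ≤ Real.sin (2 * (Real.pi / 9)) ∧ Real.sin (2 * (Real.pi / 9)) ≤ 0.6432) := by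
  obtain ⟨⟨c1, c2⟩, ⟨s1, s2⟩⟩ := b20
  rw [Real.cos_two_mul, Real.sin_two_mul]
  set s := Real.sin (Real.pi / 9)
  set c := Real.cos (Real.pi / 9)
  norm_num at s1 s2 c1 c2 ⊢
  refine ⟨⟨by nlinarith, by nlinarith⟩, ⟨by nlinarith, by nlinarith⟩⟩

lemma b3 : 0.866 ≤ Real.sqrt 3 / 2 ∧ Real.sqrt 3 / 2 ≤ 0.8661 := by
  have h1 : (1.732 : ℝ) ≤ Real.sqrt 3 := Real.le_sqrt_of_sq_le (by norm_num)
  have h2 : Real.sqrt 3 ≤ (1.7322 : ℝ) := Real.sqrt_le_iff.2 ⟨by norm_num, by norm_num⟩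
  norm_num at h1 h2 ⊢
  constructor <;> linarith

lemma ee7 : ee 7 = ⟨-Real.cos (2 * (Real.pi / 9)), Real.sin (2 * (Real.pi / 9))⟩ := by
  have e : (7 * (Real.pi / 9) : ℝ) = Real.pi - 2 * (Real.pi / 9) := by ring
  apply Complex.ext
  · rw [ee_re, e, Real.cos_pi_sub]
  · rw [ee_im, e, Real.sin_pi_sub]

lemma ee8 : ee 8 = ⟨-Real.cos (Real.pi / 9), Real.sin (Real.pi / 9)⟩ := by
  have e : (8 * (Real.pi / 9) : ℝ) = Real.pi - Real.pi / 9 := by ring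
  apply Complex.ext
  · rw [ee_re, e, Real.cos_pi_sub]
  · rw [ee_im, e, Real.sin_pi_sub]

lemma ee13 : ee 13 = ⟨-Real.sin (Real.pi / 18), -Real.cos (Real.pi / 18)⟩ := by
  have e : (13 * (Real.pi / 9) : ℝ) = Real.pi / 2 - Real.pi / 18 + Real.pi := by ring
  apply Complex.ext
  · rw [ee_re, e, Real.cos_add_pi, Real.cos_pi_div_two_sub]
  · rw [ee_im, e, Real.sin_add_pi, Real.sin_pi_div_two_sub]

lemma ee14 : ee 14 = ⟨Real.sin (Real.pi / 18), -Real.cos (Real.pi / 18)⟩ := by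
  have e : (14 * (Real.pi / 9) : ℝ) = Real.pi / 18 - Real.pi / 2 + 2 * Real.pi := by ring
  apply Complex.ext
  · rw [ee_re, e, Real.cos_add_two_pi, Real.cos_sub_pi_div_two]
  · rw [ee_im, e, Real.sin_add_two_pi, Real.sin_sub_pi_div_two]

lemma rein_approx (i : Fin 9) :
    |1000 * (rein i).re - qre i| ≤ 1 ∧ |1000 * (rein i).im - qim i| ≤ 1 := by
  obtain ⟨⟨c1, c1'⟩, ⟨s1, s1'⟩⟩ := b20
  obtain ⟨⟨c2, c2'⟩, ⟨s2, s2'⟩⟩ := b40
  obtain ⟨r1, r2⟩ := b3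
  obtain ⟨s0, s0'⟩ := s_bounds
  obtain ⟨c0, c0'⟩ := c_bounds
  norm_num at c1 c1' s1 s1' c2 c2' s2 s2' r1 r2 s0 s0' c0 c0'
  have e0 : rein 0 = 1 := by
    show (0 : ℂ) + ee 0 = 1
    rw [ee_zero]; ring
  have e1 : rein 1 = ⟨Real.cos (Real.pi / 9), Real.sin (Real.pi / 9)⟩ := by
    show (0 : ℂ) + ee 1 = _
    apply Complex.ext
    · rw [zero_add, ee_re, one_mul]
    · rw [zero_add, ee_im, one_mul]
  have e2 : rein 2 = ⟨Real.cos (2 * (Real.pi / 9)), Real.sin (2 * (Real.pi / 9))⟩ := by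
    show (0 : ℂ) + ee 2 = _
    apply Complex.ext
    · rw [zero_add, ee_re]
    · rw [zero_add, ee_im]
  have e3 : rein 3 = ⟨1 / 2, Real.sqrt 3 / 2⟩ := by
    show (1 : ℂ) + ee 6 = _
    rw [ee_six, ee_three]
  have e4 : rein 4 = 1 + ee 7 := rfl
  have e5 : rein 5 = 1 + ee 8 := rfl
  have e6 : rein 6 = 0 := by
    show ee 3 + ee 12 = 0
    have := ee_add_nine 3
    norm_num at this
    rw [this]; ring
  have e7 : rein 7 = ee 3 + ee 13 := rfl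
  have e8 : rein 8 = ee 3 + ee 14 := rfl
  fin_cases i
  · show |1000 * (rein 0).re - (1000 : ℤ)| ≤ 1 ∧ |1000 * (rein 0).im - (0 : ℤ)| ≤ 1
    rw [e0]; norm_num
  · show |1000 * (rein 1).re - (940 : ℤ)| ≤ 1 ∧ |1000 * (rein 1).im - (342 : ℤ)| ≤ 1
    rw [e1, abs_le, abs_le]
    push_cast
    refine ⟨⟨by linarith, by linarith⟩, ⟨by linarith, by linarith⟩⟩
  · show |1000 * (rein 2).re - (766 : ℤ)| ≤ 1 ∧ |1000 * (rein 2).im - (643 : ℤ)| ≤ 1
    rw [e2, abs_le, abs_le]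
    push_cast
    refine ⟨⟨by linarith, by linarith⟩, ⟨by linarith, by linarith⟩⟩
  · show |1000 * (rein 3).re - (500 : ℤ)| ≤ 1 ∧ |1000 * (rein 3).im - (866 : ℤ)| ≤ 1
    rw [e3, abs_le, abs_le]
    push_cast
    refine ⟨⟨by linarith, by linarith⟩, ⟨by linarith, by linarith⟩⟩
  · show |1000 * (rein 4).re - (234 : ℤ)| ≤ 1 ∧ |1000 * (rein 4).im - (643 : ℤ)| ≤ 1
    rw [e4, ee7, abs_le, abs_le]
    simp only [Complex.add_re, Complex.one_re, Complex.add_im, Complex.one_im]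
    push_cast
    refine ⟨⟨by linarith, by linarith⟩, ⟨by linarith, by linarith⟩⟩
  · show |1000 * (rein 5).re - (60 : ℤ)| ≤ 1 ∧ |1000 * (rein 5).im - (342 : ℤ)| ≤ 1
    rw [e5, ee8, abs_le, abs_le]
    simp only [Complex.add_re, Complex.one_re, Complex.add_im, Complex.one_im]
    push_cast
    refine ⟨⟨by linarith, by linarith⟩, ⟨by linarith, by linarith⟩⟩
  · show |1000 * (rein 6).re - (0 : ℤ)| ≤ 1 ∧ |1000 * (rein 6).im - (0 : ℤ)| ≤ 1
    rw [e6]; norm_num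
  · show |1000 * (rein 7).re - (326 : ℤ)| ≤ 1 ∧ |1000 * (rein 7).im - (-119 : ℤ)| ≤ 1
    rw [e7, ee13, ee_three, abs_le, abs_le]
    simp only [Complex.add_re, Complex.add_im]
    push_cast
    refine ⟨⟨by linarith, by linarith⟩, ⟨by linarith, by linarith⟩⟩
  · show |1000 * (rein 8).re - (674 : ℤ)| ≤ 1 ∧ |1000 * (rein 8).im - (-119 : ℤ)| ≤ 1
    rw [e8, ee14, ee_three, abs_le, abs_le]
    simp only [Complex.add_re, Complex.add_im]
    push_cast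
    refine ⟨⟨by linarith, by linarith⟩, ⟨by linarith, by linarith⟩⟩

theorem rein_convex : IsConvexNGon rein := by
  refine ⟨by norm_num, fun i j k hij hjk => ?_⟩
  obtain ⟨⟨k1, k2, k3, k4⟩, h⟩ := q_check i j k hij hjk
  obtain ⟨a1, a2⟩ := rein_approx i
  obtain ⟨b1, b2⟩ := rein_approx j
  obtain ⟨c1, c2⟩ := rein_approx k
  have := perturb a1 a2 b1 b2 c1 c2 (by exact_mod_cast k1) (by exact_mod_cast k2)
    (by exact_mod_cast k3) (by exact_mod_cast k4) (by exact_mod_cast h)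
  unfold cross
  simp only [Complex.sub_re, Complex.sub_im]
  exact this

end Pool.Agent.H46.Cheb
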