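import Pool.Agent.H46.Cheb.Rein2

/-!
# The Reinhardt nonagon: radius, perimeter, irregularity; the regular nonagon
-/

namespace Pool.Agent.H46.Cheb

open Finset Complex Metric

lemma orient_cyc (a b c : ℂ) : cross (b - a) (c - a) = cross (c - b) (a - b) := by
  unfold cross
  simp only [Complex.sub_re, Complex.sub_im]
  ring

lemma orient_next {v : Fin 9 → ℂ} (h : IsConvexNGon v) (i : Fin 9) :
    0 < cross (v (finRotate 9 i) - v i) (v (finRotate 9 (finRotate 9 i)) - v i) := by
  have key : ∀ i : Fin 9, (i < finRotate 9 i ∧ finRotate 9 i < finRotate 9 (finRotate 9 i)) ∨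
      (finRotate 9 i < finRotate 9 (finRotate 9 i) ∧ finRotate 9 (finRotate 9 i) < i) ∨
      (finRotate 9 (finRotate 9 i) < i ∧ i < finRotate 9 i) := by decide
  rcases key i with ⟨h1, h2⟩ | ⟨h1, h2⟩ | ⟨h1, h2⟩
  · exact h.2 _ _ _ h1 h2
  · rw [orient_cyc]
    exact h.2 _ _ _ h1 h2
  · rw [orient_cyc, orient_cyc]
    exact h.2 _ _ _ h1 h2

/-- a point strictly on the inner side of all sides is in the hull -/
lemma mem_hull_of_pos {v : Fin 9 → ℂ} (h : IsConvexNGon v) {z : ℂ}
    (hz : ∀ i, 0 < cross (v (finRotate 9 i) - v i) (z - v i)) :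
    z ∈ convexHull ℝ (Set.range v) := by
  by_contra hcon
  obtain ⟨w, hw⟩ := exists_sep v hcon
  obtain ⟨j, hj⟩ := Finite.exists_max (fun i => ip (v i) w)
  obtain ⟨i, rfl⟩ : ∃ i, finRotate 9 i = j := (finRotate 9).surjective j
  have h1 := hz i
  have h2 := hz (finRotate 9 i)
  have h3 := orient_next h i
  have a1 := hj i
  have a2 := hj (finRotate 9 (finRotate 9 i))
  have a3 := hw (finRotate 9 i)
  set p := v i
  set q := v (finRotate 9 i)
  set r := v (finRotate 9 (finRotate 9 i))
  have h1' : cross (q - p) (z - p) = cross (q - p) (z - q) := by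
    unfold cross
    simp only [Complex.sub_re, Complex.sub_im]
    ring
  have h3' : cross (q - p) (r - p) = cross (q - p) (r - q) := by
    unfold cross
    simp only [Complex.sub_re, Complex.sub_im]
    ring
  rw [h1'] at h1
  rw [h3'] at h3
  have e : cross (q - p) (r - q) * ip (z - q) w
      = - cross (r - q) (z - q) * ip (q - p) w + cross (q - p) (z - q) * ip (r - q) w := by
    unfold cross ip
    simp only [Complex.sub_re, Complex.sub_im]
    ring
  have b1 : 0 ≤ ip (q - p) w := by rw [ip_sub]; linarith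
  have b2 : ip (r - q) w ≤ 0 := by rw [ip_sub]; linarith
  have b3 : 0 < ip (z - q) w := by rw [ip_sub]; linarith
  have c1 : 0 < cross (q - p) (r - q) * ip (z - q) w := mul_pos h3 b3
  have c2 : 0 ≤ cross (r - q) (z - q) * ip (q - p) w := mul_nonneg h2.le b1
  have c3 : cross (q - p) (z - q) * ip (r - q) w ≤ 0 := mul_nonpos_of_nonneg_of_nonpos h1.le b2
  rw [e] at c1
  linarith

lemma exists_nonpos {v : Fin 9 → ℂ} (h : IsConvexNGon v) {y : ℂ} (hy : y ∈ boundary v) :
    ∃ i, cross (v (finRotate 9 i) - v i) (y - v i) ≤ 0 := by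
  by_contra hcon
  push Not at hcon
  have hopen : IsOpen {z : ℂ | ∀ i, 0 < cross (v (finRotate 9 i) - v i) (z - v i)} := by
    have : {z : ℂ | ∀ i, 0 < cross (v (finRotate 9 i) - v i) (z - v i)}
        = ⋂ i, {z : ℂ | 0 < cross (v (finRotate 9 i) - v i) (z - v i)} := by
      ext z
      simp only [Set.mem_iInter]
      rfl
    rw [this]
    exact isOpen_iInter_of_finite fun i => isOpen_lt continuous_const
      (continuous_cross continuous_const (by fun_prop))
  have hsub : {z : ℂ | ∀ i, 0 < cross (v (finRotate 9 i) - v i) (z - v i)}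
      ⊆ interior (convexHull ℝ (Set.range v)) :=
    interior_maximal (fun z hz => mem_hull_of_pos h hz) hopen
  exact hy.2 (hsub hcon)

lemma side_eq (a : ℝ) : ee (a + 1) - ee a
    = ((2 * Real.sin (Real.pi / 18) : ℝ) : ℂ) * (I * ee (a + 1 / 2)) := by
  have h1 : ee (a + 1) = ee (a + 1 / 2) * ee (1 / 2) := by rw [← ee_add]; congr 1; ring
  have h2 : ee a = ee (a + 1 / 2) * ee (-(1 / 2)) := by rw [← ee_add]; congr 1; ring
  have h3 : ee (1 / 2) - ee (-(1 / 2)) = ((2 * Real.sin (Real.pi / 18) : ℝ) : ℂ) * I := by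
    have e1 : (1 / 2 * (Real.pi / 9) : ℝ) = Real.pi / 18 := by ring
    have e2 : (-(1 / 2) * (Real.pi / 9) : ℝ) = -(Real.pi / 18) := by ring
    apply Complex.ext
    · rw [Complex.sub_re, ee_re, ee_re, e1, e2, Real.cos_neg, Complex.re_ofReal_mul, Complex.I_re]
      ring
    · rw [Complex.sub_im, ee_im, ee_im, e1, e2, Real.sin_neg, Complex.im_ofReal_mul, Complex.I_im]
      ring
  rw [h1, h2, ← mul_sub, h3]
  ring

lemma s_pos : 0 < Real.sin (Real.pi / 18) := by
  have := s_bounds.1
  norm_num at this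
  linarith

lemma perimeter_rein : perimeter rein = 18 * Real.sin (Real.pi / 18) := by
  unfold perimeter
  have h : ∀ i : Fin 9, dist (rein i) (rein (finRotate 9 i)) = 2 * Real.sin (Real.pi / 18) := by
    intro i
    rw [rein_next, dist_comm, dist_eq_norm]
    have : ctr i + ee (ang i + 1) - rein i = ee (ang i + 1) - ee (ang i) := by
      unfold rein; ring
    rw [this, side_eq, norm_mul, norm_mul, Complex.norm_real, Complex.norm_I, norm_ee,
      Real.norm_eq_abs, abs_of_pos (by have := s_pos; linarith)]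
    ring
  rw [Finset.sum_congr rfl fun i _ => h i]
  simp
  ring

lemma ip_ee (a b : ℝ) : ip (ee a) (ee (a + b)) = Real.cos (b * (Real.pi / 9)) := by
  unfold ip
  rw [ee_re, ee_im, ee_re, ee_im]
  have : (a + b) * (Real.pi / 9) = a * (Real.pi / 9) + b * (Real.pi / 9) := by ring
  rw [this, Real.cos_add, Real.sin_add]
  have := Real.sin_sq_add_cos_sq (a * (Real.pi / 9))
  linear_combination (Real.cos (b * (Real.pi / 9))) * this

lemma radius_rein : Real.cos (Real.pi / 18) ≤ selfRadius (boundary rein) := by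
  have hc : 0 < Real.cos (Real.pi / 18) := by
    have := c_bounds.1
    norm_num at this
    linarith
  refine le_selfRadius_boundary hc (boundary_nonempty (vertex_ne rein_convex)) fun y hy => ?_
  obtain ⟨i, hi⟩ := exists_nonpos rein_convex hy
  obtain ⟨j, hj⟩ := ctr_vertex i
  refine ⟨j, ?_⟩
  rw [← hj]
  set u := ee (ang i + 1 / 2) with hu
  have hs := s_pos
  have h1 : rein (finRotate 9 i) - rein i
      = ((2 * Real.sin (Real.pi / 18) : ℝ) : ℂ) * (I * u) := by
    rw [rein_next, hu, ← side_eq]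
    unfold rein; ring
  rw [h1] at hi
  have h2 : cross (((2 * Real.sin (Real.pi / 18) : ℝ) : ℂ) * (I * u)) (y - rein i)
      = -(2 * Real.sin (Real.pi / 18)) * ip (y - rein i) u := by
    unfold cross ip
    rw [Complex.re_ofReal_mul, Complex.im_ofReal_mul]
    simp only [Complex.mul_re, Complex.mul_im, Complex.I_re, Complex.I_im]
    ring
  rw [h2] at hi
  have h3 : 0 ≤ ip (y - rein i) u := by
    by_contra hneg
    push Not at hneg
    nlinarith
  have h4 : ip (y - ctr i) u = ip (y - rein i) u + Real.cos (Real.pi / 18) := by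
    have : y - ctr i = (y - rein i) + ee (ang i) := by unfold rein; ring
    rw [this, ip_add, hu, ip_ee]
    congr 2
    ring
  have h5 := ip_le_norm (y - ctr i) u
  rw [hu, norm_ee, mul_one, ← hu, h4] at h5
  linarith

theorem rein_ratio : perimeter rein / selfRadius (boundary rein)
    ≤ 18 * Real.sin (Real.pi / 18) / Real.cos (Real.pi / 18) := by
  have hc : 0 < Real.cos (Real.pi / 18) := by
    have := c_bounds.1
    norm_num at this
    linarith
  have hs := s_pos
  rw [perimeter_rein]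
  exact div_le_div_of_nonneg_left (by positivity) hc radius_rein

lemma value_lt : 18 * Real.sin (Real.pi / 18) / Real.cos (Real.pi / 18) < 3.1739 := by
  have hc : 0 < Real.cos (Real.pi / 18) := by
    have := c_bounds.1
    norm_num at this
    linarith
  have hs := s_pos
  obtain ⟨_, s2⟩ := s_bounds
  have h3 := Real.sin_sq_add_cos_sq (Real.pi / 18)
  rw [div_lt_iff₀ hc]
  apply lt_of_pow_lt_pow_left₀ 2 (by positivity)
  have h4 : Real.sin (Real.pi / 18) ^ 2 ≤ 0.1736489 ^ 2 := pow_le_pow_left₀ hs.le s2 2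
  rw [mul_pow, mul_pow]
  norm_num at h4 ⊢
  nlinarith

theorem rein_not_regular : ¬ IsRegularNGon rein := by
  rintro ⟨c, a, ha, h⟩
  have hn : ∀ i, ‖rein i - c‖ = ‖a‖ := by
    intro i
    have : rein i ∈ Set.range rein := ⟨i, rfl⟩
    rw [h] at this
    obtain ⟨k, hk⟩ := this
    rw [← hk]
    simp only
    rw [add_sub_cancel_left, norm_mul, Complex.norm_exp_ofReal_mul_I, mul_one]
  have e0 : rein 0 = 1 := by
    show (0 : ℂ) + ee 0 = 1
    rw [ee_zero]; ring
  have e1 : rein 1 = ⟨Real.cos (Real.pi / 9), Real.sin (Real.pi / 9)⟩ := by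
    show (0 : ℂ) + ee 1 = _
    apply Complex.ext
    · rw [zero_add, ee_re, one_mul]
    · rw [zero_add, ee_im, one_mul]
  have e3 : rein 3 = ⟨1 / 2, Real.sqrt 3 / 2⟩ := by
    show (1 : ℂ) + ee 6 = _
    rw [ee_six, ee_three]
  have e6 : rein 6 = 0 := by
    show ee 3 + ee 12 = 0
    have := ee_add_nine 3
    norm_num at this
    rw [this]; ring
  have hsq : ∀ i, ((rein i).re - c.re) * ((rein i).re - c.re)
      + ((rein i).im - c.im) * ((rein i).im - c.im) = ‖a‖ ^ 2 := by
    intro i
    rw [← hn i, ← Complex.normSq_eq_norm_sq, Complex.normSq_apply, Complex.sub_re, Complex.sub_im]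
  have h0 := hsq 0
  have h1 := hsq 1
  have h3 := hsq 3
  have h6 := hsq 6
  rw [e0] at h0
  rw [e1] at h1
  rw [e3] at h3
  rw [e6] at h6
  simp only [Complex.one_re, Complex.one_im, Complex.zero_re, Complex.zero_im] at h0 h1 h3 h6
  have hs3 : Real.sqrt 3 * Real.sqrt 3 = 3 := Real.mul_self_sqrt (by norm_num)
  have hcs := Real.sin_sq_add_cos_sq (Real.pi / 9)
  obtain ⟨⟨c1, c2⟩, ⟨s1, s2⟩⟩ := b20
  obtain ⟨r1, r2⟩ := b3
  have hre : c.re = 1 / 2 := by linarith
  have him : c.im * Real.sqrt 3 = 1 / 2 := by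
    rw [hre] at h3 h6
    nlinarith
  have h1' : Real.cos (Real.pi / 9) * c.re + Real.sin (Real.pi / 9) * c.im = 1 / 2 := by
    nlinarith
  rw [hre] at h1'
  norm_num at c1 c2 s1 s2 r1 r2
  have hi1 : 0.2886 ≤ c.im := by
    by_contra hcon
    push Not at hcon
    norm_num at hcon
    nlinarith
  norm_num at hi1
  nlinarith

/-! ### the regular nonagon -/

theorem regular_ratio {v : Fin 9 → ℂ} (hv : IsConvexNGon v) (hr : IsRegularNGon v) :
    18 * Real.sin (Real.pi / 18) / Real.cos (Real.pi / 18)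
      ≤ perimeter v / selfRadius (boundary v) := by
  obtain ⟨c, a, ha, h⟩ := hr
  have hapos : 0 < ‖a‖ := norm_pos_iff.2 ha
  have hδ := selfRadius_pos (vertex_ne hv)
  have hs := s_pos
  have hc : 0 < Real.cos (Real.pi / 18) := by
    have := c_bounds.1
    norm_num at this
    linarith
  -- the vertices
  have hform : ∀ k : Fin 9, (2 * Real.pi * (k : ℕ) / (9 : ℕ) : ℝ) = (2 * ((k : ℕ) : ℝ)) * (Real.pi / 9) := by
    intro k; push_cast; ring
  have hrange : Set.range v = Set.range fun k : Fin 9 => c + a * ee (2 * ((k : ℕ) : ℝ)) := by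
    rw [h]
    congr 1
    funext k
    unfold ee
    rw [← hform k]
  have hvert : ∀ i, ∃ k : Fin 9, v i = c + a * ee (2 * ((k : ℕ) : ℝ)) := by
    intro i
    have : v i ∈ Set.range v := ⟨i, rfl⟩
    rw [hrange] at this
    obtain ⟨k, hk⟩ := this
    exact ⟨k, hk.symm⟩
  -- distances between different vertices
  have hsin : ∀ m : ℕ, 1 ≤ m → m ≤ 8 → Real.sin (Real.pi / 9) ≤ Real.sin (m * (Real.pi / 9)) := by
    intro m h1 h2
    rcases Nat.lt_or_ge m 5 with h3 | h3
    · apply Real.sin_le_sin_of_le_of_le_pi_div_two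
      · linarith [Real.pi_pos]
      · have : (m : ℝ) ≤ 4 := by exact_mod_cast (by omega : m ≤ 4)
        nlinarith [Real.pi_pos]
      · have : (1 : ℝ) ≤ m := by exact_mod_cast h1
        nlinarith [Real.pi_pos]
    · have e : Real.sin (m * (Real.pi / 9)) = Real.sin (((9 - m : ℕ) : ℝ) * (Real.pi / 9)) := by
        rw [← Real.sin_pi_sub]
        congr 1
        rw [Nat.cast_sub (by omega)]
        push_cast; ring
      rw [e]
      apply Real.sin_le_sin_of_le_of_le_pi_div_two
      · linarith [Real.pi_pos]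
      · have : ((9 - m : ℕ) : ℝ) ≤ 4 := by exact_mod_cast (by omega : 9 - m ≤ 4)
        nlinarith [Real.pi_pos]
      · have : (1 : ℝ) ≤ ((9 - m : ℕ) : ℝ) := by exact_mod_cast (by omega : 1 ≤ 9 - m)
        nlinarith [Real.pi_pos]
  have hdist' : ∀ k l : ℕ, k < l → l < 9 →
      2 * Real.sin (Real.pi / 9) ≤ ‖ee (2 * (k : ℝ)) - ee (2 * (l : ℝ))‖ := by
    intro k l hkl hl
    have e1 : ee (2 * (l : ℝ)) = ee (2 * (k : ℝ)) * ee (2 * ((l - k : ℕ) : ℝ)) := by
      rw [← ee_add]; congr 1; rw [Nat.cast_sub hkl.le]; ring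
    have e2 : ee (2 * (k : ℝ)) - ee (2 * (k : ℝ)) * ee (2 * ((l - k : ℕ) : ℝ))
        = ee (2 * (k : ℝ)) * (1 - ee (2 * ((l - k : ℕ) : ℝ))) := by ring
    rw [e1, e2, norm_mul, norm_ee, one_mul]
    unfold ee
    rw [norm_one_sub_exp]
    have e3 : 2 * ((l - k : ℕ) : ℝ) * (Real.pi / 9) / 2 = ((l - k : ℕ) : ℝ) * (Real.pi / 9) := by
      ring
    rw [e3]
    have := hsin (l - k) (by omega) (by omega)
    have h2 := le_abs_self (Real.sin (((l - k : ℕ) : ℝ) * (Real.pi / 9)))
    linarith
  have hdist : ∀ i j, v i ≠ v j → 2 * Real.sin (Real.pi / 9) * ‖a‖ ≤ dist (v i) (v j) := by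
    intro i j hij
    obtain ⟨k, hk⟩ := hvert i
    obtain ⟨l, hl⟩ := hvert j
    rw [dist_eq_norm, hk, hl]
    have e : c + a * ee (2 * ((k : ℕ) : ℝ)) - (c + a * ee (2 * ((l : ℕ) : ℝ)))
        = a * (ee (2 * ((k : ℕ) : ℝ)) - ee (2 * ((l : ℕ) : ℝ))) := by ring
    rw [e, norm_mul, mul_comm]
    apply mul_le_mul_of_nonneg_left _ hapos.le
    rcases lt_trichotomy (k : ℕ) (l : ℕ) with h1 | h1 | h1
    · exact hdist' k l h1 l.2
    · exfalso; apply hij; rw [hk, hl, h1]
    · rw [norm_sub_rev]; exact hdist' l k h1 k.2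
  have hne : ∀ i : Fin 9, v i ≠ v (finRotate 9 i) := by
    intro i he
    have := orient_next hv i
    rw [← he, sub_self] at this
    simp [cross] at this
  have hper : 18 * Real.sin (Real.pi / 9) * ‖a‖ ≤ perimeter v := by
    unfold perimeter
    have : ∑ _i : Fin 9, 2 * Real.sin (Real.pi / 9) * ‖a‖
        ≤ ∑ i, dist (v i) (v (finRotate 9 i)) :=
      Finset.sum_le_sum fun i _ => hdist i _ (hne i)
    simp only [Finset.sum_const, Finset.card_univ, Fintype.card_fin, nsmul_eq_mul] at this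
    push_cast at this
    linarith
  -- the radius
  have hmem : ∀ k : Fin 9, c + a * ee (2 * ((k : ℕ) : ℝ)) ∈ Set.range v := by
    intro k; rw [hrange]; exact ⟨k, rfl⟩
  have hp0 : c + a ∈ Set.range v := by
    have := hmem 0
    simp only [Fin.val_zero, Nat.cast_zero, mul_zero, ee_zero, mul_one] at this
    exact this
  have hp1 : c + a * ee 2 ∈ Set.range v := by
    have := hmem 1
    simp only [Fin.val_one, Nat.cast_one, mul_one] at this
    exact this
  set u : ℂ := a * ee 1 with hu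
  set y : ℂ := c + ((Real.cos (Real.pi / 9) : ℝ) : ℂ) * u with hy
  have hc9 : 0 < Real.cos (Real.pi / 9) := by
    have := b20.1.1
    norm_num at this
    linarith
  have hee2 : 1 + ee 2 = 2 * ((Real.cos (Real.pi / 9) : ℝ) : ℂ) * ee 1 := by
    have h1 : ee 2 = ee 1 * ee 1 := by rw [← ee_add]; norm_num
    have h2 : (1 : ℂ) = ee 1 * ee (-1) := by rw [← ee_add]; norm_num [ee_zero]
    have h3 : ee (-1) + ee 1 = ((2 * Real.cos (Real.pi / 9) : ℝ) : ℂ) := by
      apply Complex.ext
      · rw [Complex.add_re, ee_re, ee_re, Complex.ofReal_re]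
        have : (-1 * (Real.pi / 9) : ℝ) = -(Real.pi / 9) := by ring
        rw [this, Real.cos_neg, one_mul]
        ring
      · rw [Complex.add_im, ee_im, ee_im, Complex.ofReal_im]
        have : (-1 * (Real.pi / 9) : ℝ) = -(Real.pi / 9) := by ring
        rw [this, Real.sin_neg, one_mul]
        ring
    calc 1 + ee 2 = ee 1 * (ee (-1) + ee 1) := by rw [mul_add, ← h2, ← h1]
      _ = _ := by rw [h3]; push_cast; ring
  have hymid : y = (1 / 2 : ℝ) • (c + a) + (1 / 2 : ℝ) • (c + a * ee 2) := by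
    rw [Complex.real_smul, Complex.real_smul, hy, hu]
    have : a * (1 + ee 2) = a * (2 * ((Real.cos (Real.pi / 9) : ℝ) : ℂ) * ee 1) := by rw [hee2]
    push_cast at this ⊢
    linear_combination (-1 / 2 : ℂ) * this
  have hyhull : y ∈ convexHull ℝ (Set.range v) := by
    rw [hymid]
    exact (convex_convexHull ℝ _) (subset_convexHull ℝ _ hp0) (subset_convexHull ℝ _ hp1)
      (by norm_num) (by norm_num) (by norm_num)
  have hune : u ≠ 0 := by
    rw [hu]
    refine mul_ne_zero ha ?_
    intro h0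
    have := norm_ee 1
    rw [h0, norm_zero] at this
    norm_num at this
  have hcos : ∀ k : ℕ, k < 9 → Real.cos ((1 - 2 * (k : ℝ)) * (Real.pi / 9)) ≤ Real.cos (Real.pi / 9) := by
    intro k hk
    rcases Nat.eq_zero_or_pos k with rfl | hk0
    · apply le_of_eq; congr 1; push_cast; ring
    · have e1 : (1 - 2 * (k : ℝ)) * (Real.pi / 9) = -(((2 * k - 1 : ℕ) : ℝ) * (Real.pi / 9)) := by
        rw [Nat.cast_sub (by omega)]; push_cast; ring
      rw [e1, Real.cos_neg]
      rcases Nat.lt_or_ge (2 * k - 1) 10 with h3 | h3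
      · apply Real.cos_le_cos_of_nonneg_of_le_pi
        · positivity
        · have : ((2 * k - 1 : ℕ) : ℝ) ≤ 9 := by exact_mod_cast (by omega : 2 * k - 1 ≤ 9)
          nlinarith [Real.pi_pos]
        · have : (1 : ℝ) ≤ ((2 * k - 1 : ℕ) : ℝ) := by exact_mod_cast (by omega : 1 ≤ 2 * k - 1)
          nlinarith [Real.pi_pos]
      · have e2 : Real.cos (((2 * k - 1 : ℕ) : ℝ) * (Real.pi / 9))
            = Real.cos (((18 - (2 * k - 1) : ℕ) : ℝ) * (Real.pi / 9)) := by
          rw [← Real.cos_two_pi_sub]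
          congr 1
          rw [Nat.cast_sub (by omega : 2 * k - 1 ≤ 18)]
          push_cast; ring
        rw [e2]
        apply Real.cos_le_cos_of_nonneg_of_le_pi
        · positivity
        · have : ((18 - (2 * k - 1) : ℕ) : ℝ) ≤ 9 := by
            exact_mod_cast (by omega : 18 - (2 * k - 1) ≤ 9)
          nlinarith [Real.pi_pos]
        · have : (1 : ℝ) ≤ ((18 - (2 * k - 1) : ℕ) : ℝ) := by
            exact_mod_cast (by omega : 1 ≤ 18 - (2 * k - 1))
          nlinarith [Real.pi_pos]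
  have hyb : y ∈ boundary v := by
    refine mem_boundary hyhull hune fun i => ?_
    obtain ⟨k, hk⟩ := hvert i
    rw [hk, hy, ip_add, ip_add]
    have h1 : ip (a * ee (2 * ((k : ℕ) : ℝ))) u
        = ‖a‖ ^ 2 * Real.cos ((1 - 2 * ((k : ℕ) : ℝ)) * (Real.pi / 9)) := by
      have e1 := ip_ee (2 * ((k : ℕ) : ℝ)) (1 - 2 * ((k : ℕ) : ℝ))
      have e2 : 2 * ((k : ℕ) : ℝ) + (1 - 2 * ((k : ℕ) : ℝ)) = 1 := by ring
      rw [e2] at e1
      rw [← e1, hu, ← Complex.normSq_eq_norm_sq, Complex.normSq_apply]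
      unfold ip
      simp only [Complex.mul_re, Complex.mul_im]
      ring
    have h2 : ip (((Real.cos (Real.pi / 9) : ℝ) : ℂ) * u) u = Real.cos (Real.pi / 9) * ‖a‖ ^ 2 := by
      rw [ip_smul_left]
      have : ip u u = ‖u‖ ^ 2 := by
        rw [← Complex.normSq_eq_norm_sq, Complex.normSq_apply, ip]
      rw [this, hu, norm_mul, norm_ee, mul_one]
    rw [h1, h2]
    have h3 := hcos k k.2
    have h4 := mul_le_mul_of_nonneg_left h3 (sq_nonneg ‖a‖)
    linarith
  have hyc : ‖y - c‖ = Real.cos (Real.pi / 9) * ‖a‖ := by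
    rw [hy, add_sub_cancel_left, norm_mul, hu, norm_mul, norm_ee, mul_one, Complex.norm_real,
      Real.norm_eq_abs, abs_of_pos hc9]
  have hball : convexHull ℝ (Set.range v) ⊆ closedBall c ‖a‖ := by
    apply convexHull_min _ (convex_closedBall _ _)
    rintro _ ⟨i, rfl⟩
    obtain ⟨k, hk⟩ := hvert i
    rw [hk, mem_closedBall, dist_eq_norm, add_sub_cancel_left, norm_mul, norm_ee, mul_one]
  have hrad : selfRadius (boundary v) ≤ (1 + Real.cos (Real.pi / 9)) * ‖a‖ := by
    refine selfRadius_le hyb fun z hz => ?_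
    have h1 := hball (boundary_subset v hz)
    rw [mem_closedBall] at h1
    calc dist y z ≤ dist y c + dist c z := dist_triangle _ _ _
      _ ≤ Real.cos (Real.pi / 9) * ‖a‖ + ‖a‖ := by
        rw [dist_eq_norm, hyc, dist_comm]; linarith
      _ = _ := by ring
  -- combination
  rw [div_le_div_iff₀ hc hδ]
  have h18 : 1 + Real.cos (Real.pi / 9) = 2 * Real.cos (Real.pi / 18) ^ 2 := by
    have : Real.pi / 9 = 2 * (Real.pi / 18) := by ring
    rw [this, Real.cos_two_mul]; ring
  rw [h18] at hrad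
  rw [sin20] at hper
  calc 18 * Real.sin (Real.pi / 18) * selfRadius (boundary v)
      ≤ 18 * Real.sin (Real.pi / 18) * (2 * Real.cos (Real.pi / 18) ^ 2 * ‖a‖) :=
        mul_le_mul_of_nonneg_left hrad (by positivity)
    _ = 18 * (2 * Real.sin (Real.pi / 18) * Real.cos (Real.pi / 18)) * ‖a‖
        * Real.cos (Real.pi / 18) := by ring
    _ ≤ perimeter v * Real.cos (Real.pi / 18) := mul_le_mul_of_nonneg_right hper hc.le

/-- **There is a non-regular extremal nonagon.** -/
theorem main : ∃ v : Fin 9 → ℂ, IsExtremalNGon v ∧ ¬ IsRegularNGon v := by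
  obtain ⟨v, hv, hmin⟩ := exists_extremal rein_convex (lt_of_le_of_lt rein_ratio value_lt)
  by_cases hreg : IsRegularNGon v
  · refine ⟨rein, ⟨rein_convex, fun w hw => ?_⟩, rein_not_regular⟩
    exact rein_ratio.trans ((regular_ratio hv hreg).trans (hmin w hw))
  · exact ⟨v, ⟨hv, hmin⟩, hreg⟩

end Pool.Agent.H46.Cheb
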